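import Mathlib

/-!
Average shadowing passes to factors: blocks, the iteration estimate and counting.
-/

set_option autoImplicit false

open Filter Finset Topology

namespace Pool.Agent.Q207.AShad

/-- The average `(1/n) (a 0 + … + a (n-1))`. -/
noncomputable def avg (a : ℕ → ℝ) (n : ℕ) : ℝ := (∑ i ∈ range n, a i) / n

section Lin

variable {X Y : Type*} [MetricSpace X] [CompactSpace X] [MetricSpace Y] [CompactSpace Y]

lemma bdd (X : Type*) [MetricSpace X] [CompactSpace X] : ∃ D : ℝ, 0 ≤ D ∧ ∀ a b : X, dist a b ≤ D := by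
  obtain ⟨D, hD⟩ := Metric.isBounded_iff.1 (isCompact_univ : IsCompact (Set.univ : Set X)).isBounded
  exact ⟨max D 0, le_max_right _ _, fun a b => (hD (Set.mem_univ a) (Set.mem_univ b)).trans
    (le_max_left _ _)⟩

lemma lin {h : X → Y} (hc : Continuous h) {ε : ℝ} (hε : 0 < ε) :
    ∃ C : ℝ, 0 ≤ C ∧ ∀ a b, dist (h a) (h b) ≤ ε + C * dist a b := by
  obtain ⟨η, hη, hu⟩ := Metric.uniformContinuous_iff.1
    (CompactSpace.uniformContinuous_of_continuous hc) ε hε
  obtain ⟨D, hD0, hD⟩ := bdd Y
  refine ⟨D / η, by positivity, fun a b => ?_⟩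
  by_cases hab : dist a b < η
  · have := (hu hab).le
    have h2 : 0 ≤ D / η * dist a b := by positivity
    linarith
  · have h1 := hD (h a) (h b)
    have h2 : D ≤ D / η * dist a b := by
      have h3 : η ≤ dist a b := not_lt.1 hab
      calc D = D / η * η := by field_simp
        _ ≤ D / η * dist a b := mul_le_mul_of_nonneg_left h3 (by positivity)
    linarith

lemma iter {g : Y → Y} (hg : Continuous g) (M : ℕ) : ∀ ε : ℝ, 0 < ε → ∃ C : ℝ, 0 ≤ C ∧
    ∀ (y : ℕ → Y) (b r : ℕ), r ≤ M → dist (g^[r] (y b)) (y (b + r)) ≤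
      ε + C * ∑ s ∈ range r, dist (g (y (b + s))) (y (b + s + 1)) := by
  induction M with
  | zero =>
    intro ε hε
    refine ⟨0, le_rfl, fun y b r hr => ?_⟩
    obtain rfl : r = 0 := by omega
    simp [hε.le]
  | succ M ih =>
    intro ε hε
    obtain ⟨C1, h10, h1⟩ := lin hg (half_pos hε)
    obtain ⟨C2, h20, h2⟩ := ih (ε / (2 * (C1 + 1))) (by positivity)
    have hε2 : C1 * (ε / (2 * (C1 + 1))) ≤ ε / 2 := by
      rw [← mul_div_assoc, div_le_div_iff₀ (by positivity) (by norm_num)]
      nlinarith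
    have hε3 : ε / (2 * (C1 + 1)) ≤ ε := by
      apply div_le_self hε.le
      linarith
    refine ⟨C1 * C2 + C2 + 1, by positivity, fun y b r hr => ?_⟩
    have hS : ∀ r : ℕ, 0 ≤ ∑ s ∈ range r, dist (g (y (b + s))) (y (b + s + 1)) :=
      fun r => Finset.sum_nonneg fun _ _ => dist_nonneg
    rcases Nat.lt_or_ge r (M + 1) with hlt | hge
    · refine (h2 y b r (by omega)).trans ?_
      have := hS r
      have h3 : 0 ≤ C1 * C2 := by positivity
      nlinarith [mul_nonneg h3 this]
    · obtain rfl : r = M + 1 := by omega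
      rw [Function.iterate_succ_apply', Finset.sum_range_succ]
      have h3 := h2 y b M le_rfl
      have h4 := h1 (g^[M] (y b)) (y (b + M))
      have h5 := dist_triangle (g (g^[M] (y b))) (g (y (b + M))) (y (b + (M + 1)))
      have h6 : y (b + (M + 1)) = y (b + M + 1) := rfl
      rw [h6] at h5 ⊢
      have h7 := hS M
      set S := ∑ s ∈ range M, dist (g (y (b + s))) (y (b + s + 1)) with hSdef
      set e := dist (g (y (b + M))) (y (b + M + 1)) with he
      have he0 : 0 ≤ e := dist_nonneg
      have h8 : C1 * dist (g^[M] (y b)) (y (b + M)) ≤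
          C1 * (ε / (2 * (C1 + 1)) + C2 * S) := mul_le_mul_of_nonneg_left h3 h10
      have h9 : 0 ≤ C1 * C2 * e := by positivity
      have h10' : 0 ≤ C2 * S := by positivity
      have h11 : 0 ≤ C2 * e := by positivity
      nlinarith

end Lin

/-- Starting points of blocks: a block starting at `t` has length `L t`. -/
def blk (L : ℕ → ℕ) : ℕ → ℕ
  | 0 => 0
  | (i + 1) => if i + 1 < blk L i + L (blk L i) then blk L i else i + 1

lemma blk_succ (L : ℕ → ℕ) (i : ℕ) :
    blk L (i + 1) = if i + 1 < blk L i + L (blk L i) then blk L i else i + 1 := rfl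

section Blk

variable {L : ℕ → ℕ} (hL : ∀ t, 1 ≤ L t)

lemma blk_le (i : ℕ) : blk L i ≤ i := by
  induction i with
  | zero => exact le_rfl
  | succ i ih => rw [blk_succ]; split_ifs <;> omega

include hL in
lemma lt_blk (i : ℕ) : i < blk L i + L (blk L i) := by
  induction i with
  | zero => have := hL 0; simp only [blk]; omega
  | succ i ih =>
    rw [blk_succ]
    split_ifs with h
    · exact h
    · have := hL (i + 1); omega

lemma blk_eq (i : ℕ) : ∀ s, blk L i ≤ s → s ≤ i → blk L s = blk L i := by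
  induction i with
  | zero =>
    intro s _ h
    have h0 : s = 0 := by omega
    rw [h0]
  | succ i ih =>
    intro s h1 h2
    rcases Nat.eq_or_lt_of_le h2 with rfl | h3
    · rfl
    · rw [blk_succ] at h1 ⊢
      split_ifs at h1 ⊢ with h
      · exact ih s h1 (by omega)
      · omega

lemma blk_cont {i : ℕ} (h : blk L (i + 1) ≠ i + 1) : blk L (i + 1) = blk L i := by
  rw [blk_succ] at h ⊢
  split_ifs at h ⊢ with h1
  · rfl
  · exact absurd rfl h

/-- The number of block starts among `k+1, …, k+n`. -/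
def jmp (L : ℕ → ℕ) (k n : ℕ) : ℕ :=
  ∑ i ∈ range n, if blk L (i + k + 1) = i + k + 1 then 1 else 0

lemma jmp_const {M : ℕ} (hM : 1 ≤ M) (k n : ℕ) :
    M * jmp (fun _ => M) k n + blk (fun _ => M) k = blk (fun _ => M) (n + k) := by
  induction n with
  | zero => simp [jmp]
  | succ n ih =>
    have e : jmp (fun _ => M) k (n + 1) = jmp (fun _ => M) k n +
        if blk (fun _ => M) (n + k + 1) = n + k + 1 then 1 else 0 := by
      unfold jmp; rw [Finset.sum_range_succ]
    have h1 := lt_blk (L := fun _ => M) (fun _ => hM) (n + k)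
    have h0 := blk_le (L := fun _ => M) (n + k)
    have h2 := blk_succ (fun _ => M) (n + k)
    rw [e, mul_add, show n + 1 + k = n + k + 1 by omega]
    split_ifs at h2 ⊢ with h3 h4 h5 <;> omega

lemma jmp_const_le {M : ℕ} (hM : 1 ≤ M) (k n : ℕ) : M * jmp (fun _ => M) k n ≤ n + M := by
  have h1 := jmp_const hM k n
  have h2 := blk_le (L := fun _ => M) (n + k)
  have h3 := lt_blk (L := fun _ => M) (fun _ => hM) k
  omega

include hL in
lemma jmp_le (n : ℕ) : jmp L 0 n ≤ blk L n := by
  induction n with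
  | zero => simp [jmp]
  | succ n ih =>
    have e : jmp L 0 (n + 1) = jmp L 0 n + if blk L (n + 1) = n + 1 then 1 else 0 := by
      unfold jmp; rw [Finset.sum_range_succ]
    have h0 := blk_le (L := L) n
    rw [e]
    by_cases h : blk L (n + 1) = n + 1
    · rw [if_pos h, h]; omega
    · rw [if_neg h, blk_cont h]; omega

include hL in
lemma jmp_le2 {K T : ℕ} (hT : ∀ t, T ≤ t → K ≤ L t) (n : ℕ) :
    K * jmp L 0 n ≤ K * T + blk L n := by
  induction n with
  | zero => simp [jmp]
  | succ n ih =>
    have e : jmp L 0 (n + 1) = jmp L 0 n + if blk L (n + 1) = n + 1 then 1 else 0 := by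
      unfold jmp; rw [Finset.sum_range_succ]
    have h0 := blk_le (L := L) n
    have h1 := lt_blk hL n
    rw [e]
    by_cases h : blk L (n + 1) = n + 1
    · rw [if_pos h]
      by_cases hb : T ≤ blk L n
      · have h2 := hT _ hb
        have h3 : ¬ (n + 1 < blk L n + L (blk L n)) := by
          intro h4
          have h5 := blk_succ L n
          rw [if_pos h4] at h5
          omega
        rw [mul_add, h]
        omega
      · have h2 := jmp_le hL n
        have h3 : jmp L 0 n + 1 ≤ T := by omega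
        exact (Nat.mul_le_mul_left K h3).trans (Nat.le_add_right _ _)
    · rw [if_neg h, blk_cont h]
      simpa using ih

end Blk

section Seq

variable {Y : Type*} [MetricSpace Y]

/-- The sequence of true orbit segments on the blocks. -/
def seg (L : ℕ → ℕ) (g : Y → Y) (y : ℕ → Y) (i : ℕ) : Y := g^[i - blk L i] (y (blk L i))

omit [MetricSpace Y] in
lemma seg_succ (L : ℕ → ℕ) (g : Y → Y) (y : ℕ → Y) {i : ℕ} (h : blk L (i + 1) ≠ i + 1) :
    seg L g y (i + 1) = g (seg L g y i) := by
  unfold seg
  rw [blk_cont h]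
  have := blk_le (L := L) i
  rw [show i + 1 - blk L i = (i - blk L i) + 1 by omega, Function.iterate_succ_apply']

lemma err {L : ℕ → ℕ} (hL : ∀ t, 1 ≤ L t) {g : Y → Y} {C ε : ℕ → ℝ} (hC : ∀ M, 0 ≤ C M)
    (h : ∀ (M : ℕ) (y : ℕ → Y) (b r : ℕ), r ≤ M → dist (g^[r] (y b)) (y (b + r)) ≤
      ε M + C M * ∑ s ∈ range r, dist (g (y (b + s))) (y (b + s + 1)))
    (y : ℕ → Y) (n : ℕ) :
    ∑ i ∈ range n, dist (seg L g y i) (y i) ≤ ∑ i ∈ range n, ε (L (blk L i)) +
      ∑ s ∈ range n, C (L (blk L s)) * L (blk L s) * dist (g (y s)) (y (s + 1)) := by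
  have key : ∀ i ∈ range n, dist (seg L g y i) (y i) ≤ ε (L (blk L i)) +
      ∑ s ∈ range n, if blk L i ≤ s ∧ s < i then
        C (L (blk L i)) * dist (g (y s)) (y (s + 1)) else 0 := by
    intro i hi
    have hi' := Finset.mem_range.1 hi
    have h0 := blk_le (L := L) i
    have h1 := lt_blk hL i
    have h2 := h (L (blk L i)) y (blk L i) (i - blk L i) (by omega)
    rw [show blk L i + (i - blk L i) = i by omega] at h2
    refine h2.trans (le_of_eq ?_)
    congr 1
    rw [Finset.mul_sum, ← Finset.sum_filter]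
    have e : (range n).filter (fun s => blk L i ≤ s ∧ s < i) = Finset.Ico (blk L i) i := by
      ext s
      simp only [Finset.mem_filter, Finset.mem_range, Finset.mem_Ico]
      constructor
      · rintro ⟨_, h⟩; exact h
      · rintro h; exact ⟨by omega, h⟩
    rw [e, Finset.sum_Ico_eq_sum_range]
  refine (Finset.sum_le_sum key).trans ?_
  rw [Finset.sum_add_distrib, Finset.sum_comm]
  refine add_le_add le_rfl (Finset.sum_le_sum fun s hs => ?_)
  have hd : (0 : ℝ) ≤ dist (g (y s)) (y (s + 1)) := dist_nonneg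
  have h3 : ∀ i ∈ range n, (if blk L i ≤ s ∧ s < i then
      C (L (blk L i)) * dist (g (y s)) (y (s + 1)) else 0) ≤
      if i ∈ Finset.Ico (s + 1) (blk L s + L (blk L s)) then
        C (L (blk L s)) * dist (g (y s)) (y (s + 1)) else 0 := by
    intro i _
    by_cases hc : blk L i ≤ s ∧ s < i
    · have e : blk L s = blk L i := blk_eq i s hc.1 hc.2.le
      have h1 := lt_blk hL i
      rw [if_pos hc, e, if_pos]
      rw [Finset.mem_Ico]
      omega
    · rw [if_neg hc]
      split_ifs
      · exact mul_nonneg (hC _) hd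
      · exact le_rfl
  refine (Finset.sum_le_sum h3).trans ?_
  rw [← Finset.sum_filter, Finset.sum_const, nsmul_eq_mul]
  have h4 : (((range n).filter (fun i => i ∈ Finset.Ico (s + 1)
      (blk L s + L (blk L s)))).card : ℝ) ≤ L (blk L s) := by
    have h5 : ((range n).filter (fun i => i ∈ Finset.Ico (s + 1)
        (blk L s + L (blk L s)))).card ≤ (Finset.Ico (s + 1) (blk L s + L (blk L s))).card :=
      Finset.card_le_card (fun i hi => (Finset.mem_filter.1 hi).2)
    rw [Nat.card_Ico] at h5
    have h6 := blk_le (L := L) s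
    have h7 : ((range n).filter (fun i => i ∈ Finset.Ico (s + 1)
        (blk L s + L (blk L s)))).card ≤ L (blk L s) := by omega
    exact_mod_cast h7
  have h8 : 0 ≤ C (L (blk L s)) * dist (g (y s)) (y (s + 1)) := mul_nonneg (hC _) hd
  calc _ ≤ (L (blk L s) : ℝ) * (C (L (blk L s)) * dist (g (y s)) (y (s + 1))) :=
        mul_le_mul_of_nonneg_right h4 h8
    _ = _ := by ring

end Seq

end Pool.Agent.Q207.AShad
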