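import Pool.Agent.Q207.AShad

/-!
Average shadowing passes to factors: averages, choice of the block lengths, lifting.
-/

set_option autoImplicit false

open Filter Finset Topology

namespace Pool.Agent.Q207.AShad

lemma avg_nonneg {a : ℕ → ℝ} (h : ∀ i, 0 ≤ a i) (n : ℕ) : 0 ≤ avg a n := by
  unfold avg
  have := Finset.sum_nonneg (s := range n) fun i _ => h i
  positivity

lemma avg_mono {a b : ℕ → ℝ} (h : ∀ i, a i ≤ b i) (n : ℕ) : avg a n ≤ avg b n := by
  unfold avg
  gcongr with i hi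
  exact h i

lemma avg_add (a b : ℕ → ℝ) (n : ℕ) : avg (fun i => a i + b i) n = avg a n + avg b n := by
  unfold avg
  rw [Finset.sum_add_distrib, add_div]

lemma avg_mul (c : ℝ) (a : ℕ → ℝ) (n : ℕ) : avg (fun i => c * a i) n = c * avg a n := by
  unfold avg
  rw [← Finset.mul_sum, mul_div_assoc]

lemma avg_const {c : ℝ} (hc : 0 ≤ c) (n : ℕ) : avg (fun _ => c) n ≤ c := by
  unfold avg
  rw [Finset.sum_const, Finset.card_range, nsmul_eq_mul]
  rcases Nat.eq_zero_or_pos n with rfl | hn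
  · simpa using hc
  · have : (0 : ℝ) < n := by exact_mod_cast hn
    rw [mul_comm, mul_div_assoc, div_self this.ne', mul_one]

lemma avg_lin {a b : ℕ → ℝ} {ε C : ℝ} (hε : 0 ≤ ε) (h : ∀ i, b i ≤ ε + C * a i) (n : ℕ) :
    avg b n ≤ ε + C * avg a n := by
  refine (avg_mono h n).trans ?_
  rw [avg_add (fun _ => ε) (fun i => C * a i), avg_mul]
  have := avg_const hε n
  linarith

lemma avg_cesaro {a : ℕ → ℝ} (h : Tendsto a atTop (𝓝 0)) : Tendsto (avg a) atTop (𝓝 0) := by
  have := h.cesaro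
  refine this.congr fun n => ?_
  unfold avg
  rw [div_eq_inv_mul]

/-- If `b ≤ ε + C_ε a` for every `ε > 0` and the averages of `a` tend to zero, then so do those
of `b`. -/
lemma avg_transfer {a b : ℕ → ℝ} (hb : ∀ i, 0 ≤ b i)
    (h : ∀ ε : ℝ, 0 < ε → ∃ C : ℝ, 0 ≤ C ∧ ∀ i, b i ≤ ε + C * a i)
    (ha : Tendsto (avg a) atTop (𝓝 0)) : Tendsto (avg b) atTop (𝓝 0) := by
  rw [Metric.tendsto_atTop]
  intro ε hε
  obtain ⟨C, hC, hC2⟩ := h (ε / 2) (half_pos hε)
  have h1 : Tendsto (fun n => C * avg a n) atTop (𝓝 0) := by simpa using ha.const_mul C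
  obtain ⟨N, hN⟩ := eventually_atTop.1 (h1.eventually (gt_mem_nhds (half_pos hε)))
  refine ⟨N, fun n hn => ?_⟩
  rw [Real.dist_eq, sub_zero, abs_of_nonneg (avg_nonneg hb n)]
  have := avg_lin (half_pos hε).le hC2 n
  have := hN n hn
  linarith

lemma diag {W : ℕ → ℝ} (hW : ∀ M, 0 ≤ W M) {a : ℕ → ℝ} (ha : ∀ n, 0 ≤ a n)
    (ha0 : Tendsto a atTop (𝓝 0)) : ∃ L : ℕ → ℕ, Monotone L ∧ Tendsto L atTop atTop ∧
      (∀ t, 1 ≤ L t) ∧ Tendsto (fun n => W (L n) * a n) atTop (𝓝 0) := by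
  classical
  set P : ℕ → ℕ → Prop := fun n M => ∀ n', n ≤ n' → W (M + 1) * a n' ≤ 1 / ((M : ℝ) + 1) with hP
  have hPm : ∀ {n n' : ℕ}, n ≤ n' → ∀ M, P n M → P n' M := fun h M hM m hm => hM m (h.trans hm)
  have hev : ∀ M, ∃ N, P N M := by
    intro M
    have h1 : Tendsto (fun n => W (M + 1) * a n) atTop (𝓝 0) := by simpa using ha0.const_mul (W (M + 1))
    have h2 : (0 : ℝ) < 1 / ((M : ℝ) + 1) := by positivity
    obtain ⟨N, hN⟩ := eventually_atTop.1 (h1.eventually (gt_mem_nhds h2))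
    exact ⟨N, fun n' hn' => (hN n' hn').le⟩
  have hT : Tendsto (fun n => 1 + Nat.findGreatest (P n) n) atTop atTop := by
    rw [tendsto_atTop]
    intro M
    obtain ⟨N, hN⟩ := hev M
    filter_upwards [eventually_ge_atTop (max N M)] with n hn
    have h1 : M ≤ Nat.findGreatest (P n) n :=
      Nat.le_findGreatest ((le_max_right _ _).trans hn) (hPm ((le_max_left _ _).trans hn) M hN)
    omega
  refine ⟨fun n => 1 + Nat.findGreatest (P n) n, ?_, hT, fun t => Nat.le_add_right _ _, ?_⟩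
  · intro n n' h
    have := Nat.findGreatest_mono (P := P n) (Q := P n') (fun M => hPm h M) h
    simpa using this
  · obtain ⟨N, hN⟩ := hev 0
    have h1 : Tendsto (fun n => 1 / ((Nat.findGreatest (P n) n : ℕ) + 1 : ℝ)) atTop (𝓝 0) := by
      have h2 := tendsto_const_nhds (x := (1 : ℝ)).div_atTop
        (tendsto_natCast_atTop_atTop (R := ℝ) |>.comp hT)
      refine h2.congr fun n => ?_
      simp only [Function.comp]
      push_cast
      rw [add_comm]
    refine squeeze_zero' (Eventually.of_forall fun n => mul_nonneg (hW _) (ha n)) ?_ h1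
    filter_upwards [eventually_ge_atTop N] with n hn
    have h3 : P n (Nat.findGreatest (P n) n) := Nat.findGreatest_spec (Nat.zero_le n) (hPm hn 0 hN)
    have h4 := h3 n le_rfl
    rw [add_comm 1]
    exact h4

section Lift

variable {X Y : Type*} [MetricSpace X] [MetricSpace Y]

omit [MetricSpace X] [MetricSpace Y] in
lemma lift {f : X → X} {g : Y → Y} {π : X → Y} (hc : ∀ x, π (f x) = g (π x)) (L : ℕ → ℕ)
    {x : ℕ → X} {y : ℕ → Y} (hx : ∀ j, π (x j) = y j) (i : ℕ) :
    π (seg L f x i) = seg L g y i := by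
  unfold seg
  have h : Function.Semiconj π f g := hc
  rw [(h.iterate_right _).eq, hx]

lemma jump_le {f : X → X} {D : ℝ} (hD : ∀ a b : X, dist a b ≤ D) (L : ℕ → ℕ)
    (x : ℕ → X) (k n : ℕ) :
    ∑ i ∈ range n, dist (f (seg L f x (i + k))) (seg L f x (i + k + 1)) ≤ D * jmp L k n := by
  unfold jmp
  push_cast
  rw [Finset.mul_sum]
  refine Finset.sum_le_sum fun i _ => ?_
  by_cases h : blk L (i + k + 1) = i + k + 1
  · rw [if_pos h, mul_one]; exact hD _ _
  · rw [if_neg h, mul_zero, seg_succ L f x h, dist_self]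

end Lift

end Pool.Agent.Q207.AShad
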