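import Mathlib

set_option autoImplicit false

open MeasureTheory ProbabilityTheory Set Filter
open scoped ENNReal Topology

namespace Pool.Agent.Q207.Brw

variable {E : Type} [MeasurableSpace E]

/-- the law of i.i.d. marks attached to all labels -/
noncomputable def PP (κ : Measure E) [IsProbabilityMeasure κ] : Measure (List ℕ → E) :=
  Measure.infinitePi fun _ => κ

instance (κ : Measure E) [IsProbabilityMeasure κ] : IsProbabilityMeasure (PP κ) := by
  unfold PP; infer_instance

/-- the σ-algebra of the marks in `T` -/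
def FF (E : Type) [MeasurableSpace E] (T : Set (List ℕ)) : MeasurableSpace (List ℕ → E) :=
  ⨆ u ∈ T, MeasurableSpace.comap (fun ω : List ℕ → E => ω u) inferInstance

theorem FF_le (T : Set (List ℕ)) : FF E T ≤ MeasurableSpace.pi := by
  unfold FF
  exact iSup₂_le fun u _ => (measurable_pi_apply u).comap_le

theorem FF_mono {S T : Set (List ℕ)} (h : S ⊆ T) : FF E S ≤ FF E T := by
  unfold FF
  exact biSup_mono h

theorem FF_coord {T : Set (List ℕ)} {u : List ℕ} (hu : u ∈ T) {s : Set E} (hs : MeasurableSet s) :
    MeasurableSet[FF E T] {ω | ω u ∈ s} := by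
  have h : MeasurableSpace.comap (fun ω : List ℕ → E => ω u) inferInstance ≤ FF E T :=
    le_iSup₂_of_le (f := fun (u : List ℕ) (_ : u ∈ T) =>
      MeasurableSpace.comap (fun ω : List ℕ → E => ω u) inferInstance) u hu le_rfl
  exact h _ ⟨s, hs, rfl⟩

theorem indep (κ : Measure E) [IsProbabilityMeasure κ] {S T : Set (List ℕ)} (h : Disjoint S T) :
    Indep (FF E S) (FF E T) (PP κ) := by
  unfold FF PP
  apply indep_iSup_of_disjoint (fun u => (measurable_pi_apply u).comap_le) _ h
  exact iIndepFun_infinitePi (P := fun _ : List ℕ => κ) (X := fun _ (x : E) => x)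
    (fun _ => measurable_id)

theorem real_inter (κ : Measure E) [IsProbabilityMeasure κ] {S T : Set (List ℕ)}
    (h : Disjoint S T) {A B : Set (List ℕ → E)} (hA : MeasurableSet[FF E S] A)
    (hB : MeasurableSet[FF E T] B) :
    (PP κ).real (A ∩ B) = (PP κ).real A * (PP κ).real B := by
  have := (Indep_iff _ _ _).1 (indep κ h) A B hA hB
  simp only [Measure.real, this, ENNReal.toReal_mul]

theorem real_coord (κ : Measure E) [IsProbabilityMeasure κ] (u : List ℕ) {s : Set E}
    (hs : MeasurableSet s) : (PP κ).real {ω | ω u ∈ s} = κ.real s := by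
  have h : (PP κ).map (fun ω => ω u) = κ := Measure.infinitePi_map_eval (fun _ => κ) u
  have h2 : κ s = (PP κ) {ω | ω u ∈ s} := by
    conv_lhs => rw [← h]
    rw [Measure.map_apply (measurable_pi_apply u) hs]
    rfl
  simp only [Measure.real]
  rw [h2]

/-- descendants, including the vertex -/
def Sub (v : List ℕ) : Set (List ℕ) := {u | v <:+ u}

/-- strict descendants -/
def SSub (v : List ℕ) : Set (List ℕ) := {u | v <:+ u ∧ u ≠ v}

theorem Sub_cons_subset (i : ℕ) (v : List ℕ) : Sub (i :: v) ⊆ SSub v := by
  intro u hu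
  refine ⟨(List.suffix_cons i v).trans hu, ?_⟩
  rintro rfl
  have := hu.length_le
  simp at this

theorem SSub_subset (v : List ℕ) : SSub v ⊆ Sub v := fun _ hu => hu.1

theorem Sub_disjoint {a b : List ℕ} (hl : a.length = b.length) (hne : a ≠ b) :
    Disjoint (Sub a) (Sub b) := by
  rw [Set.disjoint_left]
  intro u ha hb
  apply hne
  exact (List.suffix_of_suffix_length_le ha hb hl.le).eq_of_length hl

section

variable {S : Type}

/-- the automaton run down the tree survives for `n` further generations -/
def live (m : ℕ) (δ : S → Bool → Option S) (b : E → Bool) :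
    ℕ → S → List ℕ → (List ℕ → E) → Prop
  | 0, s, v, ω => ∃ s', δ s (b (ω v)) = some s'
  | n + 1, s, v, ω => ∃ s', δ s (b (ω v)) = some s' ∧ ∃ i < m, live m δ b n s' (i :: v) ω

/-- probability that some child survives -/
def hh (m : ℕ) (x : ℝ) : ℝ := 1 - (1 - x) ^ m

/-- the survival probabilities -/
noncomputable def aa (m : ℕ) (δ : S → Bool → Option S) : ℕ → S → ℝ
  | 0, s => (δ s true).elim 0 (fun _ => 1 / 2) + (δ s false).elim 0 (fun _ => 1 / 2)
  | n + 1, s => (δ s true).elim 0 (fun s' => 1 / 2 * hh m (aa m δ n s'))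
      + (δ s false).elim 0 (fun s' => 1 / 2 * hh m (aa m δ n s'))

variable (m : ℕ) (δ : S → Bool → Option S) (b : E → Bool) (hb : Measurable b)

include hb

theorem bit_eq (v : List ℕ) {T : Set (List ℕ)} (hv : v ∈ T) (β : Bool) :
    MeasurableSet[FF E T] {ω : List ℕ → E | b (ω v) = β} :=
  FF_coord hv (hb (measurableSet_singleton β))

theorem live_measurable (n : ℕ) : ∀ (s : S) (v : List ℕ),
    MeasurableSet[FF E (Sub v)] {ω | live m δ b n s v ω} := by
  induction n with
  | zero =>
    intro s v
    have : {ω : List ℕ → E | live m δ b 0 s v ω}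
        = {ω | ω v ∈ b ⁻¹' {β | ∃ s', δ s β = some s'}} := rfl
    rw [this]
    exact FF_coord (T := Sub v) (List.suffix_refl v) (hb (Set.toFinite _).measurableSet)
  | succ n ih =>
    intro s v
    have h : {ω : List ℕ → E | live m δ b (n + 1) s v ω}
        = ⋃ β : Bool, {ω | b (ω v) = β} ∩
          {ω | ∃ s', δ s β = some s' ∧ ∃ i < m, live m δ b n s' (i :: v) ω} := by
      ext ω
      simp only [mem_iUnion, mem_inter_iff, mem_ofPred_eq, live]
      constructor
      · intro h
        exact ⟨_, rfl, h⟩
      · rintro ⟨β, rfl, h⟩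
        exact h
    rw [h]
    refine @MeasurableSet.iUnion _ _ (FF E (Sub v)) _ _ fun β => ?_
    refine @MeasurableSet.inter _ (FF E (Sub v)) _ _ (bit_eq b hb v (List.suffix_refl v) β) ?_
    cases hδ : δ s β with
    | none => simp
    | some s' =>
      have h2 : {ω : List ℕ → E | ∃ s'', some s' = some s'' ∧ ∃ i < m, live m δ b n s'' (i :: v) ω}
          = ⋃ i ∈ Finset.range m, {ω | live m δ b n s' (i :: v) ω} := by
        ext ω
        simp
      rw [h2]
      refine @Finset.measurableSet_biUnion _ _ (FF E (Sub v)) _ _ fun i _ => ?_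
      exact FF_mono ((Sub_cons_subset i v).trans (SSub_subset v)) _ (ih s' (i :: v))

variable (κ : Measure E) [IsProbabilityMeasure κ]

theorem real_none (n : ℕ) (s : S) (v : List ℕ) (p : ℝ)
    (hp : ∀ i, (PP κ).real {ω | live m δ b n s (i :: v) ω} = p) (j : ℕ) :
    (PP κ).real {ω | ∀ i < j, ¬ live m δ b n s (i :: v) ω} = (1 - p) ^ j := by
  induction j with
  | zero => simp
  | succ j ih =>
    have h : {ω : List ℕ → E | ∀ i < j + 1, ¬ live m δ b n s (i :: v) ω}
        = {ω | ∀ i < j, ¬ live m δ b n s (i :: v) ω} ∩ {ω | live m δ b n s (j :: v) ω}ᶜ := by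
      ext ω
      simp only [mem_inter_iff, mem_ofPred_eq, mem_compl_iff]
      constructor
      · intro h
        exact ⟨fun i hi => h i (by omega), h j (by omega)⟩
      · rintro ⟨h1, h2⟩ i hi
        rcases Nat.lt_succ_iff_lt_or_eq.1 hi with h | rfl
        · exact h1 i h
        · exact h2
    have hm : MeasurableSet[FF E (⋃ i ∈ Finset.range j, Sub (i :: v))]
        {ω : List ℕ → E | ∀ i < j, ¬ live m δ b n s (i :: v) ω} := by
      have h2 : {ω : List ℕ → E | ∀ i < j, ¬ live m δ b n s (i :: v) ω}
          = ⋂ i ∈ Finset.range j, {ω | live m δ b n s (i :: v) ω}ᶜ := by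
        ext ω; simp
      rw [h2]
      refine @Finset.measurableSet_biInter _ _ (FF E _) _ _ fun i hi => ?_
      refine @MeasurableSet.compl _ _ (FF E _) ?_
      refine FF_mono ?_ _ (live_measurable m δ b hb n s (i :: v))
      exact Set.subset_biUnion_of_mem (u := fun i => Sub (i :: v)) hi
    have hm2 : MeasurableSet[FF E (Sub (j :: v))] {ω : List ℕ → E | live m δ b n s (j :: v) ω}ᶜ :=
      @MeasurableSet.compl _ _ (FF E _) (live_measurable m δ b hb n s (j :: v))
    have hd : Disjoint (⋃ i ∈ Finset.range j, Sub (i :: v)) (Sub (j :: v)) := by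
      simp only [Set.disjoint_iUnion_left]
      intro i hi
      apply Sub_disjoint (by simp)
      intro h
      rw [List.cons.injEq] at h
      rw [Finset.mem_range] at hi
      omega
    rw [h, real_inter κ hd hm hm2, ih, pow_succ]
    congr 1
    rw [probReal_compl_eq_one_sub, hp]
    exact FF_le _ _ (live_measurable m δ b hb n s (j :: v))

variable (h1 : κ.real (b ⁻¹' {true}) = 1 / 2) (h2 : κ.real (b ⁻¹' {false}) = 1 / 2)
include h1 h2

theorem real_bit (v : List ℕ) (β : Bool) :
    (PP κ).real {ω | b (ω v) = β} = 1 / 2 := by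
  have := real_coord κ v (hb (measurableSet_singleton β))
  have e : {ω : List ℕ → E | ω v ∈ b ⁻¹' {β}} = {ω | b (ω v) = β} := rfl
  rw [e] at this
  rw [this]
  cases β
  · exact h2
  · exact h1

theorem real_live (n : ℕ) : ∀ (s : S) (v : List ℕ),
    (PP κ).real {ω | live m δ b n s v ω} = aa m δ n s := by
  induction n with
  | zero =>
    intro s v
    have h : {ω : List ℕ → E | live m δ b 0 s v ω}
        = ({ω | b (ω v) = true} ∩ {ω | ∃ s', δ s true = some s'})
          ∪ ({ω | b (ω v) = false} ∩ {ω | ∃ s', δ s false = some s'}) := by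
      ext ω
      simp only [mem_union, mem_inter_iff, mem_ofPred_eq, live]
      cases b (ω v) <;> simp
    have hd : Disjoint ({ω : List ℕ → E | b (ω v) = true} ∩ {ω | ∃ s', δ s true = some s'})
        ({ω | b (ω v) = false} ∩ {ω | ∃ s', δ s false = some s'}) := by
      rw [Set.disjoint_left]
      rintro ω ⟨h1, -⟩ ⟨h2, -⟩
      simp only [mem_ofPred_eq] at h1 h2
      rw [h1] at h2
      exact absurd h2 (by simp)
    have hm : ∀ β, MeasurableSet ({ω : List ℕ → E | b (ω v) = β} ∩ {ω | ∃ s', δ s β = some s'}) := by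
      intro β
      refine MeasurableSet.inter (hb.comp (measurable_pi_apply v) (measurableSet_singleton β)) ?_
      exact MeasurableSet.const _
    have hr : ∀ β, (PP κ).real ({ω : List ℕ → E | b (ω v) = β} ∩ {ω | ∃ s', δ s β = some s'})
        = (δ s β).elim 0 (fun _ => 1 / 2) := by
      intro β
      cases hδ : δ s β with
      | none => simp
      | some s' =>
        simp only [Option.some.injEq, exists_eq', ofPred_true, inter_univ, Option.elim_some]
        exact real_bit b hb κ h1 h2 v β
    rw [h, measureReal_union hd (hm false), hr, hr]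
    rfl
  | succ n ih =>
    intro s v
    have h : {ω : List ℕ → E | live m δ b (n + 1) s v ω}
        = ({ω | b (ω v) = true} ∩
            {ω | ∃ s', δ s true = some s' ∧ ∃ i < m, live m δ b n s' (i :: v) ω})
          ∪ ({ω | b (ω v) = false} ∩
            {ω | ∃ s', δ s false = some s' ∧ ∃ i < m, live m δ b n s' (i :: v) ω}) := by
      ext ω
      simp only [mem_union, mem_inter_iff, mem_ofPred_eq, live]
      cases b (ω v) <;> simp
    have hd : Disjoint ({ω : List ℕ → E | b (ω v) = true} ∩
            {ω | ∃ s', δ s true = some s' ∧ ∃ i < m, live m δ b n s' (i :: v) ω})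
        ({ω | b (ω v) = false} ∩
            {ω | ∃ s', δ s false = some s' ∧ ∃ i < m, live m δ b n s' (i :: v) ω}) := by
      rw [Set.disjoint_left]
      rintro ω ⟨h1, -⟩ ⟨h2, -⟩
      simp only [mem_ofPred_eq] at h1 h2
      rw [h1] at h2
      exact absurd h2 (by simp)
    have hG : ∀ β, MeasurableSet[FF E (SSub v)]
        {ω : List ℕ → E | ∃ s', δ s β = some s' ∧ ∃ i < m, live m δ b n s' (i :: v) ω} := by
      intro β
      cases hδ : δ s β with
      | none => simp
      | some s' =>
        have h2 : {ω : List ℕ → E | ∃ s'', some s' = some s'' ∧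
            ∃ i < m, live m δ b n s'' (i :: v) ω}
            = ⋃ i ∈ Finset.range m, {ω | live m δ b n s' (i :: v) ω} := by
          ext ω
          simp
        rw [h2]
        refine @Finset.measurableSet_biUnion _ _ (FF E _) _ _ fun i _ => ?_
        exact FF_mono (Sub_cons_subset i v) _ (live_measurable m δ b hb n s' (i :: v))
    have hb' : ∀ β, MeasurableSet[FF E {v}] {ω : List ℕ → E | b (ω v) = β} :=
      fun β => bit_eq b hb v (Set.mem_singleton v) β
    have hdis : Disjoint ({v} : Set (List ℕ)) (SSub v) := by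
      rw [Set.disjoint_left]
      rintro u hu ⟨-, h2⟩
      exact h2 hu
    have hr : ∀ β, (PP κ).real ({ω : List ℕ → E | b (ω v) = β} ∩
        {ω | ∃ s', δ s β = some s' ∧ ∃ i < m, live m δ b n s' (i :: v) ω})
        = (δ s β).elim 0 (fun s' => 1 / 2 * hh m (aa m δ n s')) := by
      intro β
      rw [real_inter κ hdis (hb' β) (hG β), real_bit b hb κ h1 h2 v β]
      cases hδ : δ s β with
      | none => simp
      | some s' =>
        rw [Option.elim_some]
        congr 1
        have e : {ω : List ℕ → E | ∃ s'', some s' = some s'' ∧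
            ∃ i < m, live m δ b n s'' (i :: v) ω}
            = {ω | ∀ i < m, ¬ live m δ b n s' (i :: v) ω}ᶜ := by
          ext ω
          simp
        have hm : MeasurableSet {ω : List ℕ → E | ∀ i < m, ¬ live m δ b n s' (i :: v) ω} := by
          have h2 : {ω : List ℕ → E | ∀ i < m, ¬ live m δ b n s' (i :: v) ω}
              = ⋂ i ∈ Finset.range m, {ω | live m δ b n s' (i :: v) ω}ᶜ := by
            ext ω; simp
          rw [h2]
          refine Finset.measurableSet_biInter _ fun i hi => ?_
          exact (FF_le _ _ (live_measurable m δ b hb n s' (i :: v))).compl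
        rw [e, probReal_compl_eq_one_sub hm,
          real_none m δ b hb κ n s' v (aa m δ n s') (fun i => ih s' (i :: v)) m]
        rfl
    rw [h, measureReal_union hd, hr, hr]
    · rfl
    · exact MeasurableSet.inter (FF_le _ _ (hb' false)) (FF_le _ _ (hG false))

omit hb h1 h2 in
theorem live_anti (n : ℕ) : ∀ (s : S) (v : List ℕ) (ω : List ℕ → E),
    live m δ b (n + 1) s v ω → live m δ b n s v ω := by
  induction n with
  | zero =>
    rintro s v ω ⟨s', hs, -⟩
    exact ⟨s', hs⟩
  | succ n ih =>
    rintro s v ω ⟨s', hs, i, hi, h⟩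
    exact ⟨s', hs, i, hi, ih s' (i :: v) ω h⟩

/-- survival for ever -/
def surv (s : S) (v : List ℕ) : Set (List ℕ → E) := {ω | ∀ n, live m δ b n s v ω}

omit h1 h2 in
theorem surv_measurable (s : S) (v : List ℕ) : MeasurableSet[FF E (Sub v)] (surv m δ b s v) := by
  have : surv m δ b s v = ⋂ n, {ω : List ℕ → E | live m δ b n s v ω} := by
    ext ω; simp [surv]
  rw [this]
  exact @MeasurableSet.iInter _ _ (FF E _) _ _ fun n => live_measurable m δ b hb n s v

theorem surv_le (s : S) (v : List ℕ) (n : ℕ) : (PP κ).real (surv m δ b s v) ≤ aa m δ n s := by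
  rw [← real_live m δ b hb κ h1 h2 n s v]
  exact measureReal_mono fun ω hω => hω n

theorem le_surv (s : S) (v : List ℕ) (ε : ℝ) (hε : ∀ n, ε ≤ aa m δ n s) :
    ε ≤ (PP κ).real (surv m δ b s v) := by
  have e : surv m δ b s v = ⋂ n, {ω : List ℕ → E | live m δ b n s v ω} := by
    ext ω; simp [surv]
  have hanti : Antitone fun n => {ω : List ℕ → E | live m δ b n s v ω} :=
    antitone_nat_of_succ_le fun n ω hω => live_anti m δ b n s v ω hω
  have ht := tendsto_measure_iInter_atTop (μ := PP κ)
    (s := fun n => {ω : List ℕ → E | live m δ b n s v ω})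
    (fun n => (FF_le _ _ (live_measurable m δ b hb n s v)).nullMeasurableSet) hanti
    ⟨0, measure_ne_top _ _⟩
  rw [← e] at ht
  have ht2 := (ENNReal.tendsto_toReal (measure_ne_top (PP κ) _)).comp ht
  refine ge_of_tendsto' ht2 fun n => ?_
  have := real_live m δ b hb κ h1 h2 n s v
  simp only [Measure.real] at this
  simp only [Function.comp]
  rw [this]
  exact hε n

/-- almost surely some subtree hanging off the first line of descent survives -/
theorem exists_surv (s : S) (ε : ℝ) (h0 : 0 < ε) (hε : ∀ n, ε ≤ aa m δ n s) :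
    ∀ᵐ ω ∂(PP κ), ∃ k : ℕ, ∀ n, live m δ b n s (1 :: List.replicate k 0) ω := by
  set f : ℕ → List ℕ := fun k => 1 :: List.replicate k 0 with hf
  have hdisj : ∀ i j, i < j → Disjoint (Sub (f i)) (Sub (f j)) := by
    intro i j hij
    rw [Set.disjoint_left]
    intro u hi hj
    have h3 : f i <:+ f j := List.suffix_of_suffix_length_le hi hj (by simp [hf]; omega)
    have h4 : f i <:+ List.replicate j 0 := by
      rcases List.suffix_cons_iff.1 h3 with h | h
      · have := congrArg List.length h
        simp [hf] at this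
        omega
      · exact h
    have h5 : (1 : ℕ) ∈ List.replicate j 0 := h4.subset (by simp [hf])
    rw [List.mem_replicate] at h5
    omega
  have hlt : ∀ j : ℕ, (PP κ).real (⋂ i ∈ Finset.range j, (surv m δ b s (f i))ᶜ) ≤ (1 - ε) ^ j := by
    intro j
    induction j with
    | zero => simp
    | succ j ih =>
      have e : (⋂ i ∈ Finset.range (j + 1), (surv m δ b s (f i))ᶜ : Set (List ℕ → E))
          = (⋂ i ∈ Finset.range j, (surv m δ b s (f i))ᶜ) ∩ (surv m δ b s (f j))ᶜ := by
        rw [Finset.range_add_one, Finset.set_biInter_insert, inter_comm]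
      have hm : MeasurableSet[FF E (⋃ i ∈ Finset.range j, Sub (f i))]
          (⋂ i ∈ Finset.range j, (surv m δ b s (f i))ᶜ : Set (List ℕ → E)) := by
        refine @Finset.measurableSet_biInter _ _ (FF E _) _ _ fun i hi => ?_
        refine @MeasurableSet.compl _ _ (FF E _) ?_
        refine FF_mono ?_ _ (surv_measurable m δ b hb s (f i))
        exact Set.subset_biUnion_of_mem (u := fun i => Sub (f i)) hi
      have hm2 : MeasurableSet[FF E (Sub (f j))] ((surv m δ b s (f j))ᶜ : Set (List ℕ → E)) :=
        @MeasurableSet.compl _ _ (FF E _) (surv_measurable m δ b hb s (f j))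
      have hd : Disjoint (⋃ i ∈ Finset.range j, Sub (f i)) (Sub (f j)) := by
        simp only [Set.disjoint_iUnion_left]
        intro i hi
        exact hdisj i j (Finset.mem_range.1 hi)
      rw [e, real_inter κ hd hm hm2, pow_succ]
      have h3 : (PP κ).real ((surv m δ b s (f j))ᶜ) ≤ 1 - ε := by
        rw [probReal_compl_eq_one_sub (FF_le _ _ (surv_measurable m δ b hb s (f j)))]
        linarith [le_surv m δ b hb κ h1 h2 s (f j) ε hε]
      exact mul_le_mul ih h3 measureReal_nonneg (measureReal_nonneg.trans ih)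
  have hε1 : ε ≤ 1 := by
    have := le_surv m δ b hb κ h1 h2 s (f 0) ε hε
    exact this.trans measureReal_le_one
  have hz : (PP κ).real (⋂ i, (surv m δ b s (f i))ᶜ) = 0 := by
    apply le_antisymm _ measureReal_nonneg
    have ht : Tendsto (fun j : ℕ => (1 - ε) ^ j) atTop (𝓝 0) :=
      tendsto_pow_atTop_nhds_zero_of_lt_one (by linarith) (by linarith)
    refine ge_of_tendsto' ht fun j => ?_
    refine le_trans (measureReal_mono ?_) (hlt j)
    intro ω hω
    rw [mem_iInter] at hω
    exact mem_iInter₂.2 fun i _ => hω i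
  rw [ae_iff]
  have e : {ω : List ℕ → E | ¬ ∃ k : ℕ, ∀ n, live m δ b n s (1 :: List.replicate k 0) ω}
      = ⋂ i, (surv m δ b s (f i))ᶜ := by
    ext ω
    simp [surv, hf]
  rw [e]
  rw [measureReal_eq_zero_iff] at hz
  exact hz

end

end Pool.Agent.Q207.Brw
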