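import Pool.Agent.Q207.Brw

set_option autoImplicit false

open MeasureTheory ProbabilityTheory Set Filter
open scoped ENNReal Topology

namespace Pool.Agent.Q207.Brw

/-- never a wrong step -/
def δ₁ : Unit → Bool → Option Unit := fun _ β => if β then some () else none

/-- at most `C` wrong steps -/
def δ₂ : ℕ → Bool → Option ℕ
  | C, true => some C
  | 0, false => none
  | C + 1, false => some C

/-- at most one wrong step in every block of `L + 1` steps -/
def δ₃ (L : ℕ) : ℕ × Bool → Bool → Option (ℕ × Bool)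
  | (0, _), true => some (L, true)
  | (t + 1, c), true => some (t, c)
  | (0, true), false => some (L, true)
  | (t + 1, true), false => some (t, false)
  | (_, false), false => none

theorem hh_mono {m : ℕ} {x y : ℝ} (hxy : x ≤ y) (hy : y ≤ 1) : hh m x ≤ hh m y := by
  unfold hh
  have : (1 - y) ^ m ≤ (1 - x) ^ m := pow_le_pow_left₀ (by linarith) (by linarith) m
  linarith

theorem aa_one (n : ℕ) : 1 / 4 ≤ aa 3 δ₁ n () ∧ aa 3 δ₁ n () ≤ 1 := by
  induction n with
  | zero =>
    simp only [aa, δ₁]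
    norm_num
  | succ n ih =>
    simp only [aa, δ₁, if_true, Option.elim_some, Bool.false_eq_true, if_false, Option.elim_none,
      add_zero]
    have h1 : hh 3 (1 / 4) ≤ hh 3 (aa 3 δ₁ n ()) := hh_mono ih.1 ih.2
    have h2 : hh 3 (aa 3 δ₁ n ()) ≤ 1 := by
      unfold hh
      have : 0 ≤ (1 - aa 3 δ₁ n ()) ^ 3 := pow_nonneg (by linarith [ih.2]) 3
      linarith
    have h3 : hh 3 (1 / 4) = 37 / 64 := by norm_num [hh]
    constructor <;> linarith

theorem hh_two (x : ℝ) : hh 2 x = 2 * x - x ^ 2 := by unfold hh; ring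

theorem aa_two_succ (n C : ℕ) : aa 2 δ₂ (n + 1) (C + 1)
    = 1 / 2 * hh 2 (aa 2 δ₂ n (C + 1)) + 1 / 2 * hh 2 (aa 2 δ₂ n C) := rfl

theorem aa_two_zero (n : ℕ) : aa 2 δ₂ (n + 1) 0 = 1 / 2 * hh 2 (aa 2 δ₂ n 0) := by
  show 1 / 2 * hh 2 (aa 2 δ₂ n 0) + 0 = _
  ring

theorem aa_two_mem (n : ℕ) : ∀ C, 0 ≤ aa 2 δ₂ n C ∧ aa 2 δ₂ n C ≤ 1 := by
  have key : ∀ x : ℝ, 0 ≤ x → x ≤ 1 → 0 ≤ hh 2 x ∧ hh 2 x ≤ 1 := by
    intro x h0 h1
    rw [hh_two]
    constructor
    · nlinarith
    · nlinarith [sq_nonneg (1 - x)]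
  induction n with
  | zero =>
    intro C
    cases C with
    | zero => simp only [aa, δ₂]; norm_num
    | succ C => simp only [aa, δ₂]; norm_num
  | succ n ih =>
    intro C
    cases C with
    | zero =>
      rw [aa_two_zero]
      have := key _ (ih 0).1 (ih 0).2
      constructor <;> linarith
    | succ C =>
      rw [aa_two_succ]
      have h1 := key _ (ih C).1 (ih C).2
      have h2 := key _ (ih (C + 1)).1 (ih (C + 1)).2
      constructor <;> linarith

theorem aa_two_anti (n : ℕ) : ∀ C, aa 2 δ₂ (n + 1) C ≤ aa 2 δ₂ n C := by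
  induction n with
  | zero =>
    intro C
    cases C with
    | zero =>
      rw [aa_two_zero]
      simp only [aa, δ₂, hh_two]; norm_num
    | succ C =>
      rw [aa_two_succ]
      have h1 : aa 2 δ₂ 0 (C + 1) = 1 := by simp only [aa, δ₂]; norm_num
      have h2 := aa_two_mem 0 C
      rw [h1, hh_two, hh_two]
      nlinarith [sq_nonneg (1 - aa 2 δ₂ 0 C)]
  | succ n ih =>
    intro C
    cases C with
    | zero =>
      rw [aa_two_zero (n + 1)]
      conv_rhs => rw [aa_two_zero n]
      have := hh_mono (m := 2) (ih 0) (aa_two_mem n 0).2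
      linarith
    | succ C =>
      rw [aa_two_succ (n + 1)]
      conv_rhs => rw [aa_two_succ n]
      have h1 := hh_mono (m := 2) (ih C) (aa_two_mem n C).2
      have h2 := hh_mono (m := 2) (ih (C + 1)) (aa_two_mem n (C + 1)).2
      linarith

/-- a critical line dies out -/
theorem aa_two_tendsto (C : ℕ) : Tendsto (fun n => aa 2 δ₂ n C) atTop (𝓝 0) := by
  have hlim : ∀ C, ∃ l, Tendsto (fun n => aa 2 δ₂ n C) atTop (𝓝 l) := by
    intro C
    refine ⟨_, tendsto_atTop_ciInf (antitone_nat_of_succ_le fun n => aa_two_anti n C) ?_⟩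
    exact ⟨0, by rintro x ⟨n, rfl⟩; exact (aa_two_mem n C).1⟩
  induction C with
  | zero =>
    obtain ⟨l, hl⟩ := hlim 0
    have h1 : Tendsto (fun n => aa 2 δ₂ (n + 1) 0) atTop (𝓝 l) := (tendsto_add_atTop_iff_nat 1).2 hl
    have h2 : Tendsto (fun n => aa 2 δ₂ (n + 1) 0) atTop (𝓝 (1 / 2 * (2 * l - l ^ 2))) := by
      simp only [aa_two_zero, hh_two]
      exact (((hl.const_mul 2).sub (hl.pow 2)).const_mul (1 / 2))
    have h3 := tendsto_nhds_unique h1 h2
    have h4 : l ^ 2 = 0 := by linarith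
    rw [pow_eq_zero_iff (by norm_num)] at h4
    rw [h4] at hl
    exact hl
  | succ C ih =>
    obtain ⟨l, hl⟩ := hlim (C + 1)
    have h1 : Tendsto (fun n => aa 2 δ₂ (n + 1) (C + 1)) atTop (𝓝 l) :=
      (tendsto_add_atTop_iff_nat 1).2 hl
    have h2 : Tendsto (fun n => aa 2 δ₂ (n + 1) (C + 1)) atTop
        (𝓝 (1 / 2 * (2 * l - l ^ 2) + 1 / 2 * (2 * 0 - 0 ^ 2))) := by
      simp only [aa_two_succ, hh_two]
      exact (((hl.const_mul 2).sub (hl.pow 2)).const_mul (1 / 2)).add
        (((ih.const_mul 2).sub (ih.pow 2)).const_mul (1 / 2))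
    have h3 := tendsto_nhds_unique h1 h2
    have h4 : l ^ 2 = 0 := by linarith
    rw [pow_eq_zero_iff (by norm_num)] at h4
    rw [h4] at hl
    exact hl

/-- the lower bounds for the block automaton -/
noncomputable def low (L : ℕ) : ℕ × Bool → ℝ
  | (_, true) => 1 / (L + 1)
  | (t, false) => 1 / (L + 1) * (1 - (t + 1) / (2 * (L + 1)))

theorem aa_three (L : ℕ) (hL : 1 ≤ L) (n : ℕ) : ∀ t ≤ L, ∀ c, low L (t, c) ≤ aa 2 (δ₃ L) n (t, c) ∧
    aa 2 (δ₃ L) n (t, c) ≤ 1 := by
  have hL' : (1 : ℝ) ≤ L := by exact_mod_cast hL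
  set s : ℝ := 1 / (L + 1) with hs
  have hs0 : 0 < s := by positivity
  have hs2 : s ≤ 1 / 2 := by
    rw [hs]
    apply one_div_le_one_div_of_le (by norm_num)
    linarith
  have hsL : s * (L + 1) = 1 := by
    rw [hs]; field_simp
  have hlt : ∀ t, low L (t, true) = s := fun t => rfl
  have hlf : ∀ t : ℕ, low L (t, false) = s - (t + 1) * s ^ 2 / 2 := by
    intro t
    simp only [low]
    rw [hs]
    field_simp
  have hlb : ∀ t ≤ L, ∀ c, s / 2 ≤ low L (t, c) ∧ low L (t, c) ≤ s := by
    intro t ht c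
    cases c
    · rw [hlf]
      have ht' : (t : ℝ) ≤ L := by exact_mod_cast ht
      have h0 : (0 : ℝ) ≤ t := by positivity
      constructor
      · have : (t + 1 : ℝ) * s ^ 2 ≤ (L + 1) * s ^ 2 :=
          mul_le_mul_of_nonneg_right (by linarith) (by positivity)
        have h2 : (L + 1 : ℝ) * s ^ 2 = s := by
          have : (L + 1 : ℝ) * s ^ 2 = s * (L + 1) * s := by ring
          rw [this, hsL, one_mul]
        linarith
      · have : 0 ≤ (t + 1 : ℝ) * s ^ 2 := by positivity
        linarith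
    · rw [hlt]; constructor <;> linarith
  have key : ∀ x : ℝ, 0 ≤ x → x ≤ 1 → hh 2 x ≤ 1 := by
    intro x h0 h1
    rw [hh_two]
    nlinarith [sq_nonneg (1 - x)]
  induction n with
  | zero =>
    intro t ht c
    have h1 := hlb t ht c
    cases t with
    | zero =>
      cases c
      · have : aa 2 (δ₃ L) 0 (0, false) = 1 / 2 := by simp [aa, δ₃]
        rw [this]; constructor <;> linarith
      · have : aa 2 (δ₃ L) 0 (0, true) = 1 := by simp only [aa, δ₃, Option.elim_some]; norm_num
        rw [this]; constructor <;> linarith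
    | succ t =>
      cases c
      · have : aa 2 (δ₃ L) 0 (t + 1, false) = 1 / 2 := by simp [aa, δ₃]
        rw [this]; constructor <;> linarith
      · have : aa 2 (δ₃ L) 0 (t + 1, true) = 1 := by simp only [aa, δ₃, Option.elim_some]; norm_num
        rw [this]; constructor <;> linarith
  | succ n ih =>
    have hpos : ∀ t ≤ L, ∀ c, 0 ≤ aa 2 (δ₃ L) n (t, c) := by
      intro t ht c
      have := hlb t ht c
      linarith [(ih t ht c).1]
    intro t ht c
    cases t with
    | zero =>
      have i1 := ih L le_rfl true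
      rw [hlt] at i1
      have i2 : hh 2 s ≤ hh 2 (aa 2 (δ₃ L) n (L, true)) := hh_mono i1.1 i1.2
      have i3 := key _ (hpos L le_rfl true) i1.2
      rw [hh_two] at i2
      cases c
      · have : aa 2 (δ₃ L) (n + 1) (0, false) = 1 / 2 * hh 2 (aa 2 (δ₃ L) n (L, true)) := by
          show 1 / 2 * hh 2 (aa 2 (δ₃ L) n (L, true)) + 0 = _
          ring
        rw [this, hlf]
        push_cast
        constructor
        · nlinarith
        · linarith
      · have : aa 2 (δ₃ L) (n + 1) (0, true) = hh 2 (aa 2 (δ₃ L) n (L, true)) := by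
          show 1 / 2 * hh 2 (aa 2 (δ₃ L) n (L, true)) + 1 / 2 * hh 2 (aa 2 (δ₃ L) n (L, true)) = _
          ring
        rw [this, hlt]
        constructor
        · nlinarith
        · linarith
    | succ t =>
      have ht1 : t ≤ L := by omega
      have i1 := ih t ht1 true
      have i2 := ih t ht1 false
      rw [hlt] at i1
      have b2 := hlb t ht1 false
      have j1 : hh 2 s ≤ hh 2 (aa 2 (δ₃ L) n (t, true)) := hh_mono i1.1 i1.2
      have j2 : hh 2 (low L (t, false)) ≤ hh 2 (aa 2 (δ₃ L) n (t, false)) := hh_mono i2.1 i2.2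
      have k1 := key _ (hpos t ht1 true) i1.2
      have k2 := key _ (hpos t ht1 false) i2.2
      rw [hh_two] at j1 j2
      cases c
      · have : aa 2 (δ₃ L) (n + 1) (t + 1, false) = 1 / 2 * hh 2 (aa 2 (δ₃ L) n (t, false)) := by
          show 1 / 2 * hh 2 (aa 2 (δ₃ L) n (t, false)) + 0 = _
          ring
        rw [this]
        constructor
        · have h3 : low L (t + 1, false) = low L (t, false) - s ^ 2 / 2 := by
            rw [hlf, hlf]; push_cast; ring
          rw [h3]
          have h4 : low L (t, false) ^ 2 ≤ s ^ 2 := by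
            apply pow_le_pow_left₀ _ b2.2
            linarith
          linarith
        · linarith
      · have : aa 2 (δ₃ L) (n + 1) (t + 1, true)
            = 1 / 2 * hh 2 (aa 2 (δ₃ L) n (t, true)) + 1 / 2 * hh 2 (aa 2 (δ₃ L) n (t, false)) := rfl
        rw [this, hlt]
        constructor
        · set y := low L (t, false)
          nlinarith [mul_nonneg (sub_nonneg.2 b2.1) (sub_nonneg.2 b2.2)]
        · linarith

end Pool.Agent.Q207.Brw
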