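import Mathlib
import Pool.Agent.Helper475.Miranda

/-!
The translation flow on the space of `1`-Lipschitz functions `ℝ → [0,1]`: a factor which separates
the two constant functions `0` and `1` has infinite topological entropy.
-/

set_option autoImplicit false

open Filter Set Topology

namespace Pool.Agent.Q207.Cube

/-- The `1`-Lipschitz functions from `ℝ` to `[0,1]`. -/
def lipSet : Set (ℝ → ℝ) :=
  {f | (∀ s, 0 ≤ f s) ∧ (∀ s, f s ≤ 1) ∧ ∀ s t, |f s - f t| ≤ |s - t|}

/-- The space of the `1`-Lipschitz functions from `ℝ` to `[0,1]`, with the topology of pointwise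
convergence (which is here that of locally uniform convergence). -/
abbrev LipFun : Type := ↥lipSet

lemma isClosed_lipSet : IsClosed lipSet := by
  have h1 : IsClosed {f : ℝ → ℝ | ∀ s, 0 ≤ f s} := by
    have : {f : ℝ → ℝ | ∀ s, 0 ≤ f s} = ⋂ s, {f : ℝ → ℝ | 0 ≤ f s} := by ext f; simp
    rw [this]
    exact isClosed_iInter fun s => isClosed_le continuous_const (continuous_apply s)
  have h2 : IsClosed {f : ℝ → ℝ | ∀ s, f s ≤ 1} := by
    have : {f : ℝ → ℝ | ∀ s, f s ≤ 1} = ⋂ s, {f : ℝ → ℝ | f s ≤ 1} := by ext f; simp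
    rw [this]
    exact isClosed_iInter fun s => isClosed_le (continuous_apply s) continuous_const
  have h3 : IsClosed {f : ℝ → ℝ | ∀ s t, |f s - f t| ≤ |s - t|} := by
    have : {f : ℝ → ℝ | ∀ s t, |f s - f t| ≤ |s - t|} =
        ⋂ s, ⋂ t, {f : ℝ → ℝ | |f s - f t| ≤ |s - t|} := by ext f; simp
    rw [this]
    exact isClosed_iInter fun s => isClosed_iInter fun t =>
      isClosed_le ((continuous_apply s).sub (continuous_apply t)).abs continuous_const
  exact h1.inter (h2.inter h3)

instance : CompactSpace LipFun := by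
  refine isCompact_iff_compactSpace.1 ?_
  refine IsCompact.of_isClosed_subset (isCompact_univ_pi (fun _ : ℝ => isCompact_Icc (a := (0 : ℝ))
    (b := 1))) isClosed_lipSet ?_
  intro f hf s _
  exact ⟨hf.1 s, hf.2.1 s⟩

lemma lip_cont (f : LipFun) : Continuous f.1 := by
  have : LipschitzWith 1 f.1 := LipschitzWith.of_dist_le_mul fun s t => by
    simpa [Real.dist_eq] using f.2.2.2 s t
  exact this.continuous

/-- Restriction to the rationals. -/
def restr (f : LipFun) : ℚ → ℝ := fun q => f.1 (q : ℝ)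

lemma restr_emb : IsClosedEmbedding restr := by
  refine Continuous.isClosedEmbedding ?_ ?_
  · exact continuous_pi fun q => (continuous_apply (q : ℝ)).comp continuous_subtype_val
  · intro f g h
    refine Subtype.ext ?_
    refine Rat.denseRange_cast.equalizer (lip_cont f) (lip_cont g) ?_
    exact h

instance : TopologicalSpace.MetrizableSpace LipFun := restr_emb.isEmbedding.metrizableSpace

lemma eval_cont : Continuous fun p : ℝ × LipFun => p.2.1 p.1 := by
  refine continuous_prod_of_continuous_lipschitzWith (fun p : ℝ × LipFun => p.2.1 p.1) 1 ?_ ?_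
  · intro s
    exact (continuous_apply s).comp continuous_subtype_val
  · intro f
    exact LipschitzWith.of_dist_le_mul fun s t => by
      simpa [Real.dist_eq] using f.2.2.2 s t

/-- Translation of a function. -/
def tr (t : ℝ) (f : LipFun) : LipFun :=
  ⟨fun s => f.1 (s + t), fun s => f.2.1 _, fun s => f.2.2.1 _, fun s u => by
    have := f.2.2.2 (s + t) (u + t)
    simpa using this⟩

/-- The space of the flow: a `1`-Lipschitz function and a point of the circle. -/
abbrev X : Type := LipFun × UnitAddCircle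

/-- The flow: translation of the function, rotation of the circle. -/
noncomputable def flow : Flow ℝ X where
  toFun t x := (tr t x.1, x.2 + (t : UnitAddCircle))
  cont' := by
    refine Continuous.prodMk ?_ ?_
    · refine Continuous.subtype_mk (continuous_pi fun s => ?_) _
      have h : Continuous fun p : ℝ × X => ((s + p.1, p.2.1) : ℝ × LipFun) := by fun_prop
      exact eval_cont.comp h
    · have h : Continuous fun p : ℝ × X => ((p.1 : ℝ) : UnitAddCircle) :=
        (AddCircle.continuous_mk' (1 : ℝ)).comp continuous_fst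
      exact (continuous_snd.comp continuous_snd).add h
  map_add' t₁ t₂ x := by
    refine Prod.ext ?_ ?_
    · refine Subtype.ext (funext fun s => ?_)
      show x.1.1 (s + (t₁ + t₂)) = x.1.1 (s + t₁ + t₂)
      rw [add_assoc]
    · show x.2 + ((t₁ + t₂ : ℝ) : UnitAddCircle) = x.2 + (t₂ : UnitAddCircle) + (t₁ : UnitAddCircle)
      rw [AddCircle.coe_add]; abel
  map_zero' x := by
    refine Prod.ext ?_ ?_
    · refine Subtype.ext (funext fun s => ?_)
      show x.1.1 (s + 0) = x.1.1 s
      rw [add_zero]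
    · show x.2 + ((0 : ℝ) : UnitAddCircle) = x.2
      simp

lemma flow_apply (t : ℝ) (x : X) : flow t x = (tr t x.1, x.2 + (t : UnitAddCircle)) := rfl

lemma no_fixed (x : X) : ∃ t : ℝ, flow t x ≠ x := by
  refine ⟨1 / 2, fun h => ?_⟩
  have h1 : x.2 + ((1 / 2 : ℝ) : UnitAddCircle) = x.2 := congrArg Prod.snd h
  have h2 : ((1 / 2 : ℝ) : UnitAddCircle) = 0 := by simpa using h1
  rw [AddCircle.coe_eq_zero_iff] at h2
  obtain ⟨n, hn⟩ := h2
  have h3 : (n : ℝ) = 1 / 2 := by simpa using hn
  have h4 : (2 * n : ℝ) = 1 := by linarith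
  have h5 : 2 * n = 1 := by exact_mod_cast h4
  omega

/-- The constant functions. -/
def cst (c : ℝ) (h0 : 0 ≤ c) (h1 : c ≤ 1) : LipFun :=
  ⟨fun _ => c, fun _ => h0, fun _ => h1, fun s t => by simp⟩

/-- A truncation. -/
noncomputable def cl (x : ℝ) : ℝ := max 0 (min 1 x)

lemma cl_nonneg (x : ℝ) : 0 ≤ cl x := le_max_left _ _

lemma cl_le (x : ℝ) : cl x ≤ 1 := max_le zero_le_one (min_le_left _ _)

lemma cl_cont : Continuous cl := by unfold cl; fun_prop

lemma cl_lip (x y : ℝ) : cl x ≤ cl y + |x - y| := by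
  have h0 := abs_nonneg (x - y)
  have h1 := le_abs_self (x - y)
  have h2 : min 1 y ≤ cl y := le_max_right _ _
  refine max_le (add_nonneg (cl_nonneg _) h0) ?_
  rcases le_total 1 y with h | h
  · rw [min_eq_left h] at h2
    exact (min_le_left _ _).trans (by linarith)
  · rw [min_eq_right h] at h2
    exact (min_le_right _ _).trans (by linarith)

/-- A plateau of height one on `[-m, m]`, vanishing outside of `[-m-1, m+1]`. -/
noncomputable def tent (m : ℕ) (s : ℝ) : ℝ := cl (m + 1 - |s|)

lemma tent_one {m : ℕ} {s : ℝ} (h : |s| ≤ m) : tent m s = 1 := by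
  unfold tent cl
  rw [min_eq_left (by linarith), max_eq_right zero_le_one]

lemma tent_zero {m : ℕ} {s : ℝ} (h : m + 1 ≤ |s|) : tent m s = 0 := by
  unfold tent cl
  rw [max_eq_left]
  exact (min_le_right _ _).trans (by linarith)

lemma tent_lip (m : ℕ) (s t : ℝ) : tent m s ≤ tent m t + |s - t| := by
  unfold tent
  refine (cl_lip _ (m + 1 - |t|)).trans ?_
  have : |(m + 1 - |s| : ℝ) - (m + 1 - |t|)| ≤ |s - t| := by
    have h := abs_abs_sub_abs_le_abs_sub t s
    rw [abs_sub_comm t s] at h
    have e : (m + 1 - |s| : ℝ) - (m + 1 - |t|) = |t| - |s| := by ring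
    rw [e]; exact h
  linarith

/-- The function with plateaus of height `c j` around `j (2m+1)`. -/
noncomputable def bf (m n : ℕ) (c : Fin (n + 1) → ℝ) (s : ℝ) : ℝ :=
  Finset.univ.sup' Finset.univ_nonempty
    (fun j : Fin (n + 1) => cl (c j) * tent m (s - ((j : ℕ) * (2 * m + 1) : ℕ)))

lemma bf_mem (m n : ℕ) (c : Fin (n + 1) → ℝ) : bf m n c ∈ lipSet := by
  have hl : ∀ s t, bf m n c s ≤ bf m n c t + |s - t| := by
    intro s t
    unfold bf
    refine Finset.sup'_le _ _ fun j hj => ?_
    have h1 := Finset.le_sup' (s := Finset.univ)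
      (fun j : Fin (n + 1) => cl (c j) * tent m (t - ((j : ℕ) * (2 * m + 1) : ℕ))) hj
    have h2 := tent_lip m (s - ((j : ℕ) * (2 * m + 1) : ℕ)) (t - ((j : ℕ) * (2 * m + 1) : ℕ))
    have e : s - (((j : ℕ) * (2 * m + 1) : ℕ) : ℝ) - (t - (((j : ℕ) * (2 * m + 1) : ℕ) : ℝ)) =
      s - t := by ring
    rw [e] at h2
    have h3 := mul_le_mul_of_nonneg_left h2 (cl_nonneg (c j))
    have h4 : cl (c j) * |s - t| ≤ |s - t| := by
      nlinarith [cl_le (c j), abs_nonneg (s - t)]
    have h5 := mul_add (cl (c j)) (tent m (t - (((j : ℕ) * (2 * m + 1) : ℕ) : ℝ))) |s - t|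
    linarith
  refine ⟨fun s => ?_, fun s => ?_, fun s t => ?_⟩
  · unfold bf
    have h1 := Finset.le_sup' (s := Finset.univ)
      (fun j : Fin (n + 1) => cl (c j) * tent m (s - ((j : ℕ) * (2 * m + 1) : ℕ)))
      (Finset.mem_univ 0)
    refine le_trans ?_ h1
    exact mul_nonneg (cl_nonneg _) (cl_nonneg _)
  · unfold bf
    refine Finset.sup'_le _ _ fun j _ => ?_
    exact mul_le_one₀ (cl_le _) (cl_nonneg _) (cl_le _)
  · rw [abs_le]
    have h1 := hl s t
    have h2 := hl t s
    rw [abs_sub_comm t s] at h2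
    constructor <;> linarith

lemma bf_val (m n : ℕ) (c : Fin (n + 1) → ℝ) (j : Fin (n + 1)) {s : ℝ} (hs : |s| ≤ m) :
    bf m n c (s + ((j : ℕ) * (2 * m + 1) : ℕ)) = cl (c j) := by
  apply le_antisymm
  · unfold bf
    refine Finset.sup'_le _ _ fun i _ => ?_
    by_cases hij : i = j
    · subst hij
      rw [add_sub_cancel_right, tent_one hs, mul_one]
    · rw [tent_zero, mul_zero]
      · exact cl_nonneg _
      · have h1 : (1 : ℝ) ≤ |((j : ℕ) : ℝ) - ((i : ℕ) : ℝ)| := by
          have h2 : ((j : ℕ) : ℤ) - ((i : ℕ) : ℤ) ≠ 0 := by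
            intro h
            apply hij
            apply Fin.ext
            omega
          have h3 : (1 : ℤ) ≤ |((j : ℕ) : ℤ) - ((i : ℕ) : ℤ)| := Int.one_le_abs h2
          exact_mod_cast h3
        have e : s + (((j : ℕ) * (2 * m + 1) : ℕ) : ℝ) - (((i : ℕ) * (2 * m + 1) : ℕ) : ℝ) =
            s + (((j : ℕ) : ℝ) - ((i : ℕ) : ℝ)) * (2 * m + 1) := by push_cast; ring
        rw [e]
        have h4 : |(((j : ℕ) : ℝ) - ((i : ℕ) : ℝ)) * (2 * m + 1)| =
            |((j : ℕ) : ℝ) - ((i : ℕ) : ℝ)| * (2 * m + 1) := by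
          rw [abs_mul, abs_of_nonneg (by positivity : (0 : ℝ) ≤ 2 * m + 1)]
        have h5 : (2 * m + 1 : ℝ) ≤ |((j : ℕ) : ℝ) - ((i : ℕ) : ℝ)| * (2 * m + 1) := by
          have : (0 : ℝ) ≤ 2 * m + 1 := by positivity
          nlinarith
        have h6 := abs_sub_abs_le_abs_sub ((((j : ℕ) : ℝ) - ((i : ℕ) : ℝ)) * (2 * m + 1)) (-s)
        rw [sub_neg_eq_add, abs_neg, add_comm _ s, h4] at h6
        linarith
  · unfold bf
    have h1 := Finset.le_sup' (s := Finset.univ)
      (fun i : Fin (n + 1) => cl (c i) * tent m (s + ((j : ℕ) * (2 * m + 1) : ℕ) -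
        ((i : ℕ) * (2 * m + 1) : ℕ))) (Finset.mem_univ j)
    rwa [add_sub_cancel_right, tent_one hs, mul_one] at h1

lemma bf_cont (m n : ℕ) : Continuous fun c : Fin (n + 1) → ℝ => (⟨bf m n c, bf_mem m n c⟩ : LipFun) := by
  refine Continuous.subtype_mk (continuous_pi fun s => ?_) _
  unfold bf
  refine Continuous.finset_sup'_apply _ fun j _ => ?_
  exact (cl_cont.comp (continuous_apply j)).mul continuous_const

section Factor

variable {Y : Type*} [MetricSpace Y] [CompactSpace Y] {ψ : Flow ℝ Y} {π : X → Y}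

/-- The points of `X` with angle zero given by constant functions. -/
def w0 : X := (cst 0 le_rfl zero_le_one, 0)

/-- The points of `X` with angle zero given by constant functions. -/
def w1 : X := (cst 1 zero_le_one le_rfl, 0)

lemma w_ne : w0 ≠ w1 := by
  intro h
  have h1 : (fun _ : ℝ => (0 : ℝ)) = fun _ : ℝ => (1 : ℝ) :=
    congrArg Subtype.val (congrArg Prod.fst h)
  exact zero_ne_one (congrFun h1 0)

omit [CompactSpace Y] in
lemma iter_eq (ψ : Flow ℝ Y) (k : ℕ) (y : Y) : (ψ 1)^[k] y = ψ (k : ℝ) y := by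
  induction k with
  | zero => simp
  | succ k ih =>
    rw [Function.iterate_succ_apply', ih, ← Flow.map_add]
    congr 1
    push_cast
    ring

/-- Functions which agree with a constant on a long interval have almost the same value. -/
lemma window {F : LipFun → ℝ} (hF : Continuous F) (g : LipFun) {ε : ℝ} (hε : 0 < ε) :
    ∃ m : ℕ, ∀ f : LipFun, (∀ s : ℝ, |s| ≤ m → f.1 s = g.1 s) → |F f - F g| < ε := by
  by_contra hcon
  push Not at hcon
  choose f hf hf2 using hcon
  have h1 : Tendsto f atTop (𝓝 g) := by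
    rw [tendsto_subtype_rng, tendsto_pi_nhds]
    intro s
    refine tendsto_const_nhds.congr' ?_
    obtain ⟨N, hN⟩ := exists_nat_ge |s|
    filter_upwards [eventually_ge_atTop N] with m hm
    exact (hf m s (hN.trans (by exact_mod_cast hm))).symm
  have h2 := (hF.tendsto g).comp h1
  have h3 := Metric.tendsto_atTop.1 h2 ε hε
  obtain ⟨N, hN⟩ := h3
  have := hN N le_rfl
  rw [Real.dist_eq] at this
  exact absurd this (not_lt.2 (hf2 N))

theorem main (hπ : Flow.IsSemiconjugacy π flow ψ) (hne : π w0 ≠ π w1) :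
    Dynamics.coverEntropy (ψ 1) Set.univ = ⊤ := by
  classical
  -- the separating function
  set F : Y → ℝ := fun y => dist y (π w0) / dist (π w1) (π w0) with hF
  have hd : 0 < dist (π w1) (π w0) := dist_pos.2 (Ne.symm hne)
  have hFc : Continuous F := by
    simp only [hF]
    exact (continuous_id.dist continuous_const).div_const _
  have hF0 : F (π w0) = 0 := by simp [hF]
  have hF1 : F (π w1) = 1 := by simp only [hF]; exact div_self hd.ne'
  set G : LipFun → ℝ := fun f => F (π (f, 0)) with hG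
  have hGc : Continuous G := hFc.comp (hπ.cont.comp (Continuous.prodMk continuous_id continuous_const))
  obtain ⟨m0, hm0⟩ := window hGc (cst 0 le_rfl zero_le_one) (ε := 1 / 4) (by norm_num)
  obtain ⟨m1, hm1⟩ := window hGc (cst 1 zero_le_one le_rfl) (ε := 1 / 4) (by norm_num)
  set m := max m0 m1 with hm
  set N := 2 * m + 1 with hN
  have hg0 : ∀ f : LipFun, (∀ s : ℝ, |s| ≤ m → f.1 s = 0) → G f ≤ 1 / 4 := by
    intro f hf
    have h1 := hm0 f (fun s hs => hf s (hs.trans (by exact_mod_cast le_max_left _ _)))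
    have h2 : G (cst 0 le_rfl zero_le_one) = 0 := hF0
    rw [h2, sub_zero] at h1
    exact (lt_of_le_of_lt (le_abs_self _) h1).le
  have hg1 : ∀ f : LipFun, (∀ s : ℝ, |s| ≤ m → f.1 s = 1) → 3 / 4 ≤ G f := by
    intro f hf
    have h1 := hm1 f (fun s hs => hf s (hs.trans (by exact_mod_cast le_max_right _ _)))
    have h2 : G (cst 1 zero_le_one le_rfl) = 1 := hF1
    rw [h2] at h1
    have := (abs_lt.1 h1).1
    linarith
  -- all the prescribed values are taken
  have hmir : ∀ (n : ℕ) (v : Fin (n + 1) → ℝ), (∀ j, 1 / 4 ≤ v j ∧ v j ≤ 3 / 4) →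
      ∃ y : Y, ∀ j : Fin (n + 1), F ((ψ 1)^[(j : ℕ) * N] y) = v j := by
    intro n v hv
    obtain ⟨c, hc1, hc2⟩ := Pool.Agent.Helper475.Miranda.poincare_miranda (n + 1)
      (fun c j => G (tr (((j : ℕ) * N : ℕ) : ℝ) ⟨bf m n c, bf_mem m n c⟩) - v j)
      (by
        refine Continuous.continuousOn (continuous_pi fun j => ?_)
        have h1 : Continuous fun c : Fin (n + 1) → ℝ =>
            flow (((j : ℕ) * N : ℕ) : ℝ) ((⟨bf m n c, bf_mem m n c⟩ : LipFun), (0 : UnitAddCircle)) :=
          (flow.continuous_toFun _).comp (Continuous.prodMk (bf_cont m n) continuous_const)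
        exact (hGc.comp (continuous_fst.comp h1)).sub continuous_const)
      (by
        intro c hc j hj
        have h1 : G (tr (((j : ℕ) * N : ℕ) : ℝ) ⟨bf m n c, bf_mem m n c⟩) ≤ 1 / 4 := by
          refine hg0 _ fun s hs => ?_
          show bf m n c (s + (((j : ℕ) * N : ℕ) : ℝ)) = 0
          rw [hN, bf_val m n c j hs, hj]
          simp [cl]
        have := (hv j).1
        linarith)
      (by
        intro c hc j hj
        have h1 : 3 / 4 ≤ G (tr (((j : ℕ) * N : ℕ) : ℝ) ⟨bf m n c, bf_mem m n c⟩) := by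
          refine hg1 _ fun s hs => ?_
          show bf m n c (s + (((j : ℕ) * N : ℕ) : ℝ)) = 1
          rw [hN, bf_val m n c j hs, hj]
          simp [cl]
        have := (hv j).2
        linarith)
    refine ⟨π (⟨bf m n c, bf_mem m n c⟩, 0), fun j => ?_⟩
    have h1 := congrFun hc2 j
    simp only [Pi.zero_apply] at h1
    rw [iter_eq, ← hπ.semiconj, flow_apply]
    have h2 : ((((j : ℕ) * N : ℕ) : ℝ) : UnitAddCircle) = 0 := by
      rw [AddCircle.coe_eq_zero_iff]
      exact ⟨(((j : ℕ) * N : ℕ) : ℤ), by simp⟩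
    simp only [h2, zero_add]
    have h3 : G (tr (((j : ℕ) * N : ℕ) : ℝ) ⟨bf m n c, bf_mem m n c⟩) = v j := by linarith
    exact h3
  -- lower bound for the entropy
  have key : ∀ K : ℕ, 1 ≤ K → ((Real.log K / N : ℝ) : EReal) ≤
      Dynamics.coverEntropy (ψ 1) Set.univ := by
    intro K hK
    have hKr : (0 : ℝ) < K := by exact_mod_cast hK
    set U : SetRel Y Y := {p | |F p.1 - F p.2| < 1 / (4 * K)} with hU
    have hUu : U ∈ uniformity Y := by
      have h1 := CompactSpace.uniformContinuous_of_continuous hFc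
      have h2 := h1 (Metric.dist_mem_uniformity (show (0 : ℝ) < 1 / (4 * K) by positivity))
      refine Filter.mem_of_superset h2 ?_
      intro p hp
      exact hp
    refine le_trans ?_ (Dynamics.netEntropyEntourage_le_coverEntropy (T := ψ 1) (F := Set.univ) hUu)
    refine Frequently.le_expGrowthSup ?_
    rw [Filter.frequently_atTop]
    intro n
    refine ⟨(n + 1) * N, by rw [hN]; nlinarith, ?_⟩
    choose y hy using fun u : Fin (n + 1) → Fin K => hmir n
      (fun j => 1 / 4 + ((u j : ℕ) : ℝ) / (2 * K)) (fun j => by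
        have h1 : ((u j : ℕ) : ℝ) < K := by exact_mod_cast (u j).2
        have h2 : ((u j : ℕ) : ℝ) / (2 * K) ≤ 1 / 2 := by
          rw [div_le_div_iff₀ (by positivity) (by norm_num)]
          linarith
        have h3 : 0 ≤ ((u j : ℕ) : ℝ) / (2 * K) := by positivity
        constructor <;> linarith)
    have hsep : ∀ u u' : Fin (n + 1) → Fin K, u ≠ u' → ∀ z : Y,
        (y u, z) ∈ Dynamics.dynEntourage (ψ 1) U ((n + 1) * N) →
        (y u', z) ∈ Dynamics.dynEntourage (ψ 1) U ((n + 1) * N) → False := by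
      intro u u' huu z h1 h2
      obtain ⟨j, hj⟩ := Function.ne_iff.1 huu
      rw [Dynamics.mem_dynEntourage] at h1 h2
      have hlt : (j : ℕ) * N < (n + 1) * N :=
        Nat.mul_lt_mul_of_pos_right j.2 (by omega)
      have e1 : |F ((ψ 1)^[(j : ℕ) * N] (y u)) - F ((ψ 1)^[(j : ℕ) * N] z)| < 1 / (4 * K) :=
        h1 _ hlt
      have e2 : |F ((ψ 1)^[(j : ℕ) * N] (y u')) - F ((ψ 1)^[(j : ℕ) * N] z)| < 1 / (4 * K) :=
        h2 _ hlt
      rw [hy u j] at e1
      rw [hy u' j] at e2
      have h3 : (1 : ℝ) ≤ |((u j : ℕ) : ℝ) - ((u' j : ℕ) : ℝ)| := by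
        have h4 : ((u j : ℕ) : ℤ) - ((u' j : ℕ) : ℤ) ≠ 0 := by
          intro h
          apply hj
          apply Fin.ext
          omega
        have h5 : (1 : ℤ) ≤ |((u j : ℕ) : ℤ) - ((u' j : ℕ) : ℤ)| := Int.one_le_abs h4
        exact_mod_cast h5
      have h6 : |(1 / 4 + ((u j : ℕ) : ℝ) / (2 * K)) - (1 / 4 + ((u' j : ℕ) : ℝ) / (2 * K))| <
          1 / (2 * K) := by
        have h7 := abs_sub_le (1 / 4 + ((u j : ℕ) : ℝ) / (2 * K)) (F ((ψ 1)^[(j : ℕ) * N] z))
          (1 / 4 + ((u' j : ℕ) : ℝ) / (2 * K))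
        rw [abs_sub_comm (F ((ψ 1)^[(j : ℕ) * N] z))] at h7
        have h8 : (1 : ℝ) / (4 * K) + 1 / (4 * K) = 1 / (2 * K) := by field_simp; norm_num
        linarith
      have h9 : (1 / 4 + ((u j : ℕ) : ℝ) / (2 * K)) - (1 / 4 + ((u' j : ℕ) : ℝ) / (2 * K)) =
          (((u j : ℕ) : ℝ) - ((u' j : ℕ) : ℝ)) / (2 * K) := by ring
      rw [h9, abs_div, abs_of_pos (by positivity : (0 : ℝ) < 2 * K),
        div_lt_div_iff_of_pos_right (by positivity)] at h6
      linarith
    have hself : ∀ a : Y, (a, a) ∈ Dynamics.dynEntourage (ψ 1) U ((n + 1) * N) := by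
      intro a
      rw [Dynamics.mem_dynEntourage]
      intro k _
      show |F _ - F _| < 1 / (4 * (K : ℝ))
      rw [sub_self, abs_zero]
      positivity
    have hinj : Function.Injective y := by
      intro u u' h
      by_contra hne'
      exact hsep u u' hne' (y u) (hself _) (by rw [← h]; exact hself _)
    have hnet : Dynamics.IsDynNetIn (ψ 1) Set.univ U ((n + 1) * N)
        ((Finset.univ.image y : Finset Y) : Set Y) := by
      refine ⟨Set.subset_univ _, ?_⟩
      intro a ha b hb hab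
      rw [Finset.mem_coe, Finset.mem_image] at ha hb
      obtain ⟨u, _, rfl⟩ := ha
      obtain ⟨u', _, rfl⟩ := hb
      rw [Function.onFun, Set.disjoint_left]
      intro z h1 h2
      exact hsep u u' (fun h => hab (by rw [h])) z h1 h2
    have hcard := hnet.card_le_netMaxcard
    rw [Finset.card_image_of_injective _ hinj, Finset.card_univ, Fintype.card_fun, Fintype.card_fin,
      Fintype.card_fin] at hcard
    have hexp : EReal.exp (((Real.log K / N : ℝ) : EReal) * (((n + 1) * N : ℕ) : EReal)) =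
        ((K ^ (n + 1) : ℕ) : ENNReal) := by
      have h1 : ((Real.log K / N : ℝ) : EReal) * (((n + 1) * N : ℕ) : EReal) =
          ((((n + 1 : ℕ) : ℝ) * Real.log K : ℝ) : EReal) := by
        rw [show (((n + 1) * N : ℕ) : EReal) = ((((n + 1) * N : ℕ) : ℝ) : EReal) from rfl,
          ← EReal.coe_mul]
        congr 1
        have : (N : ℝ) ≠ 0 := by
          have : 0 < N := by omega
          positivity
        push_cast
        field_simp
      rw [h1, EReal.exp_coe, Real.exp_nat_mul, Real.exp_log hKr]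
      rw [← Nat.cast_pow, ENNReal.ofReal_natCast]
    rw [hexp]
    have h5 : (((K ^ (n + 1) : ℕ) : ℕ∞) : ENNReal) ≤
        ((Dynamics.netMaxcard (ψ 1) Set.univ U ((n + 1) * N) : ℕ∞) : ENNReal) := by
      exact_mod_cast hcard
    exact_mod_cast h5
  rw [EReal.eq_top_iff_forall_lt]
  intro b
  obtain ⟨K, hK⟩ := exists_nat_gt (Real.exp ((b + 1) * N))
  have hK1 : 1 ≤ K := by
    have : (0 : ℝ) < K := lt_trans (Real.exp_pos _) hK
    exact_mod_cast this
  refine lt_of_lt_of_le ?_ (key K hK1)
  rw [EReal.coe_lt_coe_iff]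
  have hNr : (0 : ℝ) < N := by
    have : 0 < N := by omega
    exact_mod_cast this
  rw [lt_div_iff₀ hNr]
  have h1 : (b + 1) * N < Real.log K := by
    rw [Real.lt_log_iff_exp_lt (by exact_mod_cast hK1)]
    exact hK
  nlinarith

end Factor

end Pool.Agent.Q207.Cube
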