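import Mathlib

set_option autoImplicit false

namespace Pool.Agent.Q207.Feyn

/-- the integer amplitudes of checker paths whose last step is a left step -/
def b : ℕ → ℤ → ℤ
  | 0, _ => 0
  | 1, y => if y = 0 then 1 else 0
  | (n + 2), y => b (n + 1) (y - 1) + b (n + 1) (y + 1) - 2 * b n y

theorem b_zero (y : ℤ) : b 0 y = 0 := by rw [b]
theorem b_one (y : ℤ) : b 1 y = if y = 0 then 1 else 0 := by rw [b]
theorem b_rec (n : ℕ) (y : ℤ) : b (n + 2) y = b (n + 1) (y - 1) + b (n + 1) (y + 1) - 2 * b n y := by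
  rw [b]

/-- first order relation (II) -/
theorem relII (n : ℕ) : ∀ y : ℤ,
    4 * y * b n y = (n + 1 + y) * b (n + 1) (y + 1) - (n + 1 - y) * b (n + 1) (y - 1) := by
  induction n using Nat.twoStepInduction with
  | zero =>
    intro y
    rw [b_zero, b_one, b_one]
    rcases eq_or_ne y (-1) with rfl | h1
    · simp
    rcases eq_or_ne y 1 with rfl | h2
    · simp
    rw [if_neg (by omega), if_neg (by omega)]
    ring
  | one =>
    intro y
    rw [b_rec, b_rec, b_one, b_one, b_one, b_one, b_one, b_zero, b_zero]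
    rcases eq_or_ne y 0 with rfl | h0
    · simp
    rcases eq_or_ne y (-2) with rfl | h1
    · simp
    rcases eq_or_ne y 2 with rfl | h2
    · simp
    rw [if_neg h0, if_neg (by omega), if_neg (by omega), if_neg (by omega), if_neg (by omega)]
    ring
  | more n ih0 ih1 =>
    intro y
    have e1 := b_rec (n + 1) (y + 1)
    have e2 := b_rec (n + 1) (y - 1)
    have e3 := b_rec n y
    have h1 := ih1 (y + 1)
    have h2 := ih1 (y - 1)
    have h0 := ih0 y
    rw [show y + 1 - 1 = y by ring, show y + 1 + 1 = y + 2 by ring] at e1 h1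
    rw [show y - 1 + 1 = y by ring, show y - 1 - 1 = y - 2 by ring] at e2 h2
    push_cast at *
    rw [show n + 2 + 1 = n + 1 + 2 from rfl, e1, e2]
    rw [show n + 1 + 1 = n + 2 from rfl] at *
    linear_combination h1 + h2 + (-2) * h0 + (4 * y) * e3

/-- first order relation (I) -/
theorem relI (n : ℕ) (y : ℤ) :
    2 * y * b (n + 1) y = (n + y) * b n (y - 1) - (n - y) * b n (y + 1) := by
  rcases n with _ | n
  · rw [b_one, b_zero, b_zero]
    rcases eq_or_ne y 0 with rfl | h0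
    · simp
    · rw [if_neg h0]; ring
  · have h0 := relII n y
    have e3 := b_rec n y
    rw [show n + 1 + 1 = n + 2 from rfl]
    push_cast
    linear_combination (2 * y) * e3 - h0

/-- three term relation at fixed time -/
theorem three (n : ℕ) (y : ℤ) :
    (n + 1 - y) * (y + 1) * (n + y - 1) * b n (y - 2)
      + (n + 1 + y) * (y - 1) * (n - 1 - y) * b n (y + 2)
      = -(8 * y * (y ^ 2 - 1) - (n + 1 + y) ^ 2 * (y - 1) - (n + 1 - y) ^ 2 * (y + 1)) * b n y := by
  have h := relII n y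
  have h1 := relI n (y + 1)
  have h2 := relI n (y - 1)
  rw [show y + 1 - 1 = y by ring, show y + 1 + 1 = y + 2 by ring] at h1
  rw [show y - 1 + 1 = y by ring, show y - 1 - 1 = y - 2 by ring] at h2
  linear_combination (2 * (y + 1) * (y - 1)) * h + (n + 1 + y) * (y - 1) * h1
    - (n + 1 - y) * (y + 1) * h2

/-- the sign adjusted amplitude -/
def B (n j : ℕ) : ℝ := (-1) ^ j * (b n ((n : ℤ) - 1 - 2 * j) : ℝ)

theorem B_rec (n j : ℕ) :
    ((j : ℝ) + 1) * ((n : ℝ) - (j + 1)) * (((n : ℝ) - 1 - 2 * j) + 1) * (B n (j + 1) - B n j)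
      = ((n : ℝ) - 1 - 2 * j) * (2 * (((n : ℝ) - 1 - 2 * j) ^ 2 - 1) - (n : ℝ) ^ 2) * B n j
        + ((n : ℝ) - j) * j * (((n : ℝ) - 1 - 2 * j) - 1) * (B n j - B n (j - 1)) := by
  have h := three n ((n : ℤ) - 1 - 2 * j)
  have h' := congrArg (fun z : ℤ => (z : ℝ)) h
  simp only [Int.cast_add, Int.cast_mul, Int.cast_sub, Int.cast_neg, Int.cast_pow, Int.cast_one,
    Int.cast_natCast, Int.cast_ofNat] at h'
  have e1 : B n (j + 1) = - ((-1) ^ j * (b n ((n : ℤ) - 1 - 2 * j - 2) : ℝ)) := by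
    unfold B
    rw [show (n : ℤ) - 1 - 2 * ((j + 1 : ℕ) : ℤ) = (n : ℤ) - 1 - 2 * j - 2 by push_cast; ring]
    ring
  have e2 : (j : ℝ) * B n (j - 1) = (j : ℝ) * - ((-1) ^ j * (b n ((n : ℤ) - 1 - 2 * j + 2) : ℝ)) := by
    rcases j with _ | j
    · simp
    · congr 1
      unfold B
      rw [show j + 1 - 1 = j from rfl,
        show (n : ℤ) - 1 - 2 * ((j + 1 : ℕ) : ℤ) + 2 = (n : ℤ) - 1 - 2 * j by push_cast; ring]
      ring
  have e3 : B n j = (-1) ^ j * (b n ((n : ℤ) - 1 - 2 * j) : ℝ) := rfl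
  set X := (b n ((n : ℤ) - 1 - 2 * j - 2) : ℝ)
  set Y := (b n ((n : ℤ) - 1 - 2 * j + 2) : ℝ)
  set Z := (b n ((n : ℤ) - 1 - 2 * j) : ℝ)
  rw [e1, e3]
  linear_combination (-(-1) ^ j / 4 : ℝ) * h' + (((n : ℝ) - j) * (((n : ℝ) - 1 - 2 * j) - 1)) * e2
end Pool.Agent.Q207.Feyn
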