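import Pool.Agent.Q207.FeynA

set_option autoImplicit false

namespace Pool.Agent.Q207.Feyn

theorem core_step (a g h θ κ e Bm B0 B1 : ℝ) (ha : 0 < a)
    (hrec : a * (B1 - B0) = h * B0 + g * (B0 - Bm)) (hBm : 0 < Bm) (he : 0 ≤ e)
    (hD : e * Bm ≤ B0 - Bm) (hh : θ * a ≤ h) (hg : (1 - κ) * a ≤ g) (hκ0 : 0 ≤ κ) (hκ1 : κ ≤ 1) :
    0 < B0 ∧ (θ + e - e ^ 2 - κ * e) * B0 ≤ B1 - B0 := by
  have hB0 : 0 < B0 := by nlinarith [mul_nonneg he hBm.le]
  have h1 : 0 ≤ B0 - Bm := le_trans (mul_nonneg he hBm.le) hD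
  have h2 : e * (1 - e) * B0 ≤ B0 - Bm := by
    have h3 : e * B0 ≤ (B0 - Bm) * (1 + e) := by nlinarith
    have h4 : e * (1 - e) * B0 * (1 + e) ≤ (B0 - Bm) * (1 + e) := by
      have : e * (1 - e) * B0 * (1 + e) = e * B0 - e ^ 2 * (e * B0) := by ring
      rw [this]
      have : 0 ≤ e ^ 2 * (e * B0) := by positivity
      linarith
    exact le_of_mul_le_mul_right h4 (by linarith)
  refine ⟨hB0, ?_⟩
  have h5 : (1 - κ) * a * (e * (1 - e) * B0) ≤ g * (B0 - Bm) :=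
    le_trans (mul_le_mul_of_nonneg_left h2 (mul_nonneg (by linarith) ha.le))
      (mul_le_mul_of_nonneg_right hg h1)
  have h6 : θ * a * B0 ≤ h * B0 := mul_le_mul_of_nonneg_right hh hB0.le
  have h7 : a * ((θ + e - e ^ 2 - κ * e) * B0) ≤ a * (B1 - B0) := by
    rw [hrec]
    have : 0 ≤ κ * e ^ 2 * a * B0 := by positivity
    nlinarith
  exact le_of_mul_le_mul_left h7 ha

/-- the coefficients -/
theorem rec_real (n j : ℕ) (y : ℝ) (hy : y = (n : ℝ) - 1 - 2 * j) :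
    (((j : ℝ) + 1) * ((n : ℝ) - (j + 1)) * (y + 1)) * (B n (j + 1) - B n j)
      = (y * (2 * (y ^ 2 - 1) - (n : ℝ) ^ 2)) * B n j
        + (((n : ℝ) - j) * j * (y - 1)) * (B n j - B n (j - 1)) := by
  subst hy
  exact B_rec n j

theorem B_zero (n : ℕ) (hn : 1 ≤ n) : B n 0 = 1 := by
  have : ∀ m : ℕ, b (m + 1) (m : ℤ) = 1 ∧ b (m + 2) ((m : ℤ) + 1) = 1 ∧
      (∀ k : ℤ, (m : ℤ) < k → b (m + 1) k = 0) ∧ (∀ k : ℤ, (m : ℤ) + 1 < k → b (m + 2) k = 0) := by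
    intro m
    induction m with
    | zero =>
      refine ⟨by simp [b_one], ?_, ?_, ?_⟩
      · rw [b_rec, b_one, b_one, b_zero]; simp
      · intro k hk; rw [b_one, if_neg (by push_cast at hk; omega)]
      · intro k hk
        rw [b_rec, b_one, b_one, b_zero, if_neg (by push_cast at hk; omega),
          if_neg (by push_cast at hk; omega)]
        simp
    | succ m ih =>
      obtain ⟨h1, h2, h3, h4⟩ := ih
      refine ⟨by push_cast; exact h2, ?_, fun k hk => h4 k (by push_cast at hk; omega), ?_⟩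
      · rw [show m + 1 + 2 = (m + 1) + 2 from rfl, b_rec]
        push_cast
        rw [show (m : ℤ) + 1 + 1 - 1 = m + 1 by ring, show m + 1 + 1 = m + 2 from rfl, h2,
          h4 _ (by omega), h3 _ (by omega)]
        ring
      · intro k hk
        push_cast at hk
        rw [show m + 1 + 2 = (m + 1) + 2 from rfl, b_rec, show m + 1 + 1 = m + 2 from rfl,
          h4 _ (by omega), h4 _ (by omega), h3 _ (by omega)]
        ring
  obtain ⟨m, rfl⟩ : ∃ m, n = m + 1 := ⟨n - 1, by omega⟩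
  unfold B
  have h := (this m).1
  rw [show ((m + 1 : ℕ) : ℤ) - 1 - 2 * ((0 : ℕ) : ℤ) = m by push_cast; ring, h]
  simp

/-- the forbidden region -/
theorem phase0 (n : ℕ) (hn : 1 ≤ n) (w : ℝ) (hw0 : 1 ≤ w) (hw : 2 * w ^ 2 = (n : ℝ) ^ 2) (j : ℕ)
    (hj : w + 1 ≤ (n : ℝ) - 1 - 2 * j) : 1 ≤ B n j ∧ B n j ≤ B n (j + 1) := by
  induction j with
  | zero =>
    have h0 := B_zero n hn
    refine ⟨h0.ge, ?_⟩
    have h := rec_real n 0 _ rfl
    simp only [Nat.cast_zero, mul_zero, sub_zero, zero_mul, add_zero, zero_add] at h hj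
    have h1 : (0 : ℝ) < 1 * ((n : ℝ) - 1) * ((n : ℝ) - 1 + 1) := by nlinarith
    have h2 : 0 ≤ ((n : ℝ) - 1) * (2 * (((n : ℝ) - 1) ^ 2 - 1) - (n : ℝ) ^ 2) * B n 0 := by
      rw [h0]
      have : 0 ≤ 2 * (((n : ℝ) - 1) ^ 2 - 1) - (n : ℝ) ^ 2 := by nlinarith
      have : 0 ≤ (n : ℝ) - 1 := by linarith
      positivity
    rw [← h] at h2
    have := nonneg_of_mul_nonneg_right h2 h1
    simpa using this
  | succ j ih =>
    push_cast at hj
    obtain ⟨i1, i2⟩ := ih (by linarith)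
    refine ⟨le_trans i1 i2, ?_⟩
    have h := rec_real n (j + 1) _ rfl
    push_cast at h
    set y : ℝ := (n : ℝ) - 1 - 2 * (j + 1) with hy
    have hj0 : (0 : ℝ) ≤ j := Nat.cast_nonneg j
    have e1 : (0 : ℝ) < (n : ℝ) - (j + 1 + 1) := by linarith
    have h1 : (0 : ℝ) < ((j : ℝ) + 1 + 1) * ((n : ℝ) - (j + 1 + 1)) * (y + 1) := by
      have : 0 < y + 1 := by linarith
      positivity
    have h2 : 0 ≤ y * (2 * (y ^ 2 - 1) - (n : ℝ) ^ 2) * B n (j + 1)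
        + ((n : ℝ) - (j + 1)) * (j + 1) * (y - 1) * (B n (j + 1) - B n j) := by
      have : 0 ≤ 2 * (y ^ 2 - 1) - (n : ℝ) ^ 2 := by nlinarith
      have : 0 ≤ y := by linarith
      have : 0 ≤ y - 1 := by linarith
      have : 0 ≤ B n (j + 1) := by linarith
      have : 0 ≤ B n (j + 1) - B n j := by linarith
      have : 0 ≤ (n : ℝ) - (j + 1) := by linarith
      positivity
    rw [← h] at h2
    have := nonneg_of_mul_nonneg_right h2 h1
    linarith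

/-- bounds of the coefficients in the window -/
theorem window (n j H : ℝ) (y w : ℝ) (hH : 8 ≤ H) (hn : 300 * H ^ 4 ≤ n) (hw0 : 0 < w)
    (hw : 2 * w ^ 2 = n ^ 2) (hy : y = n - 1 - 2 * j) (h1 : w - 2 * H ≤ y) (h2 : y ≤ w + 2 * H + 2) :
    0 < (j + 1) * (n - (j + 1)) * (y + 1) ∧
    n ^ 2 * (y + 1) ≤ 9 * ((j + 1) * (n - (j + 1)) * (y + 1)) ∧
    4 * ((j + 1) * (n - (j + 1)) * (y + 1)) ≤ n ^ 2 * (y + 1) ∧
    (1 - 20 / n) * ((j + 1) * (n - (j + 1)) * (y + 1)) ≤ (n - j) * j * (y - 1) ∧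
    n / 2 ≤ y ∧ 7 / 10 * n ≤ w ∧ w ≤ 71 / 100 * n := by
  have hH4 : 8 ^ 3 * H ≤ H ^ 4 := by
    have : (8 : ℝ) ^ 3 ≤ H ^ 3 := pow_le_pow_left₀ (by norm_num) hH 3
    calc 8 ^ 3 * H ≤ H ^ 3 * H := mul_le_mul_of_nonneg_right this (by linarith)
      _ = H ^ 4 := by ring
  have hnH : 150000 * H ≤ n := by nlinarith
  have hn0 : 0 < n := by nlinarith
  have hwl : 7 / 10 * n ≤ w := by
    by_contra hc
    push Not at hc
    nlinarith
  have hwu : w ≤ 71 / 100 * n := by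
    by_contra hc
    push Not at hc
    nlinarith
  have hyl : n / 2 ≤ y := by linarith
  have hyu : y ≤ 72 / 100 * n := by linarith
  have ej : j + 1 = (n + 1 - y) / 2 := by linarith
  have enj : n - (j + 1) = (n - 1 + y) / 2 := by linarith
  have hj1 : 0 < j + 1 := by rw [ej]; linarith
  have hnj : 0 < n - (j + 1) := by rw [enj]; linarith
  have hy1 : 0 < y + 1 := by linarith
  have hprod : (j + 1) * (n - (j + 1)) = (n ^ 2 - (y - 1) ^ 2) / 4 := by rw [enj, ej]; ring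
  refine ⟨by positivity, ?_, ?_, ?_, hyl, hwl, hwu⟩
  · rw [hprod]
    have : n ^ 2 ≤ 9 * ((n ^ 2 - (y - 1) ^ 2) / 4) := by nlinarith
    calc n ^ 2 * (y + 1) ≤ 9 * ((n ^ 2 - (y - 1) ^ 2) / 4) * (y + 1) :=
          mul_le_mul_of_nonneg_right this hy1.le
      _ = _ := by ring
  · rw [hprod]
    have : 4 * ((n ^ 2 - (y - 1) ^ 2) / 4) ≤ n ^ 2 := by nlinarith [sq_nonneg (y - 1)]
    calc 4 * ((n ^ 2 - (y - 1) ^ 2) / 4 * (y + 1)) = 4 * ((n ^ 2 - (y - 1) ^ 2) / 4) * (y + 1) := by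
          ring
      _ ≤ _ := mul_le_mul_of_nonneg_right this hy1.le
  · have e2 : (j + 1) * (y + 1) - j * (y - 1) = n := by rw [hy]; ring
    have e3 : n ≤ 20 / n * ((j + 1) * (y + 1)) := by
      rw [div_mul_eq_mul_div, le_div_iff₀ hn0, ej]
      nlinarith
    have e4 : (1 - 20 / n) * ((j + 1) * (y + 1)) ≤ j * (y - 1) := by linarith
    have hjy : 0 ≤ j * (y - 1) := by
      have : 0 ≤ j := by
        have : j = (n - 1 - y) / 2 := by linarith
        rw [this]; linarith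
      have : 0 ≤ y - 1 := by linarith
      positivity
    calc (1 - 20 / n) * ((j + 1) * (n - (j + 1)) * (y + 1))
        = ((1 - 20 / n) * ((j + 1) * (y + 1))) * (n - (j + 1)) := by ring
      _ ≤ (j * (y - 1)) * (n - (j + 1)) := mul_le_mul_of_nonneg_right e4 hnj.le
      _ ≤ (j * (y - 1)) * (n - j) := mul_le_mul_of_nonneg_left (by linarith) hjy
      _ = _ := by ring


theorem err_bound (n S H : ℝ) (hH : 8 ≤ H) (hn : 300 * H ^ 4 ≤ n) (hS0 : 0 ≤ S) (hS : S ≤ 10 * H ^ 2) :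
    (S / n) ^ 2 + 20 / n * (S / n) ≤ 1 / n := by
  have hn0 : 0 < n := by
    have : 0 < 300 * H ^ 4 := by positivity
    linarith
  rw [div_pow, div_mul_div_comm, ← sq, ← add_div, div_le_div_iff₀ (by positivity) hn0]
  have h1 : S ^ 2 ≤ 100 * H ^ 4 := by
    calc S ^ 2 ≤ (10 * H ^ 2) ^ 2 := pow_le_pow_left₀ hS0 hS 2
      _ = _ := by ring
  have h2 : 20 * S ≤ 200 * H ^ 4 := by nlinarith [sq_nonneg H, pow_le_pow_left₀ (by norm_num : (0:ℝ) ≤ 8) hH 2]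
  have h3 : S ^ 2 + 20 * S ≤ n := by linarith
  calc (S ^ 2 + 20 * S) * n ≤ n * n := mul_le_mul_of_nonneg_right h3 hn0.le
    _ = 1 * n ^ 2 := by ring

/-- one step of the window -/
theorem win_step (n j : ℕ) (H y w S θ : ℝ) (hH : 8 ≤ H) (hn : 300 * H ^ 4 ≤ n) (hw0 : 0 < w)
    (hw : 2 * w ^ 2 = (n : ℝ) ^ 2) (hy : y = (n : ℝ) - 1 - 2 * (j + 1 : ℕ)) (h1 : w - 2 * H ≤ y)
    (h2 : y ≤ w + 2 * H + 2) (hS0 : 0 ≤ S) (hS : S ≤ 10 * H ^ 2) (hB : 0 < B n j)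
    (hD : S / n * B n j ≤ B n (j + 1) - B n j)
    (hθ : θ / n * (((j + 1 : ℕ) + 1 : ℝ) * ((n : ℝ) - ((j + 1 : ℕ) + 1)) * (y + 1))
      ≤ y * (2 * (y ^ 2 - 1) - (n : ℝ) ^ 2)) :
    0 < B n (j + 1) ∧ (S + θ - 1) / n * B n (j + 1) ≤ B n (j + 1 + 1) - B n (j + 1) := by
  obtain ⟨w1, w2, w3, w4, w5, w6, w7⟩ := window n ((j + 1 : ℕ) : ℝ) H y w hH hn hw0 hw hy h1 h2
  have hn0 : (0 : ℝ) < n := by
    have : 0 < 300 * H ^ 4 := by positivity
    linarith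
  have hH4 : 8 ^ 4 ≤ H ^ 4 := pow_le_pow_left₀ (by norm_num) hH 4
  have h := rec_real n (j + 1) y hy
  rw [Nat.add_sub_cancel] at h
  have hc := core_step _ _ _ (θ / n) (20 / n) (S / n) (B n j) (B n (j + 1)) (B n (j + 1 + 1)) w1 h hB
    (by positivity) hD hθ w4 (by positivity) (by rw [div_le_one hn0]; linarith)
  refine ⟨hc.1, le_trans ?_ hc.2⟩
  apply mul_le_mul_of_nonneg_right _ hc.1.le
  have := err_bound n S H hH hn hS0 hS
  have e : (S + θ - 1) / n = θ / n + S / n - 1 / n := by ring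
  rw [e]
  linarith

theorem phase1 (n j0 Hn : ℕ) (w : ℝ) (hH : 8 ≤ Hn) (hn : 300 * (Hn : ℝ) ^ 4 ≤ n) (hw0 : 0 < w)
    (hw : 2 * w ^ 2 = (n : ℝ) ^ 2) (h1 : w + 2 * Hn ≤ (n : ℝ) - 1 - 2 * j0)
    (h2 : (n : ℝ) - 1 - 2 * j0 < w + 2 * Hn + 2) (k : ℕ) (hk : k ≤ Hn) :
    0 < B n (j0 + k) ∧
      ((k : ℝ) * (10 * Hn - 5 * k - 7)) / n * B n (j0 + k) ≤ B n (j0 + k + 1) - B n (j0 + k) := by
  have hHr : (8 : ℝ) ≤ Hn := by exact_mod_cast hH
  have hH4 : (8 : ℝ) ^ 4 ≤ (Hn : ℝ) ^ 4 := pow_le_pow_left₀ (by norm_num) hHr 4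
  have hn4 : (1228800 : ℝ) ≤ n := by nlinarith
  have hn1 : 1 ≤ n := by
    have : (1 : ℝ) ≤ n := by linarith
    exact_mod_cast this
  have hwl : 7 / 10 * (n : ℝ) ≤ w := by
    by_contra hc
    push Not at hc
    nlinarith
  induction k with
  | zero =>
    obtain ⟨p1, p2⟩ := phase0 n hn1 w (by linarith) hw j0 (by linarith)
    refine ⟨by simpa using lt_of_lt_of_le one_pos p1, ?_⟩
    simp only [Nat.cast_zero, zero_mul, zero_div, add_zero]
    linarith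
  | succ k ih =>
    obtain ⟨i1, i2⟩ := ih (by omega)
    have hkr : (k : ℝ) + 1 ≤ Hn := by exact_mod_cast hk
    have hk0 : (0 : ℝ) ≤ k := Nat.cast_nonneg k
    set y : ℝ := (n : ℝ) - 1 - 2 * ((j0 + k + 1 : ℕ) : ℝ) with hy
    have hy' : y = ((n : ℝ) - 1 - 2 * j0) - 2 * (k + 1) := by rw [hy]; push_cast; ring
    have hm0 : (0 : ℝ) ≤ Hn - (k + 1) := by linarith
    set m : ℝ := Hn - (k + 1) with hm
    have b1 : w + 2 * m ≤ y := by rw [hy', hm]; linarith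
    have hs := win_step n (j0 + k) Hn y w ((k : ℝ) * (10 * Hn - 5 * k - 7)) (10 * m - 1) hHr hn hw0 hw
      hy (by linarith) (by rw [hy']; linarith) (by
        have : (0 : ℝ) ≤ 10 * Hn - 5 * k - 7 := by linarith
        positivity) (by nlinarith) i1 i2 ?_
    · have e : (k : ℝ) * (10 * Hn - 5 * k - 7) + (10 * m - 1) - 1
          = ((k + 1 : ℕ) : ℝ) * (10 * Hn - 5 * (k + 1 : ℕ) - 7) := by
        rw [hm]; push_cast; ring
      rw [e] at hs
      exact hs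
    · obtain ⟨w1, w2, w3, w4, w5, w6, w7⟩ := window n ((j0 + k + 1 : ℕ) : ℝ) Hn y w hHr hn hw0 hw hy
        (by linarith) (by rw [hy']; linarith)
      have hn0 : (0 : ℝ) < n := by linarith
      set a : ℝ := (((j0 + k + 1 : ℕ) + 1 : ℝ) * ((n : ℝ) - ((j0 + k + 1 : ℕ) + 1)) * (y + 1))
      have hy0 : 0 < y := by linarith
      have c1 : 8 * m * w - 2 ≤ 2 * (y ^ 2 - 1) - (n : ℝ) ^ 2 := by
        have : 2 * (y ^ 2 - 1) - (n : ℝ) ^ 2 = 2 * ((y - w) * (y + w)) - 2 := by rw [← hw]; ring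
        rw [this]
        have : 2 * m * (2 * w) ≤ (y - w) * (y + w) :=
          mul_le_mul (by linarith) (by linarith) (by positivity) (by linarith)
        linarith
      have c2 : y * (8 * m * w - 2) ≤ y * (2 * (y ^ 2 - 1) - (n : ℝ) ^ 2) :=
        mul_le_mul_of_nonneg_left c1 hy0.le
      refine le_trans ?_ c2
      rw [div_mul_eq_mul_div, div_le_iff₀ hn0]
      -- (10 m - 1) a ≤ y (8 m w - 2) n
      have c3 : 10 * m * a ≤ 10 * m * (n ^ 2 * (y + 1) / 4) :=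
        mul_le_mul_of_nonneg_left (by linarith) (by linarith)
      have c4 : y * (8 * m * (7 / 10 * n)) * n ≤ y * (8 * m * w) * n := by
        apply mul_le_mul_of_nonneg_right _ hn0.le
        apply mul_le_mul_of_nonneg_left _ hy0.le
        exact mul_le_mul_of_nonneg_left w6 (by linarith)
      have c5 : 10 * m * (n ^ 2 * (y + 1) / 4) ≤ y * (8 * m * (7 / 10 * n)) * n := by
        have h0 : 0 ≤ m * n ^ 2 * (28 / 5 * y - 5 / 2 * (y + 1)) := by
          have : 0 ≤ 28 / 5 * y - 5 / 2 * (y + 1) := by linarith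
          positivity
        have e : y * (8 * m * (7 / 10 * n)) * n - 10 * m * (n ^ 2 * (y + 1) / 4)
            = m * n ^ 2 * (28 / 5 * y - 5 / 2 * (y + 1)) := by ring
        linarith
      have c6 : 2 * y * n ≤ n ^ 2 * (y + 1) / 9 := by
        have h0 : 0 ≤ n * y * ((n : ℝ) - 18) / 9 + n ^ 2 / 9 := by
          have : (0 : ℝ) ≤ n - 18 := by linarith
          positivity
        have e : n ^ 2 * (y + 1) / 9 - 2 * y * n = n * y * ((n : ℝ) - 18) / 9 + n ^ 2 / 9 := by ring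
        linarith
      have e1 : (10 * m - 1) * a = 10 * m * a - a := by ring
      have e2 : y * (8 * m * w - 2) * n = y * (8 * m * w) * n - 2 * y * n := by ring
      rw [e1, e2]
      linarith

theorem phase2 (n j0 Hn : ℕ) (w : ℝ) (K : ℕ) (hH : Hn = 4 * K + 8) (hn : 300 * (Hn : ℝ) ^ 4 ≤ n)
    (hw0 : 0 < w)
    (hw : 2 * w ^ 2 = (n : ℝ) ^ 2) (h1 : w + 2 * Hn ≤ (n : ℝ) - 1 - 2 * j0)
    (h2 : (n : ℝ) - 1 - 2 * j0 < w + 2 * Hn + 2) (m : ℕ) (hm : m ≤ K + 1) :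
    0 < B n (j0 + Hn + m) ∧
      (5 * (Hn : ℝ) ^ 2 - 7 * Hn - 32 * m * (m + 1)) / n * B n (j0 + Hn + m)
        ≤ B n (j0 + Hn + m + 1) - B n (j0 + Hn + m) := by
  have hHn8 : 8 ≤ Hn := by omega
  have hHr : (8 : ℝ) ≤ Hn := by exact_mod_cast hHn8
  have hHK : (Hn : ℝ) = 4 * K + 8 := by rw [hH]; push_cast; ring
  have hH4 : (8 : ℝ) ^ 4 ≤ (Hn : ℝ) ^ 4 := pow_le_pow_left₀ (by norm_num) hHr 4
  have hn4 : (1228800 : ℝ) ≤ n := by nlinarith
  induction m with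
  | zero =>
    obtain ⟨p1, p2⟩ := phase1 n j0 Hn w hHn8 hn hw0 hw h1 h2 Hn le_rfl
    refine ⟨p1, ?_⟩
    have e : (5 * (Hn : ℝ) ^ 2 - 7 * Hn - 32 * ((0 : ℕ) : ℝ) * (((0 : ℕ) : ℝ) + 1))
        = (Hn : ℝ) * (10 * Hn - 5 * Hn - 7) := by push_cast; ring
    rw [e]
    exact p2
  | succ m ih =>
    obtain ⟨i1, i2⟩ := ih (by omega)
    have hmr : (m : ℝ) ≤ K := by exact_mod_cast (by omega : m ≤ K)
    have hm0 : (0 : ℝ) ≤ m := Nat.cast_nonneg m
    have hK0 : (0 : ℝ) ≤ K := Nat.cast_nonneg K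
    set y : ℝ := (n : ℝ) - 1 - 2 * ((j0 + Hn + m + 1 : ℕ) : ℝ) with hy
    have hy' : y = ((n : ℝ) - 1 - 2 * j0) - 2 * Hn - 2 * (m + 1) := by rw [hy]; push_cast; ring
    have b1 : w - 2 * (m + 1) ≤ y := by rw [hy']; linarith
    have b2 : y ≤ w + 2 := by rw [hy']; linarith
    have hs := win_step n (j0 + Hn + m) Hn y w (5 * (Hn : ℝ) ^ 2 - 7 * Hn - 32 * m * (m + 1))
      (-(63 * (m + 1))) hHr hn hw0 hw
      hy (by linarith) (by linarith) (by nlinarith) (by nlinarith) i1 i2 ?_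
    · refine ⟨hs.1, le_trans ?_ hs.2⟩
      apply mul_le_mul_of_nonneg_right _ hs.1.le
      apply div_le_div_of_nonneg_right _ (Nat.cast_nonneg n)
      push_cast
      nlinarith
    · obtain ⟨w1, w2, w3, w4, w5, w6, w7⟩ := window n ((j0 + Hn + m + 1 : ℕ) : ℝ) Hn y w hHr hn hw0 hw
        hy (by linarith) (by linarith)
      have hn0 : (0 : ℝ) < n := by linarith
      set a : ℝ := (((j0 + Hn + m + 1 : ℕ) + 1 : ℝ) * ((n : ℝ) - ((j0 + Hn + m + 1 : ℕ) + 1)) * (y + 1))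
      have hy0 : 0 < y := by linarith
      have c1 : -(8 * (m + 1) * w + 10 * (m + 1)) ≤ 2 * (y ^ 2 - 1) - (n : ℝ) ^ 2 := by
        have e : 2 * (y ^ 2 - 1) - (n : ℝ) ^ 2 = 2 * ((y - w) * (y + w)) - 2 := by rw [← hw]; ring
        rw [e]
        have h3 : -(2 * (m + 1)) * (y + w) ≤ (y - w) * (y + w) :=
          mul_le_mul_of_nonneg_right (by linarith) (by linarith)
        have h4 : (2 * ((m : ℝ) + 1)) * (y + w) ≤ (2 * (m + 1)) * (2 * w + 2) :=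
          mul_le_mul_of_nonneg_left (by linarith) (by linarith)
        linarith
      have c2 : y * (-(8 * (m + 1) * w + 10 * (m + 1))) ≤ y * (2 * (y ^ 2 - 1) - (n : ℝ) ^ 2) :=
        mul_le_mul_of_nonneg_left c1 hy0.le
      refine le_trans ?_ c2
      rw [div_mul_eq_mul_div, div_le_iff₀ hn0]
      have c3 : 63 * ((m : ℝ) + 1) * (n ^ 2 * (y + 1) / 9) ≤ 63 * (m + 1) * a :=
        mul_le_mul_of_nonneg_left (by linarith) (by linarith)
      have c4 : (8 * ((m : ℝ) + 1) * w + 10 * (m + 1)) ≤ 7 * (m + 1) * n := by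
        have h3 : 8 * w + 10 ≤ 7 * n := by linarith
        have h4 := mul_le_mul_of_nonneg_left h3 (by linarith : (0 : ℝ) ≤ (m : ℝ) + 1)
        have e : ((m : ℝ) + 1) * (8 * w + 10) = 8 * (m + 1) * w + 10 * (m + 1) := by ring
        have e' : ((m : ℝ) + 1) * (7 * n) = 7 * (m + 1) * n := by ring
        linarith
      have c5 : y * (8 * ((m : ℝ) + 1) * w + 10 * (m + 1)) * n ≤ (y + 1) * (7 * (m + 1) * n) * n := by
        apply mul_le_mul_of_nonneg_right _ hn0.le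
        exact mul_le_mul (by linarith) c4 (by positivity) (by linarith)
      have e1 : (y + 1) * (7 * ((m : ℝ) + 1) * n) * n = 63 * ((m : ℝ) + 1) * (n ^ 2 * (y + 1) / 9) := by
        ring
      have e2 : -(63 * ((m : ℝ) + 1)) * a = -(63 * ((m : ℝ) + 1) * a) := by ring
      have e3 : y * (-(8 * ((m : ℝ) + 1) * w + 10 * (m + 1))) * n
          = -(y * (8 * ((m : ℝ) + 1) * w + 10 * (m + 1)) * n) := by ring
      rw [e2, e3]
      linarith

/-- the amplitudes grow across the turning point -/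
theorem growth (K : ℕ) : ∃ N0 : ℕ, ∀ n : ℕ, N0 ≤ n → ∀ j : ℕ,
    |(n : ℝ) - 1 - 2 * j - n / Real.sqrt 2| ≤ K → 0 < B n j ∧ B n j < B n (j + 1) := by
  set Hn : ℕ := 4 * K + 8 with hH
  refine ⟨300 * Hn ^ 4, fun n hn0 j hj => ?_⟩
  have hn : 300 * (Hn : ℝ) ^ 4 ≤ n := by exact_mod_cast hn0
  have hHn8 : 8 ≤ Hn := by omega
  have hHr : (8 : ℝ) ≤ Hn := by exact_mod_cast hHn8
  have hHK : (Hn : ℝ) = 4 * K + 8 := by rw [hH]; push_cast; ring
  have hH4' : (8 : ℝ) ^ 3 * Hn ≤ (Hn : ℝ) ^ 4 := by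
    have : (8 : ℝ) ^ 3 ≤ (Hn : ℝ) ^ 3 := pow_le_pow_left₀ (by norm_num) hHr 3
    calc (8 : ℝ) ^ 3 * Hn ≤ (Hn : ℝ) ^ 3 * Hn := mul_le_mul_of_nonneg_right this (by linarith)
      _ = (Hn : ℝ) ^ 4 := by ring
  have hnH : 150000 * (Hn : ℝ) ≤ n := by nlinarith
  have hs2 : (0 : ℝ) < Real.sqrt 2 := Real.sqrt_pos.mpr (by norm_num)
  set w : ℝ := n / Real.sqrt 2 with hwdef
  have hw0 : 0 < w := by
    rw [hwdef]
    have : (0 : ℝ) < n := by linarith
    positivity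
  have hw : 2 * w ^ 2 = (n : ℝ) ^ 2 := by
    rw [hwdef, div_pow, Real.sq_sqrt (by norm_num)]
    ring
  have hwu : w ≤ 71 / 100 * n := by
    by_contra hc
    push Not at hc
    nlinarith
  -- the starting index
  set z : ℝ := ((n : ℝ) - 1 - w - 2 * Hn) / 2 with hz
  have hz0 : 0 ≤ z := by rw [hz]; linarith
  set j0 : ℕ := ⌊z⌋₊ with hj0
  have f1 : (j0 : ℝ) ≤ z := Nat.floor_le hz0
  have f2 : z < j0 + 1 := Nat.lt_floor_add_one z
  have h1 : w + 2 * Hn ≤ (n : ℝ) - 1 - 2 * j0 := by rw [hz] at f1; linarith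
  have h2 : (n : ℝ) - 1 - 2 * j0 < w + 2 * Hn + 2 := by rw [hz] at f2; linarith
  have hn0' : (0 : ℝ) < n := by linarith
  rw [abs_le] at hj
  have g1 : (j0 : ℝ) + 1 ≤ j := by
    have : (j0 : ℝ) < j := by linarith
    exact_mod_cast (by exact_mod_cast this : j0 < j)
  have g1' : j0 + 1 ≤ j := by exact_mod_cast g1
  rcases le_or_gt j (j0 + Hn) with hle | hgt
  · obtain ⟨k, rfl⟩ : ∃ k, j = j0 + k := ⟨j - j0, by omega⟩
    obtain ⟨p1, p2⟩ := phase1 n j0 Hn w hHn8 hn hw0 hw h1 h2 k (by omega)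
    refine ⟨p1, ?_⟩
    have hk1 : (1 : ℝ) ≤ k := by exact_mod_cast (by omega : 1 ≤ k)
    have hkH : (k : ℝ) ≤ Hn := by exact_mod_cast (by omega : k ≤ Hn)
    have : 0 < ((k : ℝ) * (10 * Hn - 5 * k - 7)) / n * B n (j0 + k) := by
      have : (0 : ℝ) < 10 * Hn - 5 * k - 7 := by linarith
      positivity
    linarith
  · obtain ⟨m, rfl⟩ : ∃ m, j = j0 + Hn + m := ⟨j - (j0 + Hn), by omega⟩
    have hmK : m ≤ K + 1 := by
      have : (m : ℝ) ≤ K + 1 := by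
        push_cast at hj
        have hK0 : (0 : ℝ) ≤ K := Nat.cast_nonneg K
        linarith
      exact_mod_cast this
    obtain ⟨p1, p2⟩ := phase2 n j0 Hn w K hH hn hw0 hw h1 h2 m hmK
    refine ⟨p1, ?_⟩
    have hm1 : (m : ℝ) ≤ K + 1 := by exact_mod_cast hmK
    have hm0 : (0 : ℝ) ≤ m := Nat.cast_nonneg m
    have hK0 : (0 : ℝ) ≤ K := Nat.cast_nonneg K
    have : 0 < (5 * (Hn : ℝ) ^ 2 - 7 * Hn - 32 * m * (m + 1)) / n * B n (j0 + Hn + m) := by
      have : (0 : ℝ) < 5 * (Hn : ℝ) ^ 2 - 7 * Hn - 32 * m * (m + 1) := by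
        rw [hHK]; nlinarith
      positivity
    linarith

end Pool.Agent.Q207.Feyn
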