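import Pool.Agent.Q207.FeynB

set_option autoImplicit false

namespace Pool.Agent.Q207.Feyn

open Finset

def turns {n : ℕ} (s : Fin (n + 1) → Bool) : ℕ :=
  (univ.filter (fun i : Fin n => s i.castSucc ≠ s i.succ)).card

def pos {n : ℕ} (s : Fin (n + 1) → Bool) : ℤ := ∑ i, (if s i then (1 : ℤ) else -1)

theorem turns_snoc {n : ℕ} (s : Fin (n + 1) → Bool) (c : Bool) :
    turns (Fin.snoc s c : Fin (n + 1 + 1) → Bool) = turns s + if s (Fin.last n) ≠ c then 1 else 0 := by
  unfold turns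
  rw [Finset.card_filter, Finset.card_filter, Fin.sum_univ_castSucc]
  congr 1
  · apply Finset.sum_congr rfl
    intro i _
    rw [Fin.snoc_castSucc (α := fun _ => Bool) (p := s), Fin.succ_castSucc,
      Fin.snoc_castSucc (α := fun _ => Bool) (p := s)]
  · rw [Fin.snoc_castSucc (α := fun _ => Bool) (p := s), Fin.succ_last,
      Fin.snoc_last (α := fun _ => Bool) (p := s)]

theorem pos_snoc {n : ℕ} (s : Fin (n + 1) → Bool) (c : Bool) :
    pos (Fin.snoc s c : Fin (n + 1 + 1) → Bool) = pos s + if c then 1 else -1 := by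
  unfold pos
  rw [Fin.sum_univ_castSucc]
  congr 1
  · apply Finset.sum_congr rfl
    intro i _
    rw [Fin.snoc_castSucc (α := fun _ => Bool) (p := s)]
  · rw [Fin.snoc_last (α := fun _ => Bool) (p := s)]

theorem snoc_zero' {n : ℕ} (s : Fin (n + 1) → Bool) (c : Bool) :
    (Fin.snoc s c : Fin (n + 1 + 1) → Bool) 0 = s 0 := by
  rw [show (0 : Fin (n + 1 + 1)) = (0 : Fin (n + 1)).castSucc from rfl,
    Fin.snoc_castSucc (α := fun _ => Bool) (p := s)]

/-- amplitude of paths with the prescribed last step -/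
noncomputable def W (n : ℕ) (c : Bool) (y : ℤ) : ℂ :=
  ∑ s : Fin (n + 1) → Bool,
    if s 0 = true ∧ s (Fin.last n) = c ∧ pos s = y then (-Complex.I) ^ turns s else 0

theorem sum_snoc (n : ℕ) (f : (Fin (n + 1 + 1) → Bool) → ℂ) :
    ∑ s, f s = ∑ c : Bool, ∑ s : Fin (n + 1) → Bool, f (Fin.snoc s c : Fin (n + 1 + 1) → Bool) := by
  rw [← (Fin.snocEquiv (fun _ : Fin (n + 1 + 1) => Bool)).sum_comp]
  rw [Fintype.sum_prod_type]
  rfl

theorem W_succ (n : ℕ) (c : Bool) (y : ℤ) :
    W (n + 1) c y = W n c (y - if c then 1 else -1)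
      + (-Complex.I) * W n (!c) (y - if c then 1 else -1) := by
  unfold W
  rw [sum_snoc, Finset.mul_sum, ← Finset.sum_add_distrib]
  rw [Finset.sum_eq_single c]
  · apply Finset.sum_congr rfl
    intro s _
    rw [snoc_zero', Fin.snoc_last (α := fun _ => Bool) (p := s), pos_snoc, turns_snoc]
    rcases hs : s (Fin.last n) <;> rcases c with _ | _ <;> by_cases h0 : s 0 = true <;>
      simp [h0, eq_sub_iff_add_eq, sub_eq_iff_eq_add, pow_succ, ← sub_eq_add_neg, mul_comm]
  · intro c' _ hc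
    apply Finset.sum_eq_zero
    intro s _
    rw [Fin.snoc_last (α := fun _ => Bool) (p := s), if_neg]
    rintro ⟨-, h, -⟩
    exact hc h
  · intro h
    exact absurd (Finset.mem_univ c) h

theorem W_eq (n : ℕ) : ∀ y : ℤ, W n true y = ((b (n + 1) (y - 1) - b n y : ℤ) : ℂ) ∧
    W n false y = -Complex.I * (b n y : ℂ) := by
  induction n with
  | zero =>
    intro y
    rw [b_zero, b_one]
    constructor
    · unfold W
      rw [Finset.sum_eq_single (fun _ => true)]
      · by_cases h : y = 1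
        · subst h
          simp [pos, turns]
        · have h' : ¬ (1 = y) := fun e => h e.symm
          have h'' : ¬ (y - 1 = 0) := by omega
          simp [pos, h', h'']
      · intro s _ hs
        rw [if_neg]
        rintro ⟨h, -⟩
        apply hs
        funext i
        rw [Fin.fin_one_eq_zero i]
        exact h
      · intro h
        exact absurd (Finset.mem_univ _) h
    · unfold W
      rw [Finset.sum_eq_zero]
      · simp
      · intro s _
        rw [if_neg]
        rintro ⟨h, h2, -⟩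
        rw [show (Fin.last 0) = 0 from rfl, h] at h2
        exact absurd h2 (by simp)
  | succ n ih =>
    intro y
    constructor
    · rw [W_succ, (ih _).1]
      simp only [Bool.not_true, if_true]
      rw [(ih _).2, b_rec]
      rw [show y - 1 + 1 = y by ring]
      push_cast
      have : Complex.I * Complex.I = -1 := Complex.I_mul_I
      linear_combination (b n (y - 1) : ℂ) * this
    · rw [W_succ, (ih _).2]
      simp only [Bool.not_false, if_false, Bool.false_eq_true]
      rw [(ih _).1, sub_neg_eq_add, show y + 1 - 1 = y by ring]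
      push_cast
      ring

theorem tot (n : ℕ) (y : ℤ) :
    (∑ s ∈ Finset.univ.filter
        (fun s : Fin (n+1) → Bool =>
          s 0 = true ∧ ∑ i, (if s i then (1:ℤ) else -1) = y),
      (-Complex.I) ^ ((Finset.univ.filter
        (fun i : Fin n => s i.castSucc ≠ s i.succ)).card))
      = ((b (n + 1) (y - 1) - b n y : ℤ) : ℂ) + (-Complex.I) * (b n y : ℂ) := by
  rw [← (W_eq n y).1, ← (W_eq n y).2]
  unfold W
  rw [Finset.sum_filter, ← Finset.sum_add_distrib]
  apply Finset.sum_congr rfl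
  intro s _
  change (if s 0 = true ∧ pos s = y then (-Complex.I) ^ turns s else 0) = _
  rcases hs : s (Fin.last n) <;> by_cases h0 : s 0 = true <;> by_cases h1 : pos s = y <;>
    simp [h0, h1]

theorem normsq (a c : ℤ) : ‖((a : ℤ) : ℂ) + (-Complex.I) * (c : ℂ)‖ ^ 2 = (a : ℝ) ^ 2 + (c : ℝ) ^ 2 := by
  rw [← Complex.normSq_eq_norm_sq, Complex.normSq_apply]
  simp
  ring

theorem b_supp (n : ℕ) : ∀ y : ℤ, (n : ℤ) ≤ |y| → b n y = 0 := by
  induction n using Nat.twoStepInduction with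
  | zero => intro y _; exact b_zero y
  | one =>
    intro y hy
    rw [b_one, if_neg]
    rintro rfl
    simp at hy
  | more n ih0 ih1 =>
    intro y hy
    push_cast at *
    have h1 : |y| ≤ |y - 1| + 1 := by
      have := abs_add_le (y - 1) 1
      rw [sub_add_cancel, abs_one] at this
      exact this
    have h2 : |y| ≤ |y + 1| + 1 := by
      have := abs_sub (y + 1) 1
      rw [add_sub_cancel_right, abs_one] at this
      exact this
    rw [b_rec, ih1 _ (by omega), ih1 _ (by omega), ih0 _ (by omega)]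
    ring

theorem b_par (n : ℕ) : ∀ y : ℤ, ((n : ℤ) + y) % 2 = 0 → b n y = 0 := by
  induction n using Nat.twoStepInduction with
  | zero => intro y _; exact b_zero y
  | one =>
    intro y hy
    rw [b_one, if_neg]
    rintro rfl
    simp at hy
  | more n ih0 ih1 =>
    intro y hy
    push_cast at *
    rw [b_rec, ih1 _ (by omega), ih1 _ (by omega), ih0 _ (by omega)]
    ring

/-- the probability, up to the factor `2 ^ (-n)` -/
def Q (n : ℕ) (y : ℤ) : ℝ := ((b (n + 1) (y - 1) - b n y : ℤ) : ℝ) ^ 2 + ((b n y : ℤ) : ℝ) ^ 2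

theorem Q_top (n : ℕ) (hn : 1 ≤ n) : Q n (n + 1) = 1 := by
  unfold Q
  have h := B_zero (n + 1) (by omega)
  unfold B at h
  rw [show ((n + 1 : ℕ) : ℤ) - 1 - 2 * ((0 : ℕ) : ℤ) = n by push_cast; ring] at h
  have h' : b (n + 1) n = 1 := by
    have : ((b (n + 1) n : ℤ) : ℝ) = 1 := by simpa using h
    exact_mod_cast this
  rw [show (n : ℤ) + 1 - 1 = n by ring, h', b_supp n (n + 1) (by rw [abs_of_nonneg] <;> omega)]
  simp

theorem Q_B (n j : ℕ) : Q n ((n : ℤ) - 1 - 2 * j) = (B (n + 1) (j + 1) + B n j) ^ 2 + B n j ^ 2 := by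
  unfold Q B
  rw [show ((n + 1 : ℕ) : ℤ) - 1 - 2 * ((j + 1 : ℕ) : ℤ) = (n : ℤ) - 1 - 2 * j - 1 by push_cast; ring]
  push_cast
  have h : ((-1 : ℝ) ^ j) ^ 2 = 1 := by rw [← pow_mul, mul_comm, pow_mul]; simp
  set X := (b (n + 1) ((n : ℤ) - 1 - 2 * j - 1) : ℝ)
  set Y := (b n ((n : ℤ) - 1 - 2 * j) : ℝ)
  rw [pow_succ]
  linear_combination (-(X - Y) ^ 2 - Y ^ 2) * h

theorem exists_max (n : ℕ) : ∃ x : ℤ, ∀ y : ℤ, Q n y ≤ Q n x := by
  obtain ⟨x, hx, hmax⟩ := Finset.exists_max_image (Finset.Icc (-((n : ℤ) + 1)) (n + 1)) (Q n)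
    ⟨0, by rw [Finset.mem_Icc]; constructor <;> omega⟩
  refine ⟨x, fun y => ?_⟩
  by_cases hy : y ∈ Finset.Icc (-((n : ℤ) + 1)) (n + 1)
  · exact hmax y hy
  · have h0 : Q n y = 0 := by
      rw [Finset.mem_Icc, not_and_or, not_le, not_le] at hy
      unfold Q
      have h1 : ((n + 1 : ℕ) : ℤ) ≤ |y - 1| := by
        rcases hy with h | h
        · rw [abs_of_nonpos (by omega)]; push_cast; omega
        · rw [abs_of_nonneg (by omega)]; push_cast; omega
      have h2 : (n : ℤ) ≤ |y| := by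
        rcases hy with h | h
        · rw [abs_of_nonpos (by omega)]; omega
        · rw [abs_of_nonneg (by omega)]; omega
      rw [b_supp _ _ h1, b_supp _ _ h2]
      simp
    rw [h0]
    unfold Q
    positivity

theorem main (C : ℝ) (hC : 0 ≤ C) : ∃ n : ℕ, ∃ x : ℤ, (∀ y : ℤ, Q n y ≤ Q n x) ∧
    C < |(x : ℝ) - ((n : ℝ) + 1) / Real.sqrt 2| := by
  obtain ⟨K, hK⟩ := exists_nat_ge (C + 1)
  obtain ⟨N0, hN0⟩ := growth K
  obtain ⟨N1, hN1⟩ := exists_nat_ge (100 * (C + 1))
  set n : ℕ := N0 + N1 + 100 with hn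
  obtain ⟨x, hx⟩ := exists_max n
  refine ⟨n, x, hx, ?_⟩
  by_contra hcon
  push Not at hcon
  have hnr : 100 * (C + 1) + 100 ≤ (n : ℝ) := by
    have : (n : ℝ) = N0 + N1 + 100 := by rw [hn]; push_cast; ring
    have h0 : (0 : ℝ) ≤ N0 := Nat.cast_nonneg _
    linarith
  have hs2 : (0 : ℝ) < Real.sqrt 2 := Real.sqrt_pos.mpr (by norm_num)
  have hs1 : (1 : ℝ) ≤ Real.sqrt 2 := by
    rw [show (1 : ℝ) = Real.sqrt 1 by simp]
    exact Real.sqrt_le_sqrt (by norm_num)
  have hu : ((n : ℝ) + 1) / Real.sqrt 2 ≤ 3 / 4 * ((n : ℝ) + 1) := by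
    rw [div_le_iff₀ hs2]
    have : (4 : ℝ) / 3 ≤ Real.sqrt 2 := by
      apply Real.le_sqrt_of_sq_le
      norm_num
    nlinarith
  have hsplit : ((n : ℝ) + 1) / Real.sqrt 2 = n / Real.sqrt 2 + 1 / Real.sqrt 2 := add_div _ _ _
  have hinv0 : 0 < 1 / Real.sqrt 2 := by positivity
  have hinv1 : 1 / Real.sqrt 2 ≤ 1 := by rw [div_le_one hs2]; exact hs1
  have hcon' := abs_le.mp hcon
  have hxn : x ≤ n - 1 := by
    have : (x : ℝ) < n := by linarith
    have : x < (n : ℤ) := by exact_mod_cast this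
    omega
  have hpar : ((n : ℤ) + x) % 2 = 1 := by
    by_contra hp
    have hp' : ((n : ℤ) + x) % 2 = 0 := by omega
    have h0 : Q n x = 0 := by
      unfold Q
      rw [b_par n x hp', b_par (n + 1) (x - 1) (by push_cast; omega)]
      simp
    have := hx (n + 1)
    rw [Q_top n (by omega), h0] at this
    linarith
  obtain ⟨j, hj⟩ : ∃ j : ℕ, x = (n : ℤ) - 1 - 2 * j :=
    ⟨(((n : ℤ) - 1 - x) / 2).toNat, by omega⟩
  have hxr : (x : ℝ) = (n : ℝ) - 1 - 2 * j := by rw [hj]; push_cast; ring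
  have g1 := hN0 n (by omega) j (by rw [← hxr, abs_le]; constructor <;> linarith)
  have g2 := hN0 (n + 1) (by omega) (j + 1) (by
    push_cast
    rw [show (n : ℝ) + 1 - 1 - 2 * (j + 1) - (n + 1) / Real.sqrt 2
      = (x : ℝ) - 1 - (n + 1) / Real.sqrt 2 by rw [hxr]; ring, abs_le]
    constructor <;> linarith)
  have h1 := hx ((n : ℤ) - 1 - 2 * ((j + 1 : ℕ) : ℤ))
  rw [hj, Q_B, Q_B] at h1
  nlinarith [g1.1, g1.2, g2.1, g2.2]

end Pool.Agent.Q207.Feyn
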