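import Mathlib

set_option autoImplicit false

open MeasureTheory Set Filter ComplexConjugate
open scoped ENNReal Topology ContDiff

namespace Pool.Agent.Q207.Jell

/-- three-dimensional Euclidean space -/
abbrev E3 := EuclideanSpace ℝ (Fin 3)

/-- configurations of `N` particles -/
abbrev Config (N : ℕ) := Fin N → E3

/-- `Λ^N` -/
def box (Λ : Set E3) (N : ℕ) : Set (Config N) := {X | ∀ i, X i ∈ Λ}

/-- `φ(x) = ∫_Λ |x - y|⁻¹ dy` -/
noncomputable def phi (Λ : Set E3) (x : E3) : ℝ := ∫ y in Λ, ‖x - y‖⁻¹

/-- The potential energy `U` of the jellium in `Λ` with background density `ρ`. -/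
noncomputable def U (ρ : ℝ) (Λ : Set E3) {N : ℕ} (X : Config N) : ℝ :=
  (∑ i, ∑ j ∈ Finset.univ.filter (fun j => i < j), ‖X i - X j‖⁻¹)
    - ρ * (∑ i, phi Λ (X i)) + 1 / 2 * ρ ^ 2 * ∫ x in Λ, phi Λ x

/-- The statistics. -/
inductive Stat
  | boson
  | fermion

/-- The character of the symmetric group: trivial for bosons, the signature for fermions. -/
def Stat.char (s : Stat) {N : ℕ} (π : Equiv.Perm (Fin N)) : ℂ :=
  match s with
  | boson => 1
  | fermion => ((Equiv.Perm.sign π : ℤ) : ℂ)

/-- The function `ψ` belongs to the form domain of the Neumann Hamiltonian on the symmetric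
(bosons) or antisymmetric (fermions) subspace of `L²(Λ^N)`, and `g` is its weak gradient: `ψ` lies
in the Sobolev space `H¹(Λ^N)`, `g i a` being the weak derivative in the coordinate `a` of particle
`i`. The last condition (finite potential energy) is automatic for `ψ ∈ H¹`. -/
structure InFormDomain (s : Stat) (ρ : ℝ) (Λ : Set E3) (N : ℕ) (ψ : Config N → ℂ)
    (g : Fin N → Fin 3 → Config N → ℂ) : Prop where
  memL2 : MemLp ψ 2 (volume.restrict (box Λ N))
  gradL2 : ∀ i a, MemLp (g i a) 2 (volume.restrict (box Λ N))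
  weak : ∀ i a, ∀ η : Config N → ℂ, ContDiff ℝ ∞ η → HasCompactSupport η →
    tsupport η ⊆ box Λ N →
    ∫ X in box Λ N, ψ X * fderiv ℝ η X (Pi.single i (EuclideanSpace.single a (1 : ℝ)))
      = - ∫ X in box Λ N, g i a X * η X
  symm : ∀ π : Equiv.Perm (Fin N), ∀ᵐ X ∂(volume.restrict (box Λ N)),
    ψ (X ∘ π) = s.char π * ψ X
  pot : Integrable (fun X => U ρ Λ X * ‖ψ X‖ ^ 2) (volume.restrict (box Λ N))

/-- The quadratic form of the Hamiltonian `-½ ∑ Δ_i + U` with Neumann conditions. -/
noncomputable def energy (ρ : ℝ) (Λ : Set E3) {N : ℕ} (ψ : Config N → ℂ)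
    (g : Fin N → Fin 3 → Config N → ℂ) : ℝ :=
  1 / 2 * (∑ i, ∑ a, ∫ X in box Λ N, ‖g i a X‖ ^ 2) + ∫ X in box Λ N, U ρ Λ X * ‖ψ X‖ ^ 2

/-- The `k`-th eigenvalue of the Neumann Hamiltonian, counted with multiplicity (`k = 1` is the
ground state), by the min-max principle: the infimum over orthonormal families of length `k` in the
form domain of the maximum of the form over the unit vectors in their span. -/
noncomputable def eig (s : Stat) (ρ : ℝ) (Λ : Set E3) (N k : ℕ) : EReal :=
  ⨅ (ψ : Fin k → Config N → ℂ) (g : Fin k → Fin N → Fin 3 → Config N → ℂ)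
    (_ : ∀ a, InFormDomain s ρ Λ N (ψ a) (g a))
    (_ : ∀ a b, ∫ X in box Λ N, conj (ψ a X) * ψ b X = if a = b then 1 else 0),
    ⨆ (c : Fin k → ℂ) (_ : ∑ a, ‖c a‖ ^ 2 = 1),
      ((energy ρ Λ (fun X => ∑ a, c a * ψ a X) (fun i b X => ∑ a, c a * g a i b X) : ℝ) : EReal)

/-- `Tr exp (-β H)`, the sum of `exp (-β E)` over the eigenvalues. -/
noncomputable def partition (s : Stat) (β ρ : ℝ) (Λ : Set E3) (N : ℕ) : ℝ≥0∞ :=
  ∑' k : ℕ, EReal.exp (-((β : EReal) * eig s ρ Λ N (k + 1)))

/-- `g^N(Λ) = |Λ|⁻¹ ln Tr exp (-β H)` for `N` particles. -/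
noncomputable def gN (s : Stat) (β ρ : ℝ) (Λ : Set E3) (N : ℕ) : EReal :=
  ENNReal.log (partition s β ρ Λ N) / ((volume.real Λ : ℝ) : EReal)

/-! ### A lower bound for the trace from disjoint rooms -/

theorem char_mul (s : Stat) {N : ℕ} (π τ : Equiv.Perm (Fin N)) :
    s.char (π * τ) = s.char π * s.char τ := by
  cases s
  · simp [Stat.char]
  · simp only [Stat.char, Equiv.Perm.sign_mul]
    push_cast
    rfl

theorem char_sq (s : Stat) {N : ℕ} (π : Equiv.Perm (Fin N)) : conj (s.char π) * s.char π = 1 := by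
  cases s
  · simp [Stat.char]
  · simp only [Stat.char]
    rcases Int.units_eq_one_or (Equiv.Perm.sign π) with h | h <;> rw [h] <;> simp

theorem char_norm (s : Stat) {N : ℕ} (π : Equiv.Perm (Fin N)) : ‖s.char π‖ = 1 := by
  cases s
  · simp [Stat.char]
  · simp only [Stat.char]
    rcases Int.units_eq_one_or (Equiv.Perm.sign π) with h | h <;> rw [h] <;> simp

theorem char_inv (s : Stat) {N : ℕ} (π : Equiv.Perm (Fin N)) : s.char π⁻¹ = s.char π := by
  cases s
  · simp [Stat.char]
  · simp only [Stat.char, Equiv.Perm.sign_inv]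

/-- Rooms: `j` clusters of `M` rooms. -/
structure Rooms (ρ : ℝ) (Λ : Set E3) (j M : ℕ) (B : Fin j → Fin M → Set E3) (v C C' : ℝ) :
    Prop where
  hΛ : MeasurableSet Λ
  opn : ∀ i r, IsOpen (B i r)
  sub : ∀ i r, B i r ⊆ Λ
  compl : ∀ i r, IsOpen (Λ \ B i r)
  disj : ∀ i r i' r', ∀ x, x ∈ B i r → x ∈ B i' r' → i = i' ∧ r = r'
  vol : ∀ i r, volume (B i r) = ENNReal.ofReal v
  vpos : 0 < v
  Umeas : Measurable (U ρ Λ (N := j))
  Ule : ∀ (f : Fin j → Fin M) (π : Equiv.Perm (Fin j)) (X : Config j),
    (∀ i, X (π i) ∈ B i (f i)) → U ρ Λ X ≤ C ∧ |U ρ Λ X| ≤ C'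

section

variable {ρ : ℝ} {Λ : Set E3} {j M : ℕ} {B : Fin j → Fin M → Set E3} {v C C' : ℝ}

/-- product cells -/
def cell (B : Fin j → Fin M → Set E3) (f : Fin j → Fin M) (π : Equiv.Perm (Fin j)) :
    Set (Config j) := {X | ∀ i, X (π i) ∈ B i (f i)}

/-- the union of the cells -/
def cells (B : Fin j → Fin M → Set E3) : Set (Config j) :=
  {X | ∃ f π, X ∈ cell B f π}

theorem cell_eq (B : Fin j → Fin M → Set E3) (f : Fin j → Fin M) (π : Equiv.Perm (Fin j)) :
    cell B f π = Set.pi univ fun k => B (π.symm k) (f (π.symm k)) := by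
  ext X
  constructor
  · intro h k _
    have := h (π.symm k)
    rwa [Equiv.apply_symm_apply] at this
  · intro h i
    have := h (π i) (Set.mem_univ _)
    simpa only [Equiv.symm_apply_apply] using this

variable (h : Rooms ρ Λ j M B v C C')
include h

theorem cell_open (f : Fin j → Fin M) (π : Equiv.Perm (Fin j)) : IsOpen (cell B f π) := by
  rw [cell_eq]
  exact isOpen_set_pi finite_univ fun k _ => h.opn _ _

theorem cell_volume (f : Fin j → Fin M) (π : Equiv.Perm (Fin j)) :
    volume (cell B f π) = ENNReal.ofReal (v ^ j) := by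
  rw [cell_eq, volume_pi_pi]
  simp only [h.vol, Finset.prod_const, Finset.card_univ, Fintype.card_fin]
  rw [ENNReal.ofReal_pow h.vpos.le]

theorem cell_unique {f g : Fin j → Fin M} {π σ : Equiv.Perm (Fin j)} {X : Config j}
    (h1 : X ∈ cell B f π) (h2 : X ∈ cell B g σ) : f = g ∧ π = σ := by
  have key : ∀ i, σ.symm (π i) = i ∧ f i = g (σ.symm (π i)) := by
    intro i
    have a1 := h1 i
    have a2 := h2 (σ.symm (π i))
    rw [Equiv.apply_symm_apply] at a2
    have := h.disj _ _ _ _ _ a1 a2
    exact ⟨this.1.symm, this.2⟩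
  constructor
  · funext i
    have := key i
    rw [this.1] at this
    exact this.2
  · ext i
    have := (key i).1
    rw [Equiv.symm_apply_eq] at this
    rw [this]

theorem cell_sub (f : Fin j → Fin M) (π : Equiv.Perm (Fin j)) : cell B f π ⊆ box Λ j := by
  intro X hX k
  have := hX (π.symm k)
  rw [Equiv.apply_symm_apply] at this
  exact h.sub _ _ this

/-- cells are relatively closed in the box -/
theorem cell_compl (f : Fin j → Fin M) (π : Equiv.Perm (Fin j)) {X : Config j}
    (hX : X ∈ box Λ j) (hXc : X ∉ cell B f π) : ∀ᶠ Y in 𝓝 X, Y ∉ cell B f π := by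
  simp only [cell, mem_ofPred_eq, not_forall] at hXc
  obtain ⟨i, hi⟩ := hXc
  have hopen : IsOpen {Y : Config j | Y (π i) ∈ Λ \ B i (f i)} :=
    (h.compl i (f i)).preimage (continuous_apply (π i))
  have hmem : X ∈ {Y : Config j | Y (π i) ∈ Λ \ B i (f i)} := ⟨hX (π i), hi⟩
  filter_upwards [hopen.mem_nhds hmem] with Y hY hYc
  exact hY.2 (hYc i)

theorem cells_measurable : MeasurableSet (cells B) := by
  have : cells B = ⋃ f, ⋃ π, cell B f π := by
    ext X; simp [cells]
  rw [this]
  exact MeasurableSet.iUnion fun f => MeasurableSet.iUnion fun π => (cell_open h f π).measurableSet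

theorem cells_finite : volume (cells B) ≠ ⊤ := by
  have : cells B = ⋃ f, ⋃ π, cell B f π := by
    ext X; simp [cells]
  rw [this]
  apply ne_of_lt
  refine (measure_iUnion_le _).trans_lt ?_
  rw [tsum_fintype]
  refine ENNReal.sum_lt_top.2 fun f _ => (measure_iUnion_le _).trans_lt ?_
  rw [tsum_fintype]
  refine ENNReal.sum_lt_top.2 fun π _ => ?_
  rw [cell_volume h]
  exact ENNReal.ofReal_lt_top

omit h in
/-- functions living on the cells and locally constant on the box -/
structure Nice (Λ : Set E3) (B : Fin j → Fin M → Set E3) (Ψ : Config j → ℂ) : Prop where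
  meas : Measurable Ψ
  bdd : ∃ b, ∀ X, ‖Ψ X‖ ≤ b
  supp : ∀ X, X ∉ cells B → Ψ X = 0
  loc : ∀ X ∈ box Λ j, ∀ᶠ Y in 𝓝 X, Ψ Y = Ψ X

omit h in
theorem Nice.sum {k : ℕ} {Ψ : Fin k → Config j → ℂ} (hΨ : ∀ a, Nice Λ B (Ψ a)) (c : Fin k → ℂ) :
    Nice Λ B (fun X => ∑ a, c a * Ψ a X) := by
  refine ⟨?_, ?_, ?_, ?_⟩
  · exact Finset.measurable_sum _ fun a _ => (hΨ a).meas.const_mul _
  · choose b hb using fun a => (hΨ a).bdd
    refine ⟨∑ a, ‖c a‖ * b a, fun X => (norm_sum_le _ _).trans ?_⟩
    refine Finset.sum_le_sum fun a _ => ?_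
    rw [norm_mul]
    exact mul_le_mul_of_nonneg_left (hb a X) (norm_nonneg _)
  · intro X hX
    exact Finset.sum_eq_zero fun a _ => by rw [(hΨ a).supp X hX, mul_zero]
  · intro X hX
    have : ∀ᶠ Y in 𝓝 X, ∀ a, Ψ a Y = Ψ a X := eventually_all.2 fun a => (hΨ a).loc X hX
    filter_upwards [this] with Y hY
    exact Finset.sum_congr rfl fun a _ => by rw [hY a]

theorem Nice.memLp {Ψ : Config j → ℂ} (hΨ : Nice Λ B Ψ) (p : ℝ≥0∞) :
    MemLp Ψ p (volume.restrict (box Λ j)) := by
  obtain ⟨b, hb⟩ := hΨ.bdd
  have h1 : MemLp Ψ p (volume : Measure (Config j)) := by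
    have e : Ψ = (cells B).indicator Ψ := by
      funext X
      by_cases hX : X ∈ cells B
      · rw [indicator_of_mem hX]
      · rw [indicator_of_notMem hX, hΨ.supp X hX]
    rw [e, memLp_indicator_iff_restrict (cells_measurable h)]
    have : IsFiniteMeasure (volume.restrict (cells B)) :=
      ⟨by rw [Measure.restrict_apply_univ]; exact (cells_finite h).lt_top⟩
    exact MemLp.of_bound hΨ.meas.aestronglyMeasurable b (Eventually.of_forall hb)
  exact h1.restrict _

omit h in
theorem Nice.weak {Ψ : Config j → ℂ} (hΨ : Nice Λ B Ψ) (w : Config j) (η : Config j → ℂ)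
    (hη : ContDiff ℝ ∞ η) (hc : HasCompactSupport η) (hs : tsupport η ⊆ box Λ j) :
    ∫ X in box Λ j, Ψ X * fderiv ℝ η X w = 0 := by
  have hη1 : Differentiable ℝ η := hη.differentiable (by simp)
  have hcont : Continuous (fderiv ℝ η) := hη.continuous_fderiv (by simp)
  -- derivative of `Ψ` vanishes on the support of `η`
  have hd : ∀ X ∈ box Λ j, HasFDerivAt Ψ (0 : Config j →L[ℝ] ℂ) X := by
    intro X hX
    have : Ψ =ᶠ[𝓝 X] fun _ => Ψ X := hΨ.loc X hX
    exact (hasFDerivAt_const (Ψ X) X).congr_of_eventuallyEq this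
  have hz : ∀ X, X ∉ box Λ j → Ψ X * fderiv ℝ η X w = 0 := by
    intro X hX
    have : fderiv ℝ η X = 0 := by
      have : X ∉ tsupport (fderiv ℝ η) := fun h' => hX (hs (tsupport_fderiv_subset ℝ h'))
      exact image_eq_zero_of_notMem_tsupport this
    rw [this]
    simp
  rw [setIntegral_eq_integral_of_forall_compl_eq_zero hz]
  have hzero : ∀ X, fderiv ℝ Ψ X w * η X = 0 := by
    intro X
    by_cases hX : X ∈ tsupport η
    · rw [(hd X (hs hX)).fderiv]
      simp
    · rw [image_eq_zero_of_notMem_tsupport hX, mul_zero]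
  obtain ⟨b, hb⟩ := hΨ.bdd
  have hi : ∀ (f : Config j → ℂ), Continuous f → HasCompactSupport f →
      Integrable fun X => Ψ X * f X := by
    intro f hf hfc
    exact (hf.integrable_of_hasCompactSupport hfc).bdd_mul hΨ.meas.aestronglyMeasurable
      (Eventually.of_forall hb)
  have key := integral_mul_fderiv_eq_neg_fderiv_mul_of_integrable (μ := (volume : Measure (Config j)))
    (f := Ψ) (g := η) (v := w) ?_ ?_ ?_ ?_ ?_
  · rw [key]
    simp [hzero]
  · simp only [hzero]
    exact integrable_zero _ _ _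
  · exact hi _ (hcont.clm_apply continuous_const)
      (hc.fderiv_apply (𝕜 := ℝ) w)
  · exact hi _ hη.continuous hc
  · exact fun X hX => (hd X (hs hX)).differentiableAt
  · exact fun X _ => hη1 X

theorem Nice.pot {Ψ : Config j → ℂ} (hΨ : Nice Λ B Ψ) :
    Integrable (fun X => U ρ Λ X * ‖Ψ X‖ ^ 2) (volume.restrict (box Λ j)) := by
  have hb := h.Ule
  have h2 : Integrable (fun X => ‖Ψ X‖ ^ 2) (volume.restrict (box Λ j)) :=
    (hΨ.memLp h 2).integrable_norm_pow (by norm_num)
  refine Integrable.mono (h2.const_mul C') ?_ ?_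
  · exact (h.Umeas.mul (hΨ.meas.norm.pow_const 2)).aestronglyMeasurable
  · refine Eventually.of_forall fun X => ?_
    by_cases hX : X ∈ cells B
    · obtain ⟨f, π, hfπ⟩ := hX
      have := (hb f π X hfπ).2
      rw [norm_mul, norm_mul, Real.norm_eq_abs]
      refine mul_le_mul_of_nonneg_right (this.trans (le_abs_self _)) (norm_nonneg _)
    · rw [hΨ.supp X hX]
      simp

theorem Nice.energy_le {Ψ : Config j → ℂ} (hΨ : Nice Λ B Ψ) :
    energy ρ Λ Ψ (fun _ _ _ => 0) ≤ C * ∫ X in box Λ j, ‖Ψ X‖ ^ 2 := by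
  unfold energy
  simp only [norm_zero, ne_eq, OfNat.ofNat_ne_zero, not_false_eq_true, zero_pow, integral_zero,
    Finset.sum_const_zero, mul_zero, zero_add]
  rw [← integral_const_mul]
  refine integral_mono (hΨ.pot h) (((hΨ.memLp h 2).integrable_norm_pow (by norm_num)).const_mul C)
    fun X => ?_
  by_cases hX : X ∈ cells B
  · obtain ⟨f, π, hfπ⟩ := hX
    have := (h.Ule f π X hfπ).1
    exact mul_le_mul_of_nonneg_right this (by positivity)
  · simp [hΨ.supp X hX]

omit h in
/-- the trial functions -/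
noncomputable def trial (s : Stat) (B : Fin j → Fin M → Set E3) (a : ℝ) (f : Fin j → Fin M)
    (X : Config j) : ℂ :=
  a * ∑ π : Equiv.Perm (Fin j), s.char π * (cell B f π).indicator (fun _ => (1 : ℂ)) X

theorem trial_eq (s : Stat) (a : ℝ) (f g : Fin j → Fin M) (π : Equiv.Perm (Fin j)) {X : Config j}
    (hX : X ∈ cell B g π) : trial s B a f X = if f = g then a * s.char π else 0 := by
  unfold trial
  by_cases hfg : f = g
  · subst hfg
    rw [if_pos rfl, Finset.sum_eq_single π]
    · rw [indicator_of_mem hX, mul_one]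
    · intro σ _ hσ
      rw [indicator_of_notMem, mul_zero]
      intro h'
      exact hσ (cell_unique h h' hX).2
    · intro h'; exact absurd (Finset.mem_univ _) h'
  · rw [if_neg hfg, Finset.sum_eq_zero, mul_zero]
    intro σ _
    rw [indicator_of_notMem, mul_zero]
    intro h'
    exact hfg (cell_unique h h' hX).1

theorem trial_nice (s : Stat) (a : ℝ) (f : Fin j → Fin M) : Nice Λ B (trial s B a f) := by
  refine ⟨?_, ?_, ?_, ?_⟩
  · unfold trial
    refine Measurable.const_mul (Finset.measurable_sum _ fun π _ => Measurable.const_mul ?_ _) _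
    exact measurable_const.indicator (cell_open h f π).measurableSet
  · refine ⟨|a|, fun X => ?_⟩
    by_cases hX : X ∈ cells B
    · obtain ⟨g, π, hg⟩ := hX
      rw [trial_eq h s a f g π hg]
      split_ifs
      · rw [norm_mul, char_norm]
        simp
      · simp
    · have : trial s B a f X = 0 := by
        unfold trial
        rw [Finset.sum_eq_zero, mul_zero]
        intro σ _
        rw [indicator_of_notMem, mul_zero]
        intro h'
        exact hX ⟨f, σ, h'⟩
      rw [this]
      simp
  · intro X hX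
    unfold trial
    rw [Finset.sum_eq_zero, mul_zero]
    intro σ _
    rw [indicator_of_notMem, mul_zero]
    intro h'
    exact hX ⟨f, σ, h'⟩
  · intro X hX
    have : ∀ᶠ Y in 𝓝 X, ∀ π : Equiv.Perm (Fin j),
        (cell B f π).indicator (fun _ => (1 : ℂ)) Y = (cell B f π).indicator (fun _ => (1 : ℂ)) X := by
      refine eventually_all.2 fun π => ?_
      by_cases hXc : X ∈ cell B f π
      · filter_upwards [(cell_open h f π).mem_nhds hXc] with Y hY
        rw [indicator_of_mem hY, indicator_of_mem hXc]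
      · filter_upwards [cell_compl h f π hX hXc] with Y hY
        rw [indicator_of_notMem hY, indicator_of_notMem hXc]
    filter_upwards [this] with Y hY
    unfold trial
    simp only [hY]

omit h in
theorem trial_symm (s : Stat) (a : ℝ) (f : Fin j → Fin M) (τ : Equiv.Perm (Fin j)) (X : Config j) :
    trial s B a f (X ∘ τ) = s.char τ * trial s B a f X := by
  unfold trial
  have h1 : ∀ π : Equiv.Perm (Fin j), (cell B f π).indicator (fun _ => (1 : ℂ)) (X ∘ τ)
      = (cell B f (τ * π)).indicator (fun _ => (1 : ℂ)) X := by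
    intro π
    by_cases hX : X ∈ cell B f (τ * π)
    · rw [indicator_of_mem hX, indicator_of_mem]
      exact fun i => hX i
    · rw [indicator_of_notMem hX, indicator_of_notMem]
      exact fun h' => hX fun i => h' i
  simp only [h1]
  have h2 : ∀ π : Equiv.Perm (Fin j), s.char π = s.char τ * s.char (τ * π) := by
    intro π
    rw [char_mul, ← mul_assoc, ← char_inv s τ]
    have := char_sq s τ
    rw [char_inv]
    have h3 : s.char τ * s.char τ = 1 := by
      rw [← char_mul]
      cases s
      · simp [Stat.char]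
      · simp [Stat.char]
    rw [h3, one_mul]
  have h3 : ∑ π : Equiv.Perm (Fin j), s.char π *
      (cell B f (τ * π)).indicator (fun _ => (1 : ℂ)) X
      = s.char τ * ∑ π : Equiv.Perm (Fin j), s.char (τ * π) *
      (cell B f (τ * π)).indicator (fun _ => (1 : ℂ)) X := by
    rw [Finset.mul_sum]
    refine Finset.sum_congr rfl fun π _ => ?_
    conv_lhs => rw [h2 π]
    ring
  have h4 := Equiv.sum_comp (Equiv.mulLeft τ) fun π => s.char π *
    (cell B f π).indicator (fun _ => (1 : ℂ)) X
  simp only [Equiv.coe_mulLeft] at h4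
  rw [h3, h4]
  ring

theorem trial_inner (s : Stat) (f g : Fin j → Fin M) :
    ∫ X in box Λ j, conj (trial s B (Real.sqrt ((j.factorial * v ^ j))⁻¹) f X)
      * trial s B (Real.sqrt ((j.factorial * v ^ j))⁻¹) g X = if f = g then 1 else 0 := by
  set a := Real.sqrt ((j.factorial * v ^ j))⁻¹ with ha
  have hv := h.vpos
  have hp : ∀ X, conj (trial s B a f X) * trial s B a g X
      = ∑ π : Equiv.Perm (Fin j), (cell B f π).indicator
        (fun _ => if f = g then ((a ^ 2 : ℝ) : ℂ) else 0) X := by
    intro X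
    by_cases hX : X ∈ cells B
    · obtain ⟨k, π, hk⟩ := hX
      rw [trial_eq h s a f k π hk, trial_eq h s a g k π hk]
      by_cases hf : f = k
      · subst hf
        rw [if_pos rfl, Finset.sum_eq_single π]
        · rw [indicator_of_mem hk]
          by_cases hg : g = f
          · subst hg
            rw [if_pos rfl, if_pos rfl, map_mul, Complex.conj_ofReal]
            have := char_sq s π
            calc (a : ℂ) * conj (s.char π) * (a * s.char π)
                = a * a * (conj (s.char π) * s.char π) := by ring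
              _ = ((a ^ 2 : ℝ) : ℂ) := by rw [this]; push_cast; ring
          · rw [if_neg hg, if_neg (fun h' => hg h'.symm), mul_zero]
        · intro σ _ hσ
          rw [indicator_of_notMem]
          intro h'
          exact hσ (cell_unique h h' hk).2
        · intro h'; exact absurd (Finset.mem_univ _) h'
      · rw [if_neg hf, map_zero, zero_mul, Finset.sum_eq_zero]
        intro σ _
        rw [indicator_of_notMem]
        intro h'
        exact hf (cell_unique h h' hk).1
    · rw [(trial_nice h s a f).supp X hX, map_zero, zero_mul, Finset.sum_eq_zero]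
      intro σ _
      rw [indicator_of_notMem]
      intro h'
      exact hX ⟨f, σ, h'⟩
  simp only [hp]
  rw [integral_finsetSum]
  · have hc : ∀ π : Equiv.Perm (Fin j), ∫ X in box Λ j, (cell B f π).indicator
        (fun _ => if f = g then ((a ^ 2 : ℝ) : ℂ) else 0) X
        = (v ^ j : ℝ) * if f = g then ((a ^ 2 : ℝ) : ℂ) else 0 := by
      intro π
      rw [integral_indicator (cell_open h f π).measurableSet, setIntegral_const,
        measureReal_restrict_apply (cell_open h f π).measurableSet,
        inter_eq_left.2 (cell_sub h f π)]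
      simp only [Measure.real, cell_volume h]
      rw [ENNReal.toReal_ofReal (by positivity), Complex.real_smul]
    simp only [hc]
    rw [Finset.sum_const, Finset.card_univ, Fintype.card_perm, Fintype.card_fin, nsmul_eq_mul]
    split_ifs
    · have ha2 : a ^ 2 = (j.factorial * v ^ j)⁻¹ := by
        rw [ha, Real.sq_sqrt (by positivity)]
      rw [ha2]
      have hne : (j.factorial : ℂ) * (v : ℂ) ^ j ≠ 0 := by
        have : ((j.factorial : ℝ) * v ^ j) ≠ 0 := by positivity
        exact_mod_cast this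
      push_cast
      rw [← mul_assoc, mul_inv_cancel₀ hne]
    · simp
  · intro π _
    refine IntegrableOn.integrable_indicator ?_ (cell_open h f π).measurableSet
    refine integrableOn_const (ne_of_lt ?_)
    refine (Measure.restrict_apply_le _ _).trans_lt ?_
    rw [cell_volume h]
    exact ENNReal.ofReal_lt_top

/-- the first `M ^ j` eigenvalues are at most `C` -/
theorem eig_le (s : Stat) (k : ℕ) (hk : k ≤ M ^ j) : eig s ρ Λ j k ≤ ((C : ℝ) : EReal) := by
  obtain ⟨e⟩ : Nonempty (Fin k ↪ (Fin j → Fin M)) := by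
    apply Function.Embedding.nonempty_of_card_le
    simpa using hk
  set a := Real.sqrt ((j.factorial * v ^ j))⁻¹ with ha
  have hn : ∀ b : Fin k, Nice Λ B (trial s B a (e b)) := fun b => trial_nice h s a (e b)
  have hbox : MeasurableSet (box Λ j) := by
    have : box Λ j = Set.pi univ fun _ => Λ := by
      ext X; simp [box]
    rw [this]
    exact MeasurableSet.univ_pi fun _ => h.hΛ
  have hdom : ∀ b : Fin k, InFormDomain s ρ Λ j (trial s B a (e b)) (fun _ _ _ => 0) := by
    intro b
    refine ⟨(hn b).memLp h 2, fun _ _ => MemLp.zero', ?_, ?_, (hn b).pot h⟩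
    · intro i c η h1 h2 h3
      rw [(hn b).weak _ η h1 h2 h3]
      simp
    · intro π
      exact Eventually.of_forall fun X => trial_symm s a (e b) π X
  have horth : ∀ b c : Fin k, ∫ X in box Λ j, conj (trial s B a (e b) X) * trial s B a (e c) X
      = if b = c then 1 else 0 := by
    intro b c
    rw [ha, trial_inner h s (e b) (e c)]
    simp [e.injective.eq_iff]
  refine iInf_le_of_le (fun b => trial s B a (e b)) ?_
  refine iInf_le_of_le (fun _ _ _ _ => 0) ?_
  refine iInf_le_of_le hdom ?_
  refine iInf_le_of_le horth ?_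
  refine iSup₂_le fun c hc => ?_
  rw [EReal.coe_le_coe_iff]
  have hΨ : Nice Λ B (fun X => ∑ b, c b * trial s B a (e b) X) := Nice.sum hn c
  have hE := hΨ.energy_le h
  have e0 : (fun (i : Fin j) (b : Fin 3) (X : Config j) => ∑ a : Fin k, c a * (0 : ℂ))
      = fun _ _ _ => 0 := by
    funext i b X
    simp
  rw [e0]
  refine hE.trans (le_of_eq ?_)
  have hnorm : ∫ X in box Λ j, ‖∑ b, c b * trial s B a (e b) X‖ ^ 2 = 1 := by
    have h1 : ((∫ X in box Λ j, ‖∑ b, c b * trial s B a (e b) X‖ ^ 2 : ℝ) : ℂ)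
        = ∑ b, ∑ d, conj (c b) * c d *
          ∫ X in box Λ j, conj (trial s B a (e b) X) * trial s B a (e d) X := by
      have hint : ∀ b d : Fin k, Integrable
          (fun X => conj (trial s B a (e b) X) * trial s B a (e d) X)
          (volume.restrict (box Λ j)) := by
        intro b d
        obtain ⟨bd, hbd⟩ := (hn b).bdd
        refine (memLp_one_iff_integrable.1 ((hn d).memLp h 1)).bdd_mul (c := bd) ?_ ?_
        · exact (Complex.continuous_conj.measurable.comp (hn b).meas).aestronglyMeasurable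
        · exact Eventually.of_forall fun X => by rw [RCLike.norm_conj]; exact hbd X
      have hpt : ∀ X, ((‖∑ b, c b * trial s B a (e b) X‖ ^ 2 : ℝ) : ℂ)
          = ∑ b, ∑ d, conj (c b) * c d * (conj (trial s B a (e b) X) * trial s B a (e d) X) := by
        intro X
        rw [← Complex.normSq_eq_norm_sq, ← Complex.mul_conj, mul_comm, map_sum,
          Finset.sum_mul_sum]
        refine Finset.sum_congr rfl fun b _ => Finset.sum_congr rfl fun d _ => ?_
        rw [map_mul]
        ring
      have hpt2 : (fun X => (((‖∑ b, c b * trial s B a (e b) X‖ ^ 2 : ℝ)) : ℂ))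
          = fun X => ∑ b, ∑ d, conj (c b) * c d *
            (conj (trial s B a (e b) X) * trial s B a (e d) X) := funext hpt
      rw [← integral_complex_ofReal, hpt2]
      rw [integral_finsetSum]
      · refine Finset.sum_congr rfl fun b _ => ?_
        rw [integral_finsetSum]
        · refine Finset.sum_congr rfl fun d _ => ?_
          rw [integral_const_mul]
        · exact fun d _ => (hint b d).const_mul _
      · exact fun b _ => integrable_finsetSum _ fun d _ => (hint b d).const_mul _
    have h2 : ((∫ X in box Λ j, ‖∑ b, c b * trial s B a (e b) X‖ ^ 2 : ℝ) : ℂ) = 1 := by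
      rw [h1]
      simp only [horth, mul_ite, mul_one, mul_zero, Finset.sum_ite_eq, Finset.mem_univ, if_true]
      have : ∀ b, conj (c b) * c b = ((‖c b‖ ^ 2 : ℝ) : ℂ) := by
        intro b
        rw [mul_comm, Complex.mul_conj, Complex.normSq_eq_norm_sq]
      simp only [this]
      rw [← Complex.ofReal_sum, hc, Complex.ofReal_one]
    exact_mod_cast h2
  rw [hnorm, mul_one]

/-- lower bound for the partition function -/
theorem partition_ge (s : Stat) (β : ℝ) (hβ : 0 < β) :
    ENNReal.ofReal ((M : ℝ) ^ j * Real.exp (-(β * C))) ≤ partition s β ρ Λ j := by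
  have h1 : ∀ k ∈ Finset.range (M ^ j), ENNReal.ofReal (Real.exp (-(β * C))) ≤
      EReal.exp (-((β : EReal) * eig s ρ Λ j (k + 1))) := by
    intro k hk
    have h2 := eig_le h s (k + 1) (Finset.mem_range.1 hk)
    have h3 : ((-(β * C) : ℝ) : EReal) ≤ -((β : EReal) * eig s ρ Λ j (k + 1)) := by
      rw [EReal.coe_neg, EReal.coe_mul]
      apply EReal.neg_le_neg_iff.2
      exact mul_le_mul_of_nonneg_left h2 (by exact_mod_cast hβ.le)
    calc ENNReal.ofReal (Real.exp (-(β * C))) = EReal.exp ((-(β * C) : ℝ) : EReal) := rfl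
      _ ≤ _ := EReal.exp_monotone h3
  calc ENNReal.ofReal ((M : ℝ) ^ j * Real.exp (-(β * C)))
      = ∑ k ∈ Finset.range (M ^ j), ENNReal.ofReal (Real.exp (-(β * C))) := by
        rw [Finset.sum_const, Finset.card_range, nsmul_eq_mul, ENNReal.ofReal_mul (by positivity)]
        congr 1
        rw [← ENNReal.ofReal_natCast]
        push_cast
        rfl
    _ ≤ ∑ k ∈ Finset.range (M ^ j), EReal.exp (-((β : EReal) * eig s ρ Λ j (k + 1))) :=
        Finset.sum_le_sum h1
    _ ≤ _ := ENNReal.sum_le_tsum _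

theorem gN_ge (s : Stat) (β : ℝ) (hβ : 0 < β) (hM : 0 < M) (hvol : 0 < volume.real Λ) :
    (((j * Real.log M - β * C) / volume.real Λ : ℝ) : EReal) ≤ gN s β ρ Λ j := by
  unfold gN
  have h1 := ENNReal.log_monotone (partition_ge h s β hβ)
  have hM' : (0 : ℝ) < M := by exact_mod_cast hM
  rw [ENNReal.log_ofReal_of_pos (by positivity), Real.log_mul (by positivity) (by positivity),
    Real.log_pow, Real.log_exp] at h1
  rw [EReal.coe_div]
  apply EReal.div_le_div_right_of_nonneg
  · exact_mod_cast hvol.le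
  · have e : (j * Real.log M - β * C : ℝ) = j * Real.log M + -(β * C) := by ring
    rw [e]
    exact h1

end

end Pool.Agent.Q207.Jell
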