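import Pool.Agent.Q207.JellGeo

set_option autoImplicit false

open MeasureTheory Set Filter ComplexConjugate
open scoped ENNReal Topology ContDiff

namespace Pool.Agent.Q207.Jell

/-- a unit vector -/
noncomputable def e1 : E3 := EuclideanSpace.single 0 1

theorem norm_e1 : ‖e1‖ = 1 := by simp [e1]

theorem norm_smul_e1 (a b : ℝ) : ‖a • e1 - b • e1‖ = |a - b| := by
  rw [← sub_smul, norm_smul, norm_e1, mul_one, Real.norm_eq_abs]

/-- position of the rooms on the axis -/
noncomputable def tt (R : ℝ) (j M : ℕ) (p : Fin j × Fin M) : ℝ :=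
  R + 2 + ((p.1 : ℝ) + (p.2 : ℝ) / (2 * M)) / j

/-- centres -/
noncomputable def ctr (R : ℝ) (j M : ℕ) : Option (Fin j × Fin M) → E3
  | none => 0
  | some p => tt R j M p • e1

/-- radii -/
noncomputable def rad (R ε : ℝ) (j M : ℕ) : Option (Fin j × Fin M) → ℝ
  | none => R
  | some _ => ε

/-- the domain: one big ball and `j M` small ones -/
def dom (R ε : ℝ) (j M : ℕ) : Set E3 := ⋃ a, Metric.ball (ctr R j M a) (rad R ε j M a)

section

variable {R ε : ℝ} {j M : ℕ} (hj : 1 ≤ j) (hM : 1 ≤ M)
include hj hM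

theorem frac_bounds (p : Fin j × Fin M) :
    0 ≤ (p.2 : ℝ) / (2 * M) ∧ (p.2 : ℝ) / (2 * M) ≤ 1 / 2 - 1 / (2 * M) := by
  have hM' : (1 : ℝ) ≤ M := by exact_mod_cast hM
  have hM0 : (0 : ℝ) < M := by linarith
  refine ⟨by positivity, ?_⟩
  have h1 : (p.2 : ℝ) + 1 ≤ M := by exact_mod_cast p.2.2
  rw [div_le_iff₀ (by positivity)]
  have : (1 / 2 - 1 / (2 * (M : ℝ))) * (2 * M) = M - 1 := by field_simp
  rw [this]
  linarith

theorem tt_ge (p : Fin j × Fin M) : R + 2 ≤ tt R j M p := by
  unfold tt
  have := (frac_bounds hj hM p).1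
  have : 0 ≤ ((p.1 : ℝ) + (p.2 : ℝ) / (2 * M)) / j := by positivity
  linarith

theorem tt_le (p : Fin j × Fin M) : tt R j M p ≤ R + 3 := by
  unfold tt
  have hj' : (0 : ℝ) < j := by exact_mod_cast hj
  have h1 := (frac_bounds hj hM p).2
  have h2 : (p.1 : ℝ) + 1 ≤ j := by exact_mod_cast p.1.2
  have h3 : (0 : ℝ) ≤ 1 / (2 * M) := by positivity
  have : ((p.1 : ℝ) + (p.2 : ℝ) / (2 * M)) / j ≤ 1 := by
    rw [div_le_one hj']
    linarith
  linarith

theorem sep_cluster (p q : Fin j × Fin M) (hpq : p.1 ≠ q.1) :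
    1 / (2 * j) ≤ |tt R j M p - tt R j M q| := by
  have hj' : (0 : ℝ) < j := by exact_mod_cast hj
  have e : tt R j M p - tt R j M q
      = (((p.1 : ℝ) - q.1) + ((p.2 : ℝ) / (2 * M) - (q.2 : ℝ) / (2 * M))) / j := by
    unfold tt; ring
  rw [e, abs_div, abs_of_pos hj', div_le_div_iff₀ (by positivity) hj']
  have h1 := frac_bounds hj hM p
  have h2 := frac_bounds hj hM q
  have h3 : (0 : ℝ) ≤ 1 / (2 * M) := by positivity
  have h4 : (1 : ℝ) ≤ |(p.1 : ℝ) - q.1| := by
    have : (1 : ℤ) ≤ |((p.1 : ℕ) : ℤ) - (q.1 : ℕ)| := by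
      apply Int.one_le_abs
      intro h
      apply hpq
      apply Fin.ext
      omega
    exact_mod_cast this
  have h5 : 1 / 2 ≤ |((p.1 : ℝ) - q.1) + ((p.2 : ℝ) / (2 * M) - (q.2 : ℝ) / (2 * M))| := by
    have h6 := abs_sub_abs_le_abs_add ((p.1 : ℝ) - q.1)
      ((p.2 : ℝ) / (2 * M) - (q.2 : ℝ) / (2 * M))
    have h7 : |(p.2 : ℝ) / (2 * M) - (q.2 : ℝ) / (2 * M)| ≤ 1 / 2 := by
      rw [abs_le]; constructor <;> linarith
    linarith
  nlinarith

theorem sep_room (p q : Fin j × Fin M) (hpq : p ≠ q) :
    1 / (2 * M * j) ≤ |tt R j M p - tt R j M q| := by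
  have hj' : (0 : ℝ) < j := by exact_mod_cast hj
  have hM' : (1 : ℝ) ≤ M := by exact_mod_cast hM
  have hM0 : (0 : ℝ) < M := by linarith
  by_cases h : p.1 = q.1
  · have e : tt R j M p - tt R j M q = ((p.2 : ℝ) - q.2) / (2 * M * j) := by
      unfold tt
      rw [h]
      field_simp
      ring
    rw [e, abs_div, abs_of_pos (by positivity : (0 : ℝ) < 2 * M * j)]
    apply div_le_div_of_nonneg_right _ (by positivity)
    have : (1 : ℤ) ≤ |((p.2 : ℕ) : ℤ) - (q.2 : ℕ)| := by
      apply Int.one_le_abs
      intro h'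
      apply hpq
      apply Prod.ext h
      apply Fin.ext
      omega
    exact_mod_cast this
  · refine le_trans ?_ (sep_cluster hj hM p q h)
    apply one_div_le_one_div_of_le (by positivity)
    nlinarith

variable (hR : 0 < R) (hε : 0 < ε) (hε2 : ε ≤ 1 / (8 * M * j))
include hε hε2

theorem eps_le : ε ≤ 1 / 8 ∧ ε ≤ 1 / (8 * j) := by
  have hj' : (1 : ℝ) ≤ j := by exact_mod_cast hj
  have hM' : (1 : ℝ) ≤ M := by exact_mod_cast hM
  constructor
  · refine hε2.trans (one_div_le_one_div_of_le (by norm_num) ?_)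
    nlinarith [mul_le_mul hM' hj' zero_le_one (by linarith : (0:ℝ) ≤ M)]
  · refine hε2.trans (one_div_le_one_div_of_le (by positivity) ?_)
    nlinarith

include hR

theorem dist_ctr (a b : Option (Fin j × Fin M)) (hab : a ≠ b) :
    rad R ε j M a + rad R ε j M b < dist (ctr R j M a) (ctr R j M b) := by
  have h8 := (eps_le hj hM hε hε2).1
  have hj' : (0 : ℝ) < j := by exact_mod_cast hj
  have hM' : (0 : ℝ) < M := by exact_mod_cast hM
  cases a with
  | none =>
    cases b with
    | none => exact absurd rfl hab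
    | some q =>
      have h1 := tt_ge (R := R) hj hM q
      simp only [rad, ctr]
      rw [dist_zero_left, norm_smul, norm_e1, mul_one, Real.norm_of_nonneg (by linarith)]
      linarith
  | some p =>
    cases b with
    | none =>
      have h1 := tt_ge (R := R) hj hM p
      simp only [rad, ctr]
      rw [dist_zero_right, norm_smul, norm_e1, mul_one, Real.norm_of_nonneg (by linarith)]
      linarith
    | some q =>
      simp only [rad, ctr]
      rw [dist_eq_norm, norm_smul_e1]
      have h1 := sep_room (R := R) hj hM p q (fun h => hab (by rw [h]))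
      have h2 : 1 / (8 * M * j : ℝ) = 1 / (2 * M * j) / 4 := by
        field_simp
        norm_num
      have h3 : (0 : ℝ) < 1 / (2 * M * j) := by positivity
      linarith

theorem closedBall_disj (a b : Option (Fin j × Fin M)) (hab : a ≠ b) :
    Disjoint (Metric.closedBall (ctr R j M a) (rad R ε j M a))
      (Metric.closedBall (ctr R j M b) (rad R ε j M b)) :=
  Metric.closedBall_disjoint_closedBall (dist_ctr hj hM hR hε hε2 a b hab)

theorem rad_pos (a : Option (Fin j × Fin M)) : 0 < rad R ε j M a := by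
  cases a
  · exact hR
  · exact hε

theorem dom_volume : volume.real (dom R ε j M) = v1 * (R ^ 3 + j * M * ε ^ 3) := by
  have h1 : volume (dom R ε j M) = ∑ a, volume (Metric.ball (ctr R j M a) (rad R ε j M a)) := by
    unfold dom
    rw [measure_iUnion, tsum_fintype]
    · intro a b hab
      exact (closedBall_disj hj hM hR hε hε2 a b hab).mono Metric.ball_subset_closedBall
        Metric.ball_subset_closedBall
    · exact fun a => measurableSet_ball
  unfold Measure.real
  rw [h1, ENNReal.toReal_sum (fun a _ => measure_ball_lt_top.ne), Fintype.sum_option]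
  have h2 := vol_ball (ctr R j M none) hR.le
  have h3 : ∀ p : Fin j × Fin M, (volume (Metric.ball (ctr R j M (some p))
      (rad R ε j M (some p)))).toReal = ε ^ 3 * v1 := fun p => vol_ball _ hε.le
  simp only [h3]
  simp only [Measure.real] at h2
  simp only [rad, h2, Finset.sum_const, Finset.card_univ, Fintype.card_prod, Fintype.card_fin,
    nsmul_eq_mul]
  push_cast
  ring

omit hR hε hε2 hj hM in
theorem dom_open : IsOpen (dom R ε j M) := isOpen_iUnion fun _ => Metric.isOpen_ball

theorem dom_subset : dom R ε j M ⊆ Metric.ball 0 (R + 4) := by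
  have h8 := (eps_le hj hM hε hε2).1
  unfold dom
  refine iUnion_subset fun a => ?_
  cases a with
  | none =>
    exact Metric.ball_subset_ball (by simp only [rad]; linarith)
  | some p =>
    apply Metric.ball_subset_ball'
    have h1 := tt_ge (R := R) hj hM p
    have h2 := tt_le (R := R) hj hM p
    simp only [rad, ctr]
    rw [dist_zero_right, norm_smul, norm_e1, mul_one, Real.norm_of_nonneg (by linarith)]
    linarith

theorem dom_finite : volume (dom R ε j M) ≠ ⊤ :=
  ne_of_lt ((measure_mono (dom_subset hj hM hR hε hε2)).trans_lt measure_ball_lt_top)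

theorem dom_layer (h : ℝ) (hh : 0 < h) :
    volume.real {x ∈ dom R ε j M | ∃ y ∈ frontier (dom R ε j M), dist x y ≤ h}
      ≤ v1 * (3 * R ^ 2 * h) + v1 * (j * M * ε ^ 3) := by
  have hsub : {x ∈ dom R ε j M | ∃ y ∈ frontier (dom R ε j M), dist x y ≤ h} ⊆
      (Metric.ball (0 : E3) R \ Metric.ball 0 (R - h)) ∪
        ⋃ p : Fin j × Fin M, Metric.ball (ctr R j M (some p)) ε := by
    rintro x ⟨hx, y, hy, hxy⟩
    obtain ⟨a, ha⟩ := mem_iUnion.1 hx
    cases a with
    | none =>
      left
      refine ⟨ha, fun hx2 => ?_⟩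
      have hy2 : y ∉ dom R ε j M := by
        rw [dom_open.frontier_eq] at hy
        exact hy.2
      apply hy2
      refine mem_iUnion.2 ⟨none, ?_⟩
      simp only [ctr, rad]
      rw [mem_ball_zero_iff] at hx2 ⊢
      have : ‖y‖ ≤ ‖x‖ + dist x y := by
        rw [dist_eq_norm, norm_sub_rev]
        have := norm_add_le x (y - x)
        rwa [add_sub_cancel] at this
      linarith
    | some p =>
      right
      exact mem_iUnion.2 ⟨p, ha⟩
  have hfin1 : volume (Metric.ball (0 : E3) R \ Metric.ball 0 (R - h)) ≠ ⊤ :=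
    ne_of_lt ((measure_mono diff_subset).trans_lt measure_ball_lt_top)
  have hfin2 : volume (⋃ p : Fin j × Fin M, Metric.ball (ctr R j M (some p)) ε) ≠ ⊤ := by
    apply ne_of_lt
    refine (measure_iUnion_le _).trans_lt ?_
    rw [tsum_fintype]
    exact ENNReal.sum_lt_top.2 fun p _ => measure_ball_lt_top
  refine (measureReal_mono hsub ?_).trans ((measureReal_union_le _ _).trans ?_)
  · exact ne_of_lt ((measure_union_le _ _).trans_lt (ENNReal.add_lt_top.2 ⟨hfin1.lt_top, hfin2.lt_top⟩))
  · apply add_le_add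
    · have hv := v1_pos
      by_cases hRh : h < R
      · rw [measureReal_diff (Metric.ball_subset_ball (by linarith)) measurableSet_ball
          measure_ball_lt_top.ne, vol_ball _ hR.le, vol_ball _ (by linarith)]
        have : R ^ 3 - (R - h) ^ 3 ≤ 3 * R ^ 2 * h := by
          have e : R ^ 3 - (R - h) ^ 3 = 3 * R ^ 2 * h - h ^ 2 * (3 * R - h) := by ring
          rw [e]
          have : 0 ≤ h ^ 2 * (3 * R - h) := mul_nonneg (by positivity) (by linarith)
          linarith
        nlinarith
      · push Not at hRh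
        refine (measureReal_mono diff_subset measure_ball_lt_top.ne).trans ?_
        rw [vol_ball _ hR.le]
        have : R ^ 3 ≤ 3 * R ^ 2 * h := by
          have : R ^ 2 * R ≤ R ^ 2 * h := mul_le_mul_of_nonneg_left hRh (by positivity)
          nlinarith [sq_nonneg R, mul_pos (pow_pos hR 2) hh]
        nlinarith
    · refine (measureReal_iUnion_fintype_le _).trans ?_
      have h3 : ∀ p : Fin j × Fin M, volume.real (Metric.ball (ctr R j M (some p)) ε)
          = ε ^ 3 * v1 := fun p => vol_ball _ hε.le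
      simp only [h3, Finset.sum_const, Finset.card_univ, Fintype.card_prod, Fintype.card_fin,
        nsmul_eq_mul]
      push_cast
      apply le_of_eq
      ring

/-- the rooms of the domain -/
theorem dom_rooms {ρ : ℝ} (hρ : 0 < ρ) (hvol : volume.real (dom R ε j M) = j / ρ) :
    Rooms ρ (dom R ε j M) j M (fun i r => Metric.ball (ctr R j M (some (i, r))) ε) (ε ^ 3 * v1)
      (CC ρ j) (CC ρ j + ρ * (j * (c0 + j / ρ))) := by
  have hv := v1_pos
  have hsub : ∀ a, Metric.ball (ctr R j M a) (rad R ε j M a) ⊆ dom R ε j M :=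
    fun a => subset_iUnion (fun a => Metric.ball (ctr R j M a) (rad R ε j M a)) a
  refine ⟨dom_open.measurableSet, fun i r => Metric.isOpen_ball, fun i r => hsub (some (i, r)),
    ?_, ?_, ?_, by positivity, U_measurable ρ j, ?_⟩
  · intro i r
    have e : dom R ε j M \ Metric.ball (ctr R j M (some (i, r))) ε
        = dom R ε j M \ Metric.closedBall (ctr R j M (some (i, r))) ε := by
      ext x
      constructor
      · rintro ⟨hx, hxb⟩
        refine ⟨hx, fun hxc => ?_⟩
        obtain ⟨a, ha⟩ := mem_iUnion.1 hx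
        by_cases h : a = some (i, r)
        · subst h
          exact hxb ha
        · exact Set.disjoint_left.1 (closedBall_disj hj hM hR hε hε2 a (some (i, r)) h)
            (Metric.ball_subset_closedBall ha) hxc
      · rintro ⟨hx, hxb⟩
        exact ⟨hx, fun h => hxb (Metric.ball_subset_closedBall h)⟩
    rw [e]
    exact dom_open.sdiff Metric.isClosed_closedBall
  · intro i r i' r' x hx hx'
    by_contra hcon
    have h : some (i, r) ≠ some (i', r') := by
      intro h
      rw [Option.some.injEq, Prod.mk.injEq] at h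
      exact hcon h
    exact Set.disjoint_left.1 (closedBall_disj hj hM hR hε hε2 _ _ h)
      (Metric.ball_subset_closedBall hx) (Metric.ball_subset_closedBall hx')
  · intro i r
    have h1 : (volume (Metric.ball (ctr R j M (some (i, r))) ε)).toReal = ε ^ 3 * v1 :=
      vol_ball _ hε.le
    rw [← h1, ENNReal.ofReal_toReal measure_ball_lt_top.ne]
  · intro f π X hX
    refine U_bounds (dom_finite hj hM hR hε hε2) hρ hj hvol X ?_
    intro a b hab
    obtain ⟨i, rfl⟩ := π.surjective a
    obtain ⟨k, rfl⟩ := π.surjective b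
    have hik : i ≠ k := fun h => hab (by rw [h])
    have h1 := hX i
    have h2 := hX k
    have h3 := sep_cluster (R := R) hj hM (i, f i) (k, f k) hik
    rw [← norm_smul_e1] at h3
    rw [mem_ball_iff_norm] at h1 h2
    simp only [ctr] at h1 h2
    have h8 := (eps_le hj hM hε hε2).2
    have h4 : ‖tt R j M (i, f i) • e1 - tt R j M (k, f k) • e1‖
        ≤ ‖X (π i) - X (π k)‖ + ‖X (π i) - tt R j M (i, f i) • e1‖
          + ‖X (π k) - tt R j M (k, f k) • e1‖ := by
      have e : tt R j M (i, f i) • e1 - tt R j M (k, f k) • e1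
          = (X (π i) - X (π k)) - (X (π i) - tt R j M (i, f i) • e1)
            + (X (π k) - tt R j M (k, f k) • e1) := by abel
      rw [e]
      refine (norm_add_le _ _).trans ?_
      gcongr
      exact norm_sub_le _ _
    have hj' : (0 : ℝ) < j := by exact_mod_cast hj
    have e1 : 1 / (4 * j : ℝ) = 1 / (2 * j) - 2 * (1 / (8 * j)) := by
      field_simp
      norm_num
    rw [e1]
    linarith

end

end Pool.Agent.Q207.Jell
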