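import Pool.Agent.Q207.JellDefs

set_option autoImplicit false

open MeasureTheory Set Filter ComplexConjugate
open scoped ENNReal Topology ContDiff

namespace Pool.Agent.Q207.Jell

/-- volume of the unit ball -/
noncomputable def v1 : ℝ := volume.real (Metric.ball (0 : E3) 1)

theorem v1_pos : 0 < v1 := by
  unfold v1 Measure.real
  exact ENNReal.toReal_pos (Metric.measure_ball_pos _ _ one_pos).ne' measure_ball_lt_top.ne

theorem vol_ball (x : E3) {r : ℝ} (hr : 0 ≤ r) : volume.real (Metric.ball x r) = r ^ 3 * v1 := by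
  unfold v1 Measure.real
  rw [Measure.addHaar_ball (volume : Measure E3) x hr, finrank_euclideanSpace_fin,
    ENNReal.toReal_mul, ENNReal.toReal_ofReal (by positivity)]

/-- the kernel near the origin -/
noncomputable def ker : E3 → ℝ := (Metric.ball (0 : E3) 1).indicator fun z => ‖z‖⁻¹

theorem ker_nonneg (z : E3) : 0 ≤ ker z := by
  unfold ker
  exact indicator_nonneg (fun z _ => by positivity) z

theorem ker_integrable : Integrable ker := by
  unfold ker
  rw [integrable_indicator_iff measurableSet_ball]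
  rw [integrableOn_fun_norm_addHaar (E := E3) (volume : Measure E3) (f := fun t : ℝ => t⁻¹) (r := 1)]
  rw [finrank_euclideanSpace_fin]
  have h1 : IntegrableOn (fun y : ℝ => y) (Ioo 0 1) :=
    (continuous_id.integrableOn_Icc (a := (0 : ℝ)) (b := 1)).mono_set Ioo_subset_Icc_self
  refine h1.congr_fun ?_ measurableSet_Ioo
  intro y hy
  have : y ≠ 0 := hy.1.ne'
  simp only [smul_eq_mul]
  field_simp

/-- `∫_{|z| < 1} |z|⁻¹ dz` -/
noncomputable def c0 : ℝ := ∫ z, ker z

theorem c0_nonneg : 0 ≤ c0 := integral_nonneg ker_nonneg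

section potential

variable {Λ : Set E3} (hΛ : MeasurableSet Λ) (hfin : volume Λ ≠ ⊤)

theorem inv_le_ker (x y : E3) : ‖x - y‖⁻¹ ≤ ker (x - y) + 1 := by
  unfold ker
  by_cases h : x - y ∈ Metric.ball (0 : E3) 1
  · rw [indicator_of_mem h]
    linarith
  · rw [indicator_of_notMem h, zero_add]
    rw [mem_ball_zero_iff, not_lt] at h
    exact inv_le_one_of_one_le₀ h

include hfin in
theorem kernel_integrableOn (x : E3) : IntegrableOn (fun y => ‖x - y‖⁻¹) Λ := by
  have h1 : Integrable (fun y => ker (x - y)) := ker_integrable.comp_sub_left x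
  have h2 : IntegrableOn (fun y => ker (x - y) + 1) Λ :=
    h1.integrableOn.add (integrableOn_const hfin)
  refine Integrable.mono' h2 ?_ ?_
  · have : Measurable fun y : E3 => ‖x - y‖⁻¹ := (measurable_const.sub measurable_id).norm.inv
    exact this.aestronglyMeasurable
  · refine Eventually.of_forall fun y => ?_
    rw [Real.norm_of_nonneg (by positivity)]
    exact inv_le_ker x y

theorem phi_nonneg (x : E3) : 0 ≤ phi Λ x := by
  unfold phi
  exact integral_nonneg fun y => by positivity

include hfin in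
theorem phi_le (x : E3) : phi Λ x ≤ c0 + volume.real Λ := by
  unfold phi
  have h1 : Integrable (fun y => ker (x - y)) := ker_integrable.comp_sub_left x
  calc ∫ y in Λ, ‖x - y‖⁻¹ ≤ ∫ y in Λ, (ker (x - y) + 1) :=
        integral_mono (kernel_integrableOn hfin x) (h1.integrableOn.add (integrableOn_const hfin))
          fun y => inv_le_ker x y
    _ = (∫ y in Λ, ker (x - y)) + volume.real Λ := by
        rw [integral_add h1.integrableOn (integrableOn_const hfin), setIntegral_const]
        simp
    _ ≤ (∫ y, ker (x - y)) + volume.real Λ := by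
        have := setIntegral_le_integral (s := Λ) h1 (Eventually.of_forall fun y => ker_nonneg _)
        linarith
    _ = c0 + volume.real Λ := by
        rw [integral_sub_left_eq_self]
        rfl

theorem phi_measurable : Measurable (phi Λ) := by
  unfold phi
  have h : StronglyMeasurable (Function.uncurry fun x y : E3 => ‖x - y‖⁻¹) := by
    apply Measurable.stronglyMeasurable
    exact (measurable_fst.sub measurable_snd).norm.inv
  exact (h.integral_prod_right (ν := volume.restrict Λ)).measurable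

theorem U_measurable (ρ : ℝ) (N : ℕ) : Measurable (U ρ Λ (N := N)) := by
  unfold U
  refine Measurable.add (Measurable.sub ?_ ?_) measurable_const
  · refine Finset.measurable_sum _ fun i _ => Finset.measurable_sum _ fun k _ => ?_
    exact ((measurable_pi_apply i).sub (measurable_pi_apply k)).norm.inv
  · refine measurable_const.mul (Finset.measurable_sum _ fun i _ => ?_)
    exact phi_measurable.comp (measurable_pi_apply i)

include hfin in
theorem int_phi_le : ∫ x in Λ, phi Λ x ≤ volume.real Λ * (c0 + volume.real Λ) := by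
  have h1 : IntegrableOn (phi Λ) Λ := by
    refine Integrable.mono' (integrableOn_const (C := c0 + volume.real Λ) hfin) ?_ ?_
    · exact phi_measurable.aestronglyMeasurable
    · refine Eventually.of_forall fun x => ?_
      rw [Real.norm_of_nonneg (phi_nonneg x)]
      exact phi_le hfin x
  calc ∫ x in Λ, phi Λ x ≤ ∫ x in Λ, (c0 + volume.real Λ) :=
        integral_mono h1 (integrableOn_const hfin) fun x => phi_le hfin x
    _ = volume.real Λ * (c0 + volume.real Λ) := by
        rw [setIntegral_const, smul_eq_mul]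

theorem int_phi_nonneg : 0 ≤ ∫ x in Λ, phi Λ x := integral_nonneg fun x => phi_nonneg x

/-- the constant -/
noncomputable def CC (ρ : ℝ) (j : ℕ) : ℝ :=
  4 * j ^ 3 + 1 / 2 * ρ ^ 2 * (j / ρ * (c0 + j / ρ))

include hfin in
theorem U_bounds {ρ : ℝ} (hρ : 0 < ρ) {j : ℕ} (hj : 1 ≤ j) (hvol : volume.real Λ = j / ρ)
    (X : Config j) (hX : ∀ i k : Fin j, i ≠ k → 1 / (4 * j) ≤ ‖X i - X k‖) :
    U ρ Λ X ≤ CC ρ j ∧ |U ρ Λ X| ≤ CC ρ j + ρ * (j * (c0 + j / ρ)) := by
  have hj' : (1 : ℝ) ≤ j := by exact_mod_cast hj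
  have hj0 : (0 : ℝ) < j := by linarith
  have hc := c0_nonneg
  have h1 : ∀ i k : Fin j, i < k → ‖X i - X k‖⁻¹ ≤ 4 * j := by
    intro i k hik
    have := hX i k hik.ne
    rw [inv_le_comm₀ (lt_of_lt_of_le (by positivity) this) (by positivity)]
    simpa using this
  have h2 : ∑ i : Fin j, ∑ k ∈ Finset.univ.filter (fun k => i < k), ‖X i - X k‖⁻¹ ≤ 4 * j ^ 3 := by
    calc ∑ i : Fin j, ∑ k ∈ Finset.univ.filter (fun k => i < k), ‖X i - X k‖⁻¹
        ≤ ∑ i : Fin j, ∑ k ∈ Finset.univ.filter (fun k => i < k), (4 * j : ℝ) := by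
          refine Finset.sum_le_sum fun i _ => Finset.sum_le_sum fun k hk => ?_
          exact h1 i k (Finset.mem_filter.1 hk).2
      _ ≤ ∑ i : Fin j, ∑ k : Fin j, (4 * j : ℝ) := by
          refine Finset.sum_le_sum fun i _ => ?_
          exact Finset.sum_le_sum_of_subset_of_nonneg (Finset.filter_subset _ _)
            fun _ _ _ => by positivity
      _ = 4 * j ^ 3 := by
          simp only [Finset.sum_const, Finset.card_univ, Fintype.card_fin, nsmul_eq_mul]
          ring
  have h3 : 0 ≤ ∑ i : Fin j, ∑ k ∈ Finset.univ.filter (fun k => i < k), ‖X i - X k‖⁻¹ :=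
    Finset.sum_nonneg fun i _ => Finset.sum_nonneg fun k _ => by positivity
  have h4 : 0 ≤ ∑ i, phi Λ (X i) := Finset.sum_nonneg fun i _ => phi_nonneg _
  have h5 : ∑ i, phi Λ (X i) ≤ j * (c0 + j / ρ) := by
    calc ∑ i, phi Λ (X i) ≤ ∑ i : Fin j, (c0 + j / ρ) := by
          refine Finset.sum_le_sum fun i _ => ?_
          rw [← hvol]
          exact phi_le hfin _
      _ = j * (c0 + j / ρ) := by
          simp only [Finset.sum_const, Finset.card_univ, Fintype.card_fin, nsmul_eq_mul]
  have h6 := int_phi_le hfin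
  have h7 := int_phi_nonneg (Λ := Λ)
  rw [hvol] at h6
  have h8 : 1 / 2 * ρ ^ 2 * ∫ x in Λ, phi Λ x ≤ 1 / 2 * ρ ^ 2 * (j / ρ * (c0 + j / ρ)) :=
    mul_le_mul_of_nonneg_left h6 (by positivity)
  have h9 : 0 ≤ 1 / 2 * ρ ^ 2 * ∫ x in Λ, phi Λ x := mul_nonneg (by positivity) h7
  have h10 : ρ * (∑ i, phi Λ (X i)) ≤ ρ * (j * (c0 + j / ρ)) :=
    mul_le_mul_of_nonneg_left h5 hρ.le
  have h11 : 0 ≤ ρ * (∑ i, phi Λ (X i)) := mul_nonneg hρ.le h4
  unfold U CC
  refine ⟨by linarith, ?_⟩
  rw [abs_le]
  have : 0 ≤ 1 / 2 * ρ ^ 2 * (j / ρ * (c0 + j / ρ)) := by positivity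
  constructor
  · have : 0 ≤ (4 : ℝ) * j ^ 3 := by positivity
    linarith
  · linarith

end potential

end Pool.Agent.Q207.Jell
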