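import Pool.Agent.TH996.Urn.SbcMain

/-!
# The urn scheme in continuous time
-/

set_option autoImplicit false

open MeasureTheory ProbabilityTheory Filter Topology Finset
open Pool.Agent.TH996.Urn

namespace Pool.Agent.Q207.UrnCT

variable {V : Type} [Fintype V] {s : ℕ}

/-- The competing urn scheme in continuous time, in its standard construction: `X n` is the
configuration after `n` nucleations, a Markov chain in which the ball that nucleates is chosen
uniformly among all balls, and, given the configurations, the waiting time between the nucleations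
number `n` and `n + 1` is the minimum of `total (X n)` independent rate one exponential clocks,
that is `E n / total (X n)` with independent rate one exponential variables `E n`, independent of
the chain. -/
structure IsScheme (G : SimpleGraph V) (x₀ : Config V s) {Ω : Type} [MeasurableSpace Ω]
    (P : Measure Ω) (X : ℕ → Ω → Config V s) (E : ℕ → Ω → ℝ) : Prop where
  jump : IsUrnProcess G x₀ P X
  measE : ∀ n, Measurable (E n)
  law : ∀ n, P.map (E n) = expMeasure 1
  iid : iIndepFun E P
  indep : IndepFun (fun ω n => X n ω) (fun ω n => E n ω) P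

/-- The time of the nucleation number `n`. -/
noncomputable def time {Ω : Type} (X : ℕ → Ω → Config V s) (E : ℕ → Ω → ℝ) (n : ℕ) (ω : Ω) : ℝ :=
  ∑ i ∈ range n, E i ω / (total (X i ω) : ℝ)

/-- `x` is the configuration at time `t`. -/
def At {Ω : Type} (X : ℕ → Ω → Config V s) (E : ℕ → Ω → ℝ) (ω : Ω) (t : ℝ) (x : Config V s) :
    Prop :=
  ∃ n, time X E n ω ≤ t ∧ t < time X E (n + 1) ω ∧ x = X n ω

/-- the exponential distribution: Laplace transform -/
theorem laplace (w : ℝ) (hw : 0 < w) :
    ∫⁻ x, ENNReal.ofReal (Real.exp (-(w * x))) ∂(expMeasure 1) = ENNReal.ofReal (1 / (1 + w)) := by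
  have e : expMeasure 1 = (volume : Measure ℝ).withDensity (exponentialPDF 1) := rfl
  have hm : Measurable (exponentialPDF 1) := by
    unfold exponentialPDF
    fun_prop
  rw [e, lintegral_withDensity_eq_lintegral_mul _ hm (by fun_prop)]
  have h2 : ∀ x, (exponentialPDF 1 * fun x => ENNReal.ofReal (Real.exp (-(w * x)))) x
      = ENNReal.ofReal (1 / (1 + w)) * exponentialPDF (1 + w) x := by
    intro x
    rw [Pi.mul_apply, exponentialPDF_eq, exponentialPDF_eq]
    by_cases hx : 0 ≤ x
    · rw [if_pos hx, if_pos hx, ← ENNReal.ofReal_mul (by positivity),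
        ← ENNReal.ofReal_mul (by positivity)]
      congr 1
      have h3 : Real.exp (-((1 + w) * x)) = Real.exp (-(1 * x)) * Real.exp (-(w * x)) := by
        rw [← Real.exp_add]; congr 1; ring
      rw [h3]
      field_simp
    · rw [if_neg hx, if_neg hx]
      simp
  rw [lintegral_congr h2, lintegral_const_mul _ (by unfold exponentialPDF; fun_prop),
    lintegral_exponentialPDF_eq_one (by linarith), mul_one]

theorem pos_ae : ∀ᵐ x ∂(expMeasure 1), 0 < x := by
  have e : expMeasure 1 = (volume : Measure ℝ).withDensity (exponentialPDF 1) := rfl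
  rw [ae_iff]
  have h1 : {x : ℝ | ¬ 0 < x} = Set.Iic 0 := by ext x; simp
  rw [h1, e, withDensity_apply _ measurableSet_Iic,
    lintegral_exponentialPDF_eq_antiDeriv one_pos, if_pos le_rfl]
  simp

section

variable {Ω : Type} [MeasurableSpace Ω] {P : Measure Ω} [IsProbabilityMeasure P] {E : ℕ → Ω → ℝ}

theorem ae_pos (hE : ∀ n, Measurable (E n)) (hl : ∀ n, P.map (E n) = expMeasure 1) :
    ∀ᵐ ω ∂P, ∀ n, 0 < E n ω := by
  rw [ae_all_iff]
  intro n
  have h := pos_ae
  rw [← hl n] at h
  exact ae_of_ae_map (hE n).aemeasurable h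

theorem mgf_one (hE : ∀ n, Measurable (E n)) (hl : ∀ n, P.map (E n) = expMeasure 1) (n : ℕ) (w : ℝ)
    (hw : 0 < w) : mgf (fun ω => w * E n ω) P (-1) = 1 / (1 + w) := by
  unfold mgf
  rw [integral_eq_lintegral_of_nonneg_ae (Eventually.of_forall fun _ => (Real.exp_pos _).le)
    (by have := hE n; fun_prop)]
  have h1 : ∫⁻ ω, ENNReal.ofReal (Real.exp (-1 * (w * E n ω))) ∂P
      = ∫⁻ x, ENNReal.ofReal (Real.exp (-(w * x))) ∂(P.map (E n)) := by
    rw [lintegral_map (by fun_prop) (hE n)]
    refine lintegral_congr fun ω => ?_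
    congr 2
    ring
  rw [h1, hl n, laplace w hw, ENNReal.toReal_ofReal (by positivity)]

theorem diverge (hE : ∀ n, Measurable (E n)) (hl : ∀ n, P.map (E n) = expMeasure 1)
    (hi : iIndepFun E P) (M : ℝ) (n : ℕ) :
    P.real {ω | ∑ i ∈ range n, E i ω / ((i : ℝ) + 1) ≤ M} ≤ Real.exp M / (n + 1) := by
  set Y : ℕ → Ω → ℝ := fun i ω => (1 / ((i : ℝ) + 1)) * E i ω with hY
  have hYm : ∀ i, Measurable (Y i) := fun i => by
    have := hE i
    simp only [hY]
    fun_prop
  have hYi : iIndepFun Y P := hi.comp (fun i x => (1 / ((i : ℝ) + 1)) * x) (fun i => by fun_prop)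
  have hm1 : ∀ i, mgf (Y i) P (-1) = ((i : ℝ) + 1) / (i + 2) := by
    intro i
    rw [hY]
    simp only
    rw [mgf_one hE hl i (1 / ((i : ℝ) + 1)) (by positivity)]
    have : (0 : ℝ) < (i : ℝ) + 1 := by positivity
    field_simp
    ring
  have hprod : ∀ n : ℕ, ∏ i ∈ range n, (((i : ℝ) + 1) / (i + 2)) = 1 / (n + 1) := by
    intro n
    induction n with
    | zero => simp
    | succ n ih =>
      rw [prod_range_succ, ih]
      push_cast
      have : (0 : ℝ) < (n : ℝ) + 1 := by positivity
      field_simp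
      ring
  have hmg : mgf (∑ i ∈ range n, Y i) P (-1) = 1 / (n + 1) := by
    rw [hYi.mgf_sum hYm, prod_congr rfl (fun i _ => hm1 i), hprod]
  have hnn : ∀ᵐ ω ∂P, ∀ i, 0 < Y i ω := by
    filter_upwards [ae_pos hE hl] with ω h i
    have := h i
    simp only [hY]
    positivity
  have hint : Integrable (fun ω => Real.exp (-1 * (∑ i ∈ range n, Y i) ω)) P := by
    refine Integrable.mono' (integrable_const (1 : ℝ)) ?_ ?_
    · apply Measurable.aestronglyMeasurable
      have : Measurable (∑ i ∈ range n, Y i) := by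
        rw [show (∑ i ∈ range n, Y i) = fun ω => ∑ i ∈ range n, Y i ω from by ext ω; simp]
        exact Finset.measurable_sum _ fun i _ => hYm i
      fun_prop
    · filter_upwards [hnn] with ω h
      rw [Real.norm_eq_abs, abs_of_pos (Real.exp_pos _), Real.exp_le_one_iff, Finset.sum_apply]
      have : 0 ≤ ∑ i ∈ range n, Y i ω := Finset.sum_nonneg fun i _ => (h i).le
      linarith
  have h := measure_le_le_exp_mul_mgf (μ := P) (X := ∑ i ∈ range n, Y i) (t := -1) M (by norm_num)
    hint
  rw [hmg] at h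
  have e1 : {ω | ∑ i ∈ range n, E i ω / ((i : ℝ) + 1) ≤ M} = {ω | (∑ i ∈ range n, Y i) ω ≤ M} := by
    ext ω
    simp only [Set.mem_ofPred_eq, Finset.sum_apply, hY]
    have : ∀ i ∈ range n, E i ω / ((i : ℝ) + 1) = 1 / ((i : ℝ) + 1) * E i ω := by
      intro i _; ring
    rw [sum_congr rfl this]
  rw [e1]
  refine h.trans (le_of_eq ?_)
  rw [neg_neg, one_mul, mul_one_div]

theorem diverge_ae (hE : ∀ n, Measurable (E n)) (hl : ∀ n, P.map (E n) = expMeasure 1)
    (hi : iIndepFun E P) : ∀ᵐ ω ∂P, ∀ M : ℕ, ∃ n, (M : ℝ) < ∑ i ∈ range n, E i ω / ((i : ℝ) + 1) := by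
  rw [ae_all_iff]
  intro M
  rw [ae_iff]
  have h1 : ∀ n : ℕ, P {ω | ¬ ∃ n, (M : ℝ) < ∑ i ∈ range n, E i ω / ((i : ℝ) + 1)} ≤
      ENNReal.ofReal (Real.exp M / (n + 1)) := by
    intro n
    have h2 : {ω | ¬ ∃ n, (M : ℝ) < ∑ i ∈ range n, E i ω / ((i : ℝ) + 1)} ⊆
        {ω | ∑ i ∈ range n, E i ω / ((i : ℝ) + 1) ≤ M} := by
      intro ω h
      have h' : ∀ n, ∑ i ∈ range n, E i ω / ((i : ℝ) + 1) ≤ M := by
        intro n
        by_contra hc
        exact h ⟨n, not_le.1 hc⟩
      exact h' n
    refine (measure_mono h2).trans ?_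
    rw [← ofReal_measureReal]
    exact ENNReal.ofReal_le_ofReal (diverge hE hl hi M n)
  have h3 : Tendsto (fun n : ℕ => ENNReal.ofReal (Real.exp M / (n + 1))) atTop (𝓝 0) := by
    have h4 : Tendsto (fun n : ℕ => Real.exp M / ((n : ℝ) + 1)) atTop (𝓝 0) := by
      have := tendsto_one_div_add_atTop_nhds_zero_nat (𝕜 := ℝ)
      have h5 := this.const_mul (Real.exp M)
      rw [mul_zero] at h5
      refine h5.congr fun n => ?_
      ring
    have := ENNReal.tendsto_ofReal h4
    rwa [ENNReal.ofReal_zero] at this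
  exact le_antisymm (ge_of_tendsto' h3 h1) bot_le

end

/-- a step adds at most one ball per vertex -/
theorem total_step (G : SimpleGraph V) (x : Config V s) (v : V) (c : Fin s) :
    total (step G x v c) ≤ total x + Fintype.card V := by
  classical
  unfold total
  have h : ∀ u, ∑ d, step G x v c u d ≤ ∑ d, x u d + 1 := by
    intro u
    have h2 : ∀ d, step G x v c u d ≤ x u d + if d = c then 1 else 0 := by
      intro d
      unfold step
      split_ifs <;> omega
    calc ∑ d, step G x v c u d ≤ ∑ d, (x u d + if d = c then 1 else 0) := sum_le_sum fun d _ => h2 d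
      _ = ∑ d, x u d + 1 := by rw [sum_add_distrib, sum_ite_eq' univ c]; simp
  calc ∑ u, ∑ d, step G x v c u d ≤ ∑ u, (∑ d, x u d + 1) := sum_le_sum fun u _ => h u
    _ = ∑ u, ∑ d, x u d + Fintype.card V := by rw [sum_add_distrib]; simp

section

variable {G : SimpleGraph V} {x₀ : Config V s} {Ω : Type} [MeasurableSpace Ω] {P : Measure Ω}
  [IsProbabilityMeasure P] {X : ℕ → Ω → Config V s} {E : ℕ → Ω → ℝ}

theorem good_all (h0 : Good x₀) (hX : IsUrnProcess G x₀ P X) :
    ∀ᵐ ω ∂P, ∀ n, Good (X n ω) ∧ total (X n ω) ≤ total x₀ + n * Fintype.card V ∧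
      (∃ v c, 0 < X n ω v c ∧ X (n + 1) ω = step G (X n ω) v c) := by
  have hi : ∀ᵐ ω ∂P, X 0 ω = x₀ := (mem_ae_iff_prob_eq_one (hX.meas 0 x₀)).2 hX.init
  filter_upwards [Wrap.ae_step hX, hi] with ω hs h00 n
  have key : ∀ n, Good (X n ω) ∧ total (X n ω) ≤ total x₀ + n * Fintype.card V := by
    intro n
    induction n with
    | zero => rw [h00]; exact ⟨h0, by simp⟩
    | succ n ih =>
      obtain ⟨v, c, hv, hst⟩ := hs n
      rw [hst]
      refine ⟨step_good G ih.1 hv, ?_⟩
      have := total_step G (X n ω) v c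
      have h2 := ih.2
      rw [Nat.succ_mul]
      omega
  exact ⟨(key n).1, (key n).2, hs n⟩

/-- the process does not explode: there is exactly one configuration at each time -/
theorem nonexplosion (h0 : Good x₀) (h : IsScheme G x₀ P X E) :
    ∀ᵐ ω ∂P, ∀ t : ℝ, 0 ≤ t → ∃! n, time X E n ω ≤ t ∧ t < time X E (n + 1) ω := by
  filter_upwards [good_all h0 h.jump, ae_pos h.measE h.law, diverge_ae h.measE h.law h.iid]
    with ω hg hp hd
  have htot : ∀ n, (0 : ℝ) < total (X n ω) := fun n => by exact_mod_cast (hg n).1.2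
  have hstep : ∀ n, time X E n ω < time X E (n + 1) ω := by
    intro n
    unfold time
    rw [sum_range_succ]
    have := hp n
    have := htot n
    have : 0 < E n ω / (total (X n ω) : ℝ) := by positivity
    linarith
  have hmono : StrictMono fun n => time X E n ω := strictMono_nat_of_lt_succ hstep
  set D : ℝ := (total x₀ : ℝ) + Fintype.card V + 1 with hD
  have hD0 : 0 < D := by positivity
  have hbig : ∀ t : ℝ, ∃ n, t < time X E n ω := by
    intro t
    obtain ⟨M, hM⟩ := exists_nat_ge (D * t)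
    obtain ⟨n, hn⟩ := hd M
    refine ⟨n, ?_⟩
    have h1 : (1 / D) * ∑ i ∈ range n, E i ω / ((i : ℝ) + 1) ≤ time X E n ω := by
      unfold time
      rw [mul_sum]
      refine sum_le_sum fun i _ => ?_
      have h2 : (total (X i ω) : ℝ) ≤ D * (i + 1) := by
        have h3 : (total (X i ω) : ℝ) ≤ total x₀ + i * Fintype.card V := by
          exact_mod_cast (hg i).2.1
        have h4 : (0 : ℝ) ≤ i := Nat.cast_nonneg i
        have h5 : (0 : ℝ) ≤ total x₀ := Nat.cast_nonneg _
        have h6 : (0 : ℝ) ≤ Fintype.card V := Nat.cast_nonneg _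
        rw [hD]
        nlinarith [mul_nonneg h4 h5]
      have h7 := hp i
      have h8 := htot i
      rw [one_div, inv_mul_eq_div, div_div, mul_comm ((i : ℝ) + 1) D]
      exact div_le_div_of_nonneg_left h7.le h8 h2
    have h9 : t < (1 / D) * ∑ i ∈ range n, E i ω / ((i : ℝ) + 1) := by
      rw [one_div, inv_mul_eq_div, lt_div_iff₀ hD0, mul_comm]
      linarith
    linarith
  intro t ht
  classical
  have hex := hbig t
  set N := Nat.find hex with hN
  have hNspec : t < time X E N ω := Nat.find_spec hex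
  have hN0 : N ≠ 0 := by
    intro h00
    rw [h00] at hNspec
    unfold time at hNspec
    simp at hNspec
    linarith
  obtain ⟨m, hm⟩ := Nat.exists_eq_succ_of_ne_zero hN0
  have hmle : time X E m ω ≤ t := by
    by_contra hc
    exact Nat.find_min hex (by omega : m < N) (not_le.1 hc)
  refine ⟨m, ⟨hmle, by rw [← Nat.succ_eq_add_one, ← hm]; exact hNspec⟩, ?_⟩
  rintro k ⟨hk1, hk2⟩
  have a1 : k < m + 1 := by
    by_contra hc
    have : time X E (m + 1) ω ≤ time X E k ω := hmono.monotone (not_lt.1 hc)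
    rw [← Nat.succ_eq_add_one, ← hm] at this
    linarith
  have a2 : m < k + 1 := by
    by_contra hc
    have : time X E (k + 1) ω ≤ time X E m ω := hmono.monotone (not_lt.1 hc)
    linarith
  omega

theorem meas_mono (h : IsUrnProcess G x₀ P X) (t : ℕ) : MeasurableSet {ω | ¬ AllMono (X t ω)} := by
  have e : {ω | ¬ AllMono (X t ω)} = ⋃ x ∈ {x : Config V s | ¬ AllMono x}, {ω | X t ω = x} := by
    ext ω
    simp
  rw [e]
  exact MeasurableSet.biUnion (Set.to_countable _) fun x _ => h.meas t x

/-- with positive probability there are always two colours -/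
theorem always (h0 : Good x₀) (hX : IsUrnProcess G x₀ P X) :
    ENNReal.ofReal (hlim G x₀) ≤ P {ω | ∀ t, ¬ AllMono (X t ω)} := by
  have hanti : Antitone fun t => {ω | ∀ i ≤ t, ¬ AllMono (X i ω)} := by
    intro a b hab ω hω i hi
    exact hω i (hi.trans hab)
  have hme : ∀ t, MeasurableSet {ω | ∀ i ≤ t, ¬ AllMono (X i ω)} := by
    intro t
    have e : {ω | ∀ i ≤ t, ¬ AllMono (X i ω)} = ⋂ i ∈ Finset.range (t + 1),
        {ω | ¬ AllMono (X i ω)} := by
      ext ω
      simp
    rw [e]
    exact Finset.measurableSet_biInter _ fun i _ => meas_mono hX i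
  have hlow : ∀ t, ENNReal.ofReal (hlim G x₀) ≤ P {ω | ∀ i ≤ t, ¬ AllMono (X i ω)} := by
    intro t
    have h1 : ENNReal.ofReal (hlim G x₀) ≤ P {ω | ¬ AllMono (X t ω)} := by
      rw [Wrap.prob_nm hX t]
      exact ENNReal.ofReal_le_ofReal (hlim_le G t x₀)
    refine h1.trans (measure_mono_ae ?_)
    filter_upwards [good_all h0 hX] with ω hg hω i hi
    intro hmono
    apply hω
    have : ∀ k, AllMono (X (i + k) ω) := by
      intro k
      induction k with
      | zero => exact hmono
      | succ k ih =>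
        obtain ⟨v, c, hv, hst⟩ := (hg (i + k)).2.2
        rw [← add_assoc, hst]
        exact step_allMono G ih hv
    have h2 := this (t - i)
    rwa [show i + (t - i) = t by omega] at h2
  have hlim := tendsto_measure_iInter_atTop (μ := P) (fun t => (hme t).nullMeasurableSet) hanti
    ⟨0, measure_ne_top P _⟩
  have e : ⋂ t, {ω | ∀ i ≤ t, ¬ AllMono (X i ω)} = {ω | ∀ t, ¬ AllMono (X t ω)} := by
    ext ω
    simp only [Set.mem_iInter, Set.mem_ofPred_eq]
    exact ⟨fun h t => h t t le_rfl, fun h _ i _ => h i⟩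
  rw [e] at hlim
  exact ge_of_tendsto' hlim hlow

end

/-- existence of the scheme -/
theorem exists_scheme (G : SimpleGraph V) (x₀ : Config V s) (h0 : Good x₀) :
    ∃ (Ω : Type) (_ : MeasurableSpace Ω) (P : Measure Ω) (X : ℕ → Ω → Config V s)
      (E : ℕ → Ω → ℝ), IsProbabilityMeasure P ∧ IsScheme G x₀ P X E := by
  obtain ⟨Ω, mΩ, P, X, hP, hX⟩ := exists_process G x₀ h0
  haveI := isProbabilityMeasure_expMeasure (r := 1) one_pos
  set μ : Measure (ℕ → ℝ) := Measure.infinitePi (fun _ => expMeasure 1) with hμ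
  have hXm : ∀ n, Measurable (X n) := by
    intro n
    refine measurable_to_countable' fun y => ?_
    exact hX.meas n y
  have hfst : ∀ A : Set Ω, (P.prod μ) {z | z.1 ∈ A} = P A := by
    intro A
    have : {z : Ω × (ℕ → ℝ) | z.1 ∈ A} = A ×ˢ Set.univ := by ext z; simp
    rw [this, Measure.prod_prod, measure_univ, mul_one]
  refine ⟨Ω × (ℕ → ℝ), inferInstance, P.prod μ, fun n z => X n z.1, fun n z => z.2 n,
    inferInstance, ?_⟩
  have hmap : (P.prod μ).map (fun z n => z.2 n) = μ := by
    have : (fun (z : Ω × (ℕ → ℝ)) (n : ℕ) => z.2 n) = Prod.snd := rfl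
    rw [this]
    have h2 := Measure.map_snd_prod (μ := P) (ν := μ)
    rw [h2, measure_univ, one_smul]
  have hlaw : ∀ n, (P.prod μ).map (fun z => z.2 n) = expMeasure 1 := by
    intro n
    have h3 : (fun z : Ω × (ℕ → ℝ) => z.2 n) = (fun e : ℕ → ℝ => e n) ∘ (fun z n => z.2 n) := rfl
    rw [h3, ← Measure.map_map (by fun_prop) (by fun_prop), hmap, hμ]
    exact Measure.infinitePi_map_eval _ n
  refine ⟨⟨?_, ?_, ?_⟩, fun n => by fun_prop, hlaw, ?_, ?_⟩
  · intro n y
    exact measurable_fst (hX.meas n y)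
  · have := hfst {ω | X 0 ω = x₀}
    exact this.trans hX.init
  · intro n a y
    have h1 := hfst {ω | (∀ i : Fin (n + 1), X i ω = a i) ∧ X (n + 1) ω = y}
    have h2 := hfst {ω | ∀ i : Fin (n + 1), X i ω = a i}
    have h3 := hX.markov n a y
    rw [← h1, ← h2] at h3
    exact h3
  · rw [iIndepFun_iff_map_fun_eq_infinitePi_map (fun n => by fun_prop), hmap, hμ]
    congr 1
    funext n
    exact (hlaw n).symm
  · have := indepFun_prod (μ := P) (ν := μ) (X := fun ω n => X n ω) (Y := fun e : ℕ → ℝ => e)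
      (measurable_pi_lambda _ hXm) measurable_id
    exact this

/-- Coexistence of at least two types, in continuous time: for some nonzero initial configuration,
every version of the scheme has (almost surely) exactly one configuration at each time, and with
positive probability two types are present at all times. (And the scheme exists.) -/
def Coexistence (G : SimpleGraph V) (s : ℕ) : Prop :=
  ∃ x₀ : Config V s, UrnsMono x₀ ∧ 0 < total x₀ ∧
    (∃ (Ω : Type) (_ : MeasurableSpace Ω) (P : Measure Ω) (X : ℕ → Ω → Config V s)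
      (E : ℕ → Ω → ℝ), IsProbabilityMeasure P ∧ IsScheme G x₀ P X E) ∧
    ∀ (Ω : Type) [MeasurableSpace Ω] (P : Measure Ω) [IsProbabilityMeasure P]
      (X : ℕ → Ω → Config V s) (E : ℕ → Ω → ℝ), IsScheme G x₀ P X E →
      (∀ᵐ ω ∂P, ∀ t : ℝ, 0 ≤ t → ∃! n, time X E n ω ≤ t ∧ t < time X E (n + 1) ω) ∧
      0 < P {ω | ∀ t x, At X E ω t x → ¬ AllMono x}

theorem coexistence_of_not_inClass (G : SimpleGraph V) (h : ¬ InClass G s) : Coexistence G s := by
  unfold InClass at h
  push Not at h
  obtain ⟨x₀, hm, h0, Ω, mΩ, P, hP, X, hX, hne⟩ := h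
  have hgood : Good x₀ := ⟨hm, h0⟩
  have hpos : 0 < hlim G x₀ := by
    rcases (hlim_nonneg G x₀).lt_or_eq with hlt | heq
    · exact hlt
    · exfalso
      apply hne
      have hw := wrap G x₀ hm h0 (by
        have := hlim_tendsto G hgood
        rwa [← heq] at this) P X hX
      filter_upwards [hw] with ω h
      exact not_not.2 h
  refine ⟨x₀, hm, h0, exists_scheme G x₀ hgood, ?_⟩
  intro Ω' _ P' _ X' E' hS
  refine ⟨nonexplosion hgood hS, ?_⟩
  refine lt_of_lt_of_le (ENNReal.ofReal_pos.2 hpos) ((always hgood hS.jump).trans ?_)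
  apply measure_mono
  rintro ω hω t x ⟨n, -, -, rfl⟩
  exact hω n

end Pool.Agent.Q207.UrnCT
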