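import Pool.Agent.Q207.UrnCT

set_option autoImplicit false

open Finset
open Pool.Agent.TH996.Urn

namespace Pool.Agent.Q207.UrnCT

section

variable {V : Type} [Fintype V] {ι : Type} [Fintype ι] {s : ℕ} {G : SimpleGraph V}

open Classical in
theorem sum_nb (nb : V → ι → V) (hinj : ∀ v, Function.Injective (nb v))
    (hadj : ∀ v u, G.Adj v u ↔ ∃ i, u = nb v i) (p : V → Prop) (f : V → ℝ) (v : V) :
    (∑ u, if G.Adj v u ∧ p u then f u else 0) = ∑ i, if p (nb v i) then f (nb v i) else 0 := by
  have h1 : (∑ u, if G.Adj v u ∧ p u then f u else 0)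
      = ∑ u ∈ univ.image (nb v), if p u then f u else 0 := by
    have h2 : univ.image (nb v) = univ.filter (fun u => G.Adj v u) := by
      ext u
      simp only [mem_image, mem_univ, true_and, mem_filter, hadj]
      constructor
      · rintro ⟨i, hi⟩; exact ⟨i, hi.symm⟩
      · rintro ⟨i, hi⟩; exact ⟨i, hi.symm⟩
    rw [h2, sum_filter]
    refine sum_congr rfl fun u _ => ?_
    by_cases h3 : G.Adj v u <;> by_cases h4 : p u <;> simp [h3, h4]
  rw [h1, sum_image fun a _ b _ h => hinj v h]

/-- Unions of regular induced graphs of the same degree, such that every other vertex has exactly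
three neighbours in the union, of three different colours. -/
theorem sbc_of_three [DecidableEq V] [DecidableEq ι] (nb : V → ι → V) (hinj : ∀ v, Function.Injective (nb v))
    (hadj : ∀ v u, G.Adj v u ↔ ∃ i, u = nb v i) (K : Finset V) (χ : V → Fin s) (m : ℕ) (hm : 0 < m)
    (hreg : ∀ v ∈ K, (univ.filter fun i => nb v i ∈ K).card = m)
    (hsame : ∀ v ∈ K, ∀ i, nb v i ∈ K → χ (nb v i) = χ v)
    (htwo : ∃ u ∈ K, ∃ v ∈ K, χ u ≠ χ v)
    (hthree : ∀ z, z ∉ K → ∃ i j k, i ≠ j ∧ i ≠ k ∧ j ≠ k ∧
      (univ.filter fun l => nb z l ∈ K) = {i, j, k} ∧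
      χ (nb z i) ≠ χ (nb z j) ∧ χ (nb z i) ≠ χ (nb z k) ∧ χ (nb z j) ≠ χ (nb z k)) :
    IsSBC G K χ (fun v => if v ∈ K then 1 else 0) (m : ℝ) := by
  classical
  have hsum : ∀ v, (∑ u, if G.Adj v u then (if u ∈ K then (1 : ℝ) else 0) else 0)
      = ((univ.filter fun i => nb v i ∈ K).card : ℝ) := by
    intro v
    have h := sum_nb nb hinj hadj (fun _ => True) (fun u => if u ∈ K then (1 : ℝ) else 0) v
    simp only [and_true, if_true] at h
    rw [card_filter]
    push_cast
    convert h
  refine ⟨by exact_mod_cast hm, ?_, ?_, ?_, ?_, htwo, ?_, ?_⟩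
  · intro v hv
    simp only [if_pos hv]
    exact one_pos
  · intro v hv
    simp only [if_neg hv]
  · intro v hv
    rw [if_pos hv, mul_one, ← hreg v hv, ← hsum v]
  · intro u hu v hv huv
    obtain ⟨i, rfl⟩ := (hadj u v).1 huv
    exact (hsame u hu i hv).symm
  · intro z hz _ c
    obtain ⟨i, j, k, hij, hik, hjk, hset, c1, c2, c3⟩ := hthree z hz
    have h6 : (∑ u, if G.Adj z u then (if u ∈ K then (1 : ℝ) else 0) else 0) = 3 := by
      rw [hsum z, hset, card_eq_three.2 ⟨i, j, k, hij, hik, hjk, rfl⟩]
      norm_num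
    refine lt_of_lt_of_eq ?_ (Eq.trans h6.symm (by congr))
    have h := sum_nb nb hinj hadj (fun u => χ u = c) (fun u => if u ∈ K then (1 : ℝ) else 0) z
    have h2 : (∑ l, if χ (nb z l) = c then (if nb z l ∈ K then (1 : ℝ) else 0) else 0)
        = ∑ l ∈ {i, j, k}, if χ (nb z l) = c then (1 : ℝ) else 0 := by
      rw [← hset, sum_filter]
      refine sum_congr rfl fun l _ => ?_
      by_cases h3 : nb z l ∈ K <;> by_cases h4 : χ (nb z l) = c <;> simp [h3, h4]
    have h5 : (∑ u, if G.Adj z u ∧ χ u = c then (if u ∈ K then (1 : ℝ) else 0) else 0)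
        = ∑ l ∈ {i, j, k}, if χ (nb z l) = c then (1 : ℝ) else 0 := by
      rw [← h2]
      convert h
    rw [h5, sum_insert (by simp [hij, hik]), sum_insert (by simp [hjk]), sum_singleton]
    by_cases a1 : χ (nb z i) = c
    · have a2 : χ (nb z j) ≠ c := fun h => c1 (a1.trans h.symm)
      have a3 : χ (nb z k) ≠ c := fun h => c2 (a1.trans h.symm)
      simp only [if_pos a1, if_neg a2, if_neg a3]
      norm_num
    · by_cases a2 : χ (nb z j) = c
      · have a3 : χ (nb z k) ≠ c := fun h => c3 (a2.trans h.symm)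
        simp only [if_neg a1, if_pos a2, if_neg a3]
        norm_num
      · simp only [if_neg a1, if_neg a2]
        split_ifs <;> norm_num
  · refine ⟨fun _ => 1, fun u hu hun => ?_⟩
    exfalso
    obtain ⟨i, j, k, -, -, -, hset, -⟩ := hthree u hu
    have hi : i ∈ univ.filter fun l => nb u l ∈ K := by rw [hset]; simp
    have hi' : nb u i ∈ K := (mem_filter.1 hi).2
    exact hun _ hi' ((hadj u _).2 ⟨i, rfl⟩)

end

/-- The hypercube `Q_n`: strings of `n` bits, adjacent when they differ in exactly one
coordinate. -/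
def cube (n : ℕ) : SimpleGraph (Fin n → Bool) where
  Adj u v := ∃! i, u i ≠ v i
  symm := ⟨fun u v h => by simpa only [ne_comm] using h⟩
  loopless := ⟨fun u h => by obtain ⟨i, hi, -⟩ := h; exact hi rfl⟩

/-- The discrete torus of dimension `d` and side `N`: two points of `(ℤ / N ℤ) ^ d` are adjacent
when they differ by `± 1` in exactly one coordinate (and are different). -/
def torus (d N : ℕ) : SimpleGraph (Fin d → ZMod N) where
  Adj u v := u ≠ v ∧ ∃ i, (v i = u i + 1 ∨ v i = u i - 1) ∧ ∀ j, j ≠ i → v j = u j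
  symm := ⟨fun u v h => by
    obtain ⟨h0, i, h1, h2⟩ := h
    refine ⟨h0.symm, i, ?_, fun j hj => (h2 j hj).symm⟩
    rcases h1 with h1 | h1
    · right; rw [h1]; ring
    · left; rw [h1]; ring⟩
  loopless := ⟨fun u h => h.1 rfl⟩

/-- flipping a bit -/
def flip {n : ℕ} (v : Fin n → Bool) (i : Fin n) : Fin n → Bool := Function.update v i (!v i)

theorem flip_inj {n : ℕ} (v : Fin n → Bool) : Function.Injective (flip v) := by
  intro i j h
  by_contra hij
  have := congrFun h i
  unfold flip at this
  rw [Function.update_self, Function.update_of_ne hij] at this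
  cases hv : v i <;> rw [hv] at this <;> exact absurd this (by decide)

theorem cube_adj {n : ℕ} (v u : Fin n → Bool) : (cube n).Adj v u ↔ ∃ i, u = flip v i := by
  constructor
  · rintro ⟨i, hi, hu⟩
    refine ⟨i, ?_⟩
    funext j
    unfold flip
    by_cases hj : j = i
    · subst hj
      rw [Function.update_self]
      have hi' : v j ≠ u j := hi
      cases h1 : v j <;> cases h2 : u j <;> simp_all
    · rw [Function.update_of_ne hj]
      by_contra hne
      exact hj (hu j (fun h => hne h.symm))
  · rintro ⟨i, rfl⟩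
    refine ⟨i, ?_, ?_⟩
    · show v i ≠ flip v i i
      unfold flip
      rw [Function.update_self]
      cases v i <;> decide
    · intro j hj
      by_contra hne
      apply hj
      unfold flip
      rw [Function.update_of_ne hne]

/-- colour -/
def col4 (k : ℕ) (a b : Bool) : Fin (k + 4) := ⟨2 * a.toNat + b.toNat, by
  cases a <;> cases b <;> simp [Bool.toNat]⟩

theorem col4_inj (k : ℕ) {a b a' b' : Bool} (h : col4 k a b = col4 k a' b') : a = a' ∧ b = b' := by
  have h' := congrArg Fin.val h
  unfold col4 at h'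
  simp only at h'
  cases a <;> cases b <;> cases a' <;> cases b' <;> simp [Bool.toNat] at h' ⊢

/-- the strings of `n = m + 4` bits whose first three bits have an even sum -/
def KK (m : ℕ) : Finset (Fin (m + 4) → Bool) :=
  univ.filter fun v => xor (v 0) (xor (v 1) (v 2)) = false

theorem cube_sbc (m k : ℕ) : ∃ (K : Finset (Fin (m + 4) → Bool)) (χ : (Fin (m + 4) → Bool) →
    Fin (k + 4)) (φ : (Fin (m + 4) → Bool) → ℝ) (μ : ℝ), IsSBC (cube (m + 4)) K χ φ μ := by
  classical
  have v2 : ((2 : Fin (m + 4)) : ℕ) = 2 := by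
    show 2 % (m + 4) = 2
    exact Nat.mod_eq_of_lt (by omega)
  have d01 : (0 : Fin (m + 4)) ≠ 1 := by simp [Fin.ext_iff]
  have d02 : (0 : Fin (m + 4)) ≠ 2 := by
    intro h; have := congrArg Fin.val h; rw [v2] at this; simp at this
  have d12 : (1 : Fin (m + 4)) ≠ 2 := by
    intro h; have := congrArg Fin.val h; rw [v2] at this; simp at this
  have hf : ∀ (v : Fin (m + 4) → Bool) (i j : Fin (m + 4)), flip v i j = if j = i then !v i else v j := by
    intro v i j
    unfold flip
    by_cases h : j = i
    · subst h; simp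
    · rw [Function.update_of_ne h, if_neg h]
  have hK : ∀ v : Fin (m + 4) → Bool, v ∈ KK m ↔ xor (v 0) (xor (v 1) (v 2)) = false := by
    intro v; simp [KK]
  have hflip : ∀ (v : Fin (m + 4) → Bool) (i : Fin (m + 4)),
      xor (flip v i 0) (xor (flip v i 1) (flip v i 2)) =
        if i = 0 ∨ i = 1 ∨ i = 2 then !(xor (v 0) (xor (v 1) (v 2))) else xor (v 0) (xor (v 1) (v 2)) := by
    intro v i
    rw [hf, hf, hf]
    by_cases h0 : i = 0
    · subst h0
      rw [if_pos rfl, if_neg d01.symm, if_neg d02.symm, if_pos (Or.inl rfl)]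
      cases v 0 <;> cases v 1 <;> cases v 2 <;> rfl
    by_cases h1 : i = 1
    · subst h1
      rw [if_neg d01, if_pos rfl, if_neg d12.symm, if_pos (Or.inr (Or.inl rfl))]
      cases v 0 <;> cases v 1 <;> cases v 2 <;> rfl
    by_cases h2 : i = 2
    · subst h2
      rw [if_neg d02, if_neg d12, if_pos rfl, if_pos (Or.inr (Or.inr rfl))]
      cases v 0 <;> cases v 1 <;> cases v 2 <;> rfl
    rw [if_neg (Ne.symm h0), if_neg (Ne.symm h1), if_neg (Ne.symm h2),
      if_neg (by rintro (h | h | h); exacts [h0 h, h1 h, h2 h])]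
  have hcard3 : ({0, 1, 2} : Finset (Fin (m + 4))).card = 3 :=
    card_eq_three.2 ⟨0, 1, 2, d01, d02, d12, rfl⟩
  refine ⟨KK m, fun v => col4 k (v 0) (v 1), _, _, sbc_of_three flip flip_inj cube_adj (KK m) _
    (m + 1) (by omega) ?_ ?_ ?_ ?_⟩
  · intro v hv
    rw [hK] at hv
    trans (univ \ ({0, 1, 2} : Finset (Fin (m + 4)))).card
    · congr 1
      ext i
      rw [mem_filter, hK, hflip, hv]
      simp only [mem_univ, true_and, mem_sdiff, mem_insert, mem_singleton]
      by_cases h : i = 0 ∨ i = 1 ∨ i = 2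
      · simp [h]
      · simp [h]
    · rw [card_sdiff_of_subset (subset_univ _), hcard3, card_univ, Fintype.card_fin]
      omega
  · intro v hv i hi
    rw [hK] at hv hi
    rw [hflip, hv] at hi
    have h : ¬ (i = 0 ∨ i = 1 ∨ i = 2) := by
      intro h; rw [if_pos h] at hi; exact absurd hi (by decide)
    push Not at h
    show col4 k (flip v i 0) (flip v i 1) = col4 k (v 0) (v 1)
    rw [hf, hf, if_neg (Ne.symm h.1), if_neg (Ne.symm h.2.1)]
  · refine ⟨fun _ => false, ?_, fun i => decide (i = 0 ∨ i = 1), ?_, ?_⟩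
    · rw [hK]; rfl
    · rw [hK]
      simp [d02.symm, d12.symm]
    · intro h
      have := (col4_inj k h).1
      simp at this
  · intro z hz
    rw [hK, Bool.not_eq_false] at hz
    refine ⟨0, 1, 2, d01, d02, d12, ?_, ?_, ?_, ?_⟩
    · ext i
      rw [mem_filter, hK, hflip, hz]
      simp only [mem_univ, true_and, mem_insert, mem_singleton]
      by_cases h : i = 0 ∨ i = 1 ∨ i = 2
      · simp [h]
      · simp [h]
    · intro h
      have := (col4_inj k h).1
      rw [hf, hf, if_pos rfl, if_neg d01] at this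
      cases hh : z 0 <;> rw [hh] at this <;> exact absurd this (by decide)
    · intro h
      have := (col4_inj k h).1
      rw [hf, hf, if_pos rfl, if_neg d02] at this
      cases hh : z 0 <;> rw [hh] at this <;> exact absurd this (by decide)
    · intro h
      have := (col4_inj k h).2
      rw [hf, hf, if_pos rfl, if_neg d12] at this
      cases hh : z 1 <;> rw [hh] at this <;> exact absurd this (by decide)


/-- the neighbours in the torus of side four -/
def tnb {d : ℕ} (v : Fin d → ZMod 4) (p : Fin d × Bool) : Fin d → ZMod 4 :=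
  Function.update v p.1 (if p.2 then v p.1 + 1 else v p.1 - 1)

theorem tnb_ap {d : ℕ} (v : Fin d → ZMod 4) (p : Fin d × Bool) (j : Fin d) :
    tnb v p j = if j = p.1 then (if p.2 then v p.1 + 1 else v p.1 - 1) else v j := by
  unfold tnb
  by_cases h : j = p.1
  · rw [if_pos h, h, Function.update_self]
  · rw [Function.update_of_ne h, if_neg h]

theorem z4a : ∀ a : ZMod 4, a + 1 ≠ a := by decide
theorem z4b : ∀ a : ZMod 4, a - 1 ≠ a := by decide
theorem z4c : ∀ a : ZMod 4, a + 1 ≠ a - 1 := by decide

theorem tnb_inj {d : ℕ} (v : Fin d → ZMod 4) : Function.Injective (tnb v) := by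
  rintro ⟨i, s⟩ ⟨j, t⟩ h
  have h1 := congrFun h i
  rw [tnb_ap, tnb_ap] at h1
  simp only [if_true] at h1
  by_cases hij : i = j
  · subst hij
    simp only [if_true] at h1
    cases s <;> cases t <;> simp only [Bool.false_eq_true, if_true, if_false] at h1
    · rfl
    · exact absurd h1.symm (z4c _)
    · exact absurd h1 (z4c _)
    · rfl
  · rw [if_neg hij] at h1
    exfalso
    cases s <;> simp only [Bool.false_eq_true, if_true, if_false] at h1
    · exact z4b _ h1
    · exact z4a _ h1

theorem torus_adj {d : ℕ} (v u : Fin d → ZMod 4) : (torus d 4).Adj v u ↔ ∃ p, u = tnb v p := by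
  constructor
  · rintro ⟨-, i, h1, h2⟩
    rcases h1 with h1 | h1
    · refine ⟨(i, true), ?_⟩
      funext j
      rw [tnb_ap]
      by_cases hj : j = i
      · subst hj; simp [h1]
      · rw [if_neg hj]; exact h2 j hj
    · refine ⟨(i, false), ?_⟩
      funext j
      rw [tnb_ap]
      by_cases hj : j = i
      · subst hj; simp [h1]
      · rw [if_neg hj]; exact h2 j hj
  · rintro ⟨⟨i, s⟩, rfl⟩
    refine ⟨?_, i, ?_, ?_⟩
    · intro h
      have h1 := congrFun h i
      rw [tnb_ap] at h1
      cases s <;> simp only [Bool.false_eq_true, if_true, if_false] at h1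
      · exact z4b _ h1.symm
      · exact z4a _ h1.symm
    · cases s
      · right; rw [tnb_ap]; simp
      · left; rw [tnb_ap]; simp
    · intro j hj
      rw [tnb_ap, if_neg hj]

/-- the pattern: `(a, b)` with `a` even and `b ∈ {0, 1}`, or `a` odd and `b ∈ {2, 3}` -/
def TT (a b : ZMod 4) : Bool :=
  (decide (a = 0 ∨ a = 2) && decide (b = 0 ∨ b = 1)) ||
    (decide (a = 1 ∨ a = 3) && decide (b = 2 ∨ b = 3))

def σσ (b : ZMod 4) : Bool := decide (b = 0 ∨ b = 2)

theorem TT1 : ∀ a b : ZMod 4, TT (a + 1) b = !TT a b := by decide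
theorem TT2 : ∀ a b : ZMod 4, TT (a - 1) b = !TT a b := by decide
theorem TT3 : ∀ (a b : ZMod 4) (s : Bool), TT a (if s then b + 1 else b - 1)
    = if s = σσ b then TT a b else !TT a b := by decide

def KT (m : ℕ) : Finset (Fin (m + 2) → ZMod 4) := univ.filter fun v => TT (v 0) (v 1) = true

/-- colour -/
def colT (k : ℕ) (a : ZMod 4) : Fin (k + 4) := ⟨a.val, by
  have := ZMod.val_lt a
  omega⟩

theorem colT_inj (k : ℕ) {a b : ZMod 4} (h : colT k a = colT k b) : a = b := by
  have h' := congrArg Fin.val h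
  exact ZMod.val_injective 4 h'

theorem torus_sbc (m k : ℕ) : ∃ (K : Finset (Fin (m + 2) → ZMod 4)) (χ : (Fin (m + 2) → ZMod 4) →
    Fin (k + 4)) (φ : (Fin (m + 2) → ZMod 4) → ℝ) (μ : ℝ), IsSBC (torus (m + 2) 4) K χ φ μ := by
  classical
  have d01 : (0 : Fin (m + 2)) ≠ 1 := by simp
  have hK : ∀ v : Fin (m + 2) → ZMod 4, v ∈ KT m ↔ TT (v 0) (v 1) = true := by
    intro v; simp [KT]
  have hT : ∀ (v : Fin (m + 2) → ZMod 4) (p : Fin (m + 2) × Bool),
      TT (tnb v p 0) (tnb v p 1) =
        if p = (0, true) ∨ p = (0, false) ∨ p = (1, !σσ (v 1)) then !TT (v 0) (v 1)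
        else TT (v 0) (v 1) := by
    rintro v ⟨i, s⟩
    rw [tnb_ap, tnb_ap]
    by_cases h0 : i = 0
    · subst h0
      rw [if_neg d01.symm]
      cases s
      · simp [TT2]
      · simp [TT1]
    · by_cases h1 : i = 1
      · subst h1
        rw [if_neg d01, if_pos rfl]
        simp only
        rw [TT3]
        cases s <;> cases hσ : σσ (v 1) <;> simp
      · rw [if_neg (Ne.symm h0), if_neg (Ne.symm h1), if_neg]
        simp [h0, h1]
  have hd1 : ∀ b : Bool, ((0 : Fin (m + 2)), true) ≠ (1, b) := fun b h => d01 (congrArg Prod.fst h)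
  have hd2 : ∀ b : Bool, ((0 : Fin (m + 2)), false) ≠ (1, b) := fun b h => d01 (congrArg Prod.fst h)
  have hd3 : ((0 : Fin (m + 2)), true) ≠ (0, false) := fun h => by
    have := congrArg Prod.snd h
    simp at this
  have hcard3 : ∀ b : Bool, ({(0, true), (0, false), (1, b)} : Finset (Fin (m + 2) × Bool)).card = 3 :=
    fun b => card_eq_three.2 ⟨_, _, _, hd3, hd1 b, hd2 b, rfl⟩
  refine ⟨KT m, fun v => colT k (v 0), _, _, sbc_of_three tnb tnb_inj torus_adj (KT m) _
    (2 * m + 1) (by omega) ?_ ?_ ?_ ?_⟩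
  · intro v hv
    rw [hK] at hv
    trans (univ \ ({(0, true), (0, false), (1, !σσ (v 1))} : Finset (Fin (m + 2) × Bool))).card
    · congr 1
      ext p
      rw [mem_filter, hK, hT, hv]
      simp only [mem_univ, true_and, mem_sdiff, mem_insert, mem_singleton]
      by_cases h : p = (0, true) ∨ p = (0, false) ∨ p = (1, !σσ (v 1))
      · rw [if_pos h]; simp [h]
      · rw [if_neg h]; simp only [true_iff]; exact h
    · rw [card_sdiff_of_subset (subset_univ _), hcard3, card_univ, Fintype.card_prod,
        Fintype.card_fin, Fintype.card_bool]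
      omega
  · intro v hv p hp
    rw [hK] at hv hp
    rw [hT, hv] at hp
    have h : ¬ (p = (0, true) ∨ p = (0, false) ∨ p = (1, !σσ (v 1))) := by
      intro h; rw [if_pos h] at hp; exact absurd hp (by decide)
    have h0 : (0 : Fin (m + 2)) ≠ p.1 := by
      intro h1
      apply h
      obtain ⟨i, s⟩ := p
      simp only at h1
      subst h1
      cases s
      · right; left; rfl
      · left; rfl
    show colT k (tnb v p 0) = colT k (v 0)
    rw [tnb_ap, if_neg h0]
  · refine ⟨fun _ => 0, ?_, fun i => if i = 0 then 2 else 0, ?_, ?_⟩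
    · rw [hK]; decide
    · rw [hK]
      simp only [if_true, if_neg d01.symm]
      decide
    · intro h
      have := colT_inj k h
      simp only [if_true] at this
      exact absurd this (by decide)
  · intro z hz
    rw [hK, Bool.not_eq_true] at hz
    refine ⟨(0, true), (0, false), (1, !σσ (z 1)), hd3, hd1 _, hd2 _, ?_, ?_, ?_, ?_⟩
    · ext p
      rw [mem_filter, hK, hT, hz]
      simp only [mem_univ, true_and, mem_insert, mem_singleton]
      by_cases h : p = (0, true) ∨ p = (0, false) ∨ p = (1, !σσ (z 1))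
      · rw [if_pos h]; simp [h]
      · rw [if_neg h]
        constructor
        · intro h'; exact absurd h' (by decide)
        · intro h'; exact absurd h' h
    · intro h
      have := colT_inj k h
      rw [tnb_ap, tnb_ap] at this
      simp only [if_true, Bool.false_eq_true, if_false] at this
      exact z4c _ this
    · intro h
      have := colT_inj k h
      rw [tnb_ap, tnb_ap, if_neg d01] at this
      simp only [if_true] at this
      exact z4a _ this
    · intro h
      have := colT_inj k h
      rw [tnb_ap, tnb_ap, if_neg d01] at this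
      simp only [if_true, Bool.false_eq_true, if_false] at this
      exact z4b _ this

end Pool.Agent.Q207.UrnCT
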